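import Mathlib

/-!
# Diffusion limited aggregation on the hypercube: the deterministic part
-/

set_option autoImplicit false

namespace Pool.Agent.R985.DLA

open Finset

/-- The vertex reached after `i` steps by the decreasing walk which switches off the coordinate `j`
at step `σ j + 1`.  A vertex of the hypercube is given by the set of its coordinates equal to one. -/
def walk {n : ℕ} (σ : Equiv.Perm (Fin n)) (i : ℕ) : Finset (Fin n) :=
  Finset.univ.filter fun j => i ≤ (σ j : ℕ)

/-- The index of the first vertex of the walk which is occupied. -/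
noncomputable def hit {n : ℕ} (C : Finset (Finset (Fin n))) (σ : Equiv.Perm (Fin n)) : ℕ :=
  sInf {i | walk σ i ∈ C}

/-- One step of the process: the last vertex of the walk before the first occupied one is added. -/
noncomputable def step {n : ℕ} (C : Finset (Finset (Fin n))) (σ : Equiv.Perm (Fin n)) :
    Finset (Finset (Fin n)) :=
  insert (walk σ (hit C σ - 1)) C

lemma walk_zero {n : ℕ} (σ : Equiv.Perm (Fin n)) : walk σ 0 = Finset.univ := by
  simp [walk]

lemma walk_n {n : ℕ} (σ : Equiv.Perm (Fin n)) : walk σ n = ∅ := by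
  ext j
  simp [walk]

lemma card_walk {n : ℕ} (σ : Equiv.Perm (Fin n)) (i : ℕ) : (walk σ i).card = n - i := by
  have h1 : (walk σ i).card = (Finset.univ.filter fun m : Fin n => i ≤ (m : ℕ)).card := by
    refine Finset.card_bij (fun j _ => σ j) ?_ ?_ ?_
    · intro j hj
      simpa [walk] using hj
    · intro a _ b _ h
      exact σ.injective h
    · intro b hb
      exact ⟨σ.symm b, by simpa [walk] using hb, by simp⟩
  rw [h1]
  have h2 : (Finset.univ.filter fun m : Fin n => i ≤ (m : ℕ)).card
      = (Finset.Ico i n).card := by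
    refine Finset.card_bij (fun m _ => (m : ℕ)) ?_ ?_ ?_
    · intro m hm
      simp only [Finset.mem_filter, Finset.mem_univ, true_and] at hm
      simp [hm, m.2]
    · intro a _ b _ h
      exact Fin.ext h
    · intro b hb
      simp only [Finset.mem_Ico] at hb
      exact ⟨⟨b, hb.2⟩, by simp [hb.1], rfl⟩
  rw [h2, Nat.card_Ico]

/-- number of occupied vertices at level at least `k` -/
def S {n : ℕ} (k : ℕ) (C : Finset (Finset (Fin n))) : ℕ := (C.filter fun x => k ≤ x.card).card

lemma S_mono {n : ℕ} (k : ℕ) {C D : Finset (Finset (Fin n))} (h : C ⊆ D) : S k C ≤ S k D := by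
  unfold S
  exact Finset.card_le_card (Finset.filter_subset_filter _ h)

lemma subset_step {n : ℕ} (C : Finset (Finset (Fin n))) (σ : Equiv.Perm (Fin n)) :
    C ⊆ step C σ := by
  unfold step
  exact Finset.subset_insert _ _

lemma hit_mem {n : ℕ} {C : Finset (Finset (Fin n))} {σ : Equiv.Perm (Fin n)} {i : ℕ}
    (h : walk σ i ∈ C) : walk σ (hit C σ) ∈ C := by
  exact Nat.sInf_mem (s := {i | walk σ i ∈ C}) ⟨i, h⟩

lemma hit_le {n : ℕ} {C : Finset (Finset (Fin n))} {σ : Equiv.Perm (Fin n)} {i : ℕ}
    (h : walk σ i ∈ C) : hit C σ ≤ i :=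
  Nat.sInf_le h

lemma hit_pos {n : ℕ} {C : Finset (Finset (Fin n))} {σ : Equiv.Perm (Fin n)} {i : ℕ}
    (h : walk σ i ∈ C) (hC : Finset.univ ∉ C) : 0 < hit C σ := by
  rcases Nat.eq_zero_or_pos (hit C σ) with h0 | h0
  · exfalso
    have := hit_mem h
    rw [h0, walk_zero] at this
    exact hC this
  · exact h0

lemma new_notMem {n : ℕ} {C : Finset (Finset (Fin n))} {σ : Equiv.Perm (Fin n)} {i : ℕ}
    (h : walk σ i ∈ C) (hC : Finset.univ ∉ C) : walk σ (hit C σ - 1) ∉ C := by
  intro h1
  have h2 := hit_le h1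
  have h3 := hit_pos h hC
  omega

lemma S_step {n : ℕ} {C : Finset (Finset (Fin n))} {σ : Equiv.Perm (Fin n)} {k : ℕ}
    (hk : k ≤ n) (h : walk σ (n - k) ∈ C) (hC : Finset.univ ∉ C) {l : ℕ} (hl : l ≤ k + 1) :
    S l (step C σ) = S l C + 1 := by
  unfold S step
  rw [Finset.filter_insert, if_pos, Finset.card_insert_of_notMem]
  · intro h1
    exact new_notMem h hC (Finset.mem_filter.1 h1).1
  · rw [card_walk]
    have h2 := hit_le h
    have h3 := hit_pos h hC
    omega

lemma step_of_univ_mem {n : ℕ} {C : Finset (Finset (Fin n))} (σ : Equiv.Perm (Fin n))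
    (hC : Finset.univ ∈ C) : step C σ = C := by
  unfold step
  have h0 : walk σ 0 ∈ C := by rw [walk_zero]; exact hC
  have h1 : hit C σ = 0 := Nat.le_zero.1 (hit_le h0)
  rw [h1]
  simp only [Nat.zero_sub]
  exact Finset.insert_eq_of_mem h0

lemma walk_mul {n : ℕ} (σ τ : Equiv.Perm (Fin n)) (i : ℕ) :
    walk (σ * τ⁻¹) i = (walk σ i).map τ.toEmbedding := by
  ext j
  have h1 : j ∈ walk (σ * τ⁻¹) i ↔ i ≤ ((σ (τ⁻¹ j) : Fin n) : ℕ) := by
    unfold walk
    rw [Finset.mem_filter]
    exact ⟨fun h => h.2, fun h => ⟨Finset.mem_univ _, h⟩⟩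
  rw [h1, Finset.mem_map]
  constructor
  · intro h
    exact ⟨τ⁻¹ j, by simpa [walk] using h, by simp⟩
  · rintro ⟨a, ha, rfl⟩
    simpa [walk] using ha

/-- number of walks through a given vertex -/
lemma count_walk {n k : ℕ} (hk : k ≤ n) (x : Finset (Fin n)) (hx : x.card = k) :
    (Finset.univ.filter fun σ : Equiv.Perm (Fin n) => walk σ (n - k) = x).card * n.choose k
      = n.factorial := by
  classical
  have hsym : ∀ y ∈ Finset.powersetCard k (Finset.univ : Finset (Fin n)),
      (Finset.univ.filter fun σ : Equiv.Perm (Fin n) => walk σ (n - k) = y).card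
        = (Finset.univ.filter fun σ : Equiv.Perm (Fin n) => walk σ (n - k) = x).card := by
    intro y hy
    rw [Finset.mem_powersetCard] at hy
    have hxy : x.card = y.card := by rw [hx, hy.2]
    obtain ⟨τ, hτ⟩ : ∃ τ : Equiv.Perm (Fin n), x.map τ.toEmbedding = y := by
      have e1 : {a // a ∈ x} ≃ {a // a ∈ y} := Finset.equivOfCardEq hxy
      refine ⟨e1.extendSubtype, ?_⟩
      ext j
      simp only [Finset.mem_map, Equiv.coe_toEmbedding]
      constructor
      · rintro ⟨a, ha, rfl⟩
        exact e1.extendSubtype_mem a ha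
      · intro hj
        refine ⟨e1.extendSubtype.symm j, ?_, by simp⟩
        by_contra hcon
        have := e1.extendSubtype_not_mem _ hcon
        simp at this
        exact this hj
    refine Finset.card_bij (fun σ _ => σ * τ) ?_ ?_ ?_
    · intro σ hσ
      simp only [Finset.mem_filter, Finset.mem_univ, true_and] at hσ ⊢
      have h1 := walk_mul σ (τ⁻¹) (n - k)
      rw [inv_inv] at h1
      rw [h1, hσ, ← hτ, Finset.map_map]
      convert Finset.map_refl
      ext j
      simp
    · intro a _ b _ h
      exact mul_right_cancel h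
    · intro σ hσ
      simp only [Finset.mem_filter, Finset.mem_univ, true_and] at hσ
      refine ⟨σ * τ⁻¹, ?_, by simp⟩
      simp only [Finset.mem_filter, Finset.mem_univ, true_and]
      rw [walk_mul, hσ, hτ]
  have hsum : ∑ y ∈ Finset.powersetCard k (Finset.univ : Finset (Fin n)),
      (Finset.univ.filter fun σ : Equiv.Perm (Fin n) => walk σ (n - k) = y).card
        = (Finset.univ : Finset (Equiv.Perm (Fin n))).card := by
    symm
    refine Finset.card_eq_sum_card_fiberwise (f := fun σ => walk σ (n - k)) ?_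
    intro σ _
    rw [Finset.mem_coe, Finset.mem_powersetCard, card_walk]
    exact ⟨Finset.subset_univ _, by omega⟩
  rw [Finset.sum_congr rfl hsym, Finset.sum_const, Finset.card_powersetCard, Finset.card_univ,
    Finset.card_univ, Fintype.card_fin, Fintype.card_perm, Fintype.card_fin, smul_eq_mul,
    mul_comm] at hsum
  exact hsum

/-- number of walks through the occupied vertices of level `k` -/
lemma count_hits {n k : ℕ} (hk : k ≤ n) (C : Finset (Finset (Fin n))) :
    (Finset.univ.filter fun σ : Equiv.Perm (Fin n) => walk σ (n - k) ∈ C).card * n.choose k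
      = (C.filter fun x => x.card = k).card * n.factorial := by
  classical
  have h1 : (Finset.univ.filter fun σ : Equiv.Perm (Fin n) => walk σ (n - k) ∈ C).card
      = ∑ y ∈ C.filter (fun x => x.card = k),
        (Finset.univ.filter fun σ : Equiv.Perm (Fin n) => walk σ (n - k) = y).card := by
    rw [Finset.card_eq_sum_card_fiberwise (f := fun σ => walk σ (n - k))
      (t := C.filter (fun x => x.card = k))]
    · refine Finset.sum_congr rfl fun y hy => ?_
      congr 1
      ext σ
      simp only [Finset.mem_filter, Finset.mem_univ, true_and]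
      constructor
      · exact fun h => h.2
      · intro h
        exact ⟨by rw [h]; exact (Finset.mem_filter.1 hy).1, h⟩
    · intro σ hσ
      rw [Finset.mem_coe, Finset.mem_filter] at hσ ⊢
      refine ⟨hσ.2, ?_⟩
      rw [card_walk]
      omega
  rw [h1, Finset.sum_mul, Finset.sum_congr rfl (g := fun _ => n.factorial), Finset.sum_const,
    smul_eq_mul]
  intro y hy
  exact count_walk hk y (Finset.mem_filter.1 hy).2

lemma S_sub {n : ℕ} (k : ℕ) (C : Finset (Finset (Fin n))) :
    S k C = (C.filter fun x => x.card = k).card + S (k + 1) C := by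
  classical
  unfold S
  rw [← Finset.card_union_of_disjoint]
  · congr 1
    ext x
    simp only [Finset.mem_filter, Finset.mem_union]
    constructor
    · rintro ⟨h1, h2⟩
      rcases Nat.eq_or_lt_of_le h2 with h | h
      · exact Or.inl ⟨h1, h.symm⟩
      · exact Or.inr ⟨h1, h⟩
    · rintro (⟨h1, h2⟩ | ⟨h1, h2⟩)
      · exact ⟨h1, h2.ge⟩
      · exact ⟨h1, by omega⟩
  · rw [Finset.disjoint_left]
    intro x hx hx'
    simp only [Finset.mem_filter] at hx hx'
    omega

/-- the potential -/
noncomputable def Phi {n : ℕ} (y : ℕ → ℕ) (C : Finset (Finset (Fin n))) : ℝ :=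
  ((y 0 - S 0 C : ℕ) : ℝ) +
    ∑ k ∈ Finset.range n, (n.choose k : ℝ) / ((y k : ℝ) - y (k + 1)) * ((y (k+1) - S (k+1) C : ℕ) : ℝ)

lemma Phi_nonneg {n : ℕ} {y : ℕ → ℕ} (hy : ∀ k < n, y (k+1) < y k) (C : Finset (Finset (Fin n))) :
    0 ≤ Phi y C := by
  unfold Phi
  refine add_nonneg (Nat.cast_nonneg _) (Finset.sum_nonneg fun k hk => ?_)
  have h1 : (y (k+1) : ℝ) < y k := by exact_mod_cast hy k (Finset.mem_range.1 hk)
  refine mul_nonneg (div_nonneg (Nat.cast_nonneg _) (by linarith)) (Nat.cast_nonneg _)

/-- The drift inequality. -/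
lemma drift {n : ℕ} {y : ℕ → ℕ} (hy : ∀ k < n, y (k+1) < y k) (hyn : y n = 1)
    (C : Finset (Finset (Fin n))) (h0 : ∅ ∈ C) (hC : Finset.univ ∉ C) :
    (∑ σ : Equiv.Perm (Fin n), Phi y (step C σ)) / (n.factorial : ℝ) + 1 ≤ Phi y C := by
  classical
  have hfac : (0 : ℝ) < n.factorial := by exact_mod_cast n.factorial_pos
  -- level n is empty
  have hSn : S n C = 0 := by
    unfold S
    rw [Finset.card_eq_zero, Finset.filter_eq_empty_iff]
    intro x hx hn
    have : x = Finset.univ := by
      rw [← Finset.card_eq_iff_eq_univ, Fintype.card_fin]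
      have := Finset.card_le_univ x
      rw [Fintype.card_fin] at this
      omega
    rw [this] at hx
    exact hC hx
  have hex : ∃ k, S k C < y k := ⟨n, by rw [hSn, hyn]; norm_num⟩
  have hw0 : ∀ σ : Equiv.Perm (Fin n), walk σ (n - 0) ∈ C := by
    intro σ
    rw [Nat.sub_zero, walk_n]
    exact h0
  have hterm : ∀ (σ : Equiv.Perm (Fin n)) (k : ℕ),
      ((y k - S k (step C σ) : ℕ) : ℝ) ≤ ((y k - S k C : ℕ) : ℝ) := by
    intro σ k
    have := S_mono k (subset_step C σ)
    exact_mod_cast Nat.sub_le_sub_left this (y k)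
  have hcoef : ∀ k ∈ Finset.range n, 0 ≤ (n.choose k : ℝ) / ((y k : ℝ) - y (k + 1)) := by
    intro k hk
    have h1 : (y (k+1) : ℝ) < y k := by exact_mod_cast hy k (Finset.mem_range.1 hk)
    exact div_nonneg (Nat.cast_nonneg _) (by linarith)
  set K := Nat.find hex with hK
  have hK1 : S K C < y K := Nat.find_spec hex
  have hKn : K ≤ n := Nat.find_min' hex (by rw [hSn, hyn]; norm_num)
  rcases Nat.eq_zero_or_pos K with hK0 | hKpos
  · -- every step increases S 0
    rw [hK0] at hK1
    have hall : ∀ σ : Equiv.Perm (Fin n), Phi y (step C σ) ≤ Phi y C - 1 := by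
      intro σ
      unfold Phi
      have h1 : S 0 (step C σ) = S 0 C + 1 := S_step (Nat.zero_le n) (hw0 σ) hC (Nat.zero_le _)
      have h2 : ((y 0 - S 0 (step C σ) : ℕ) : ℝ) = ((y 0 - S 0 C : ℕ) : ℝ) - 1 := by
        rw [h1]
        have : y 0 - S 0 C = (y 0 - (S 0 C + 1)) + 1 := by omega
        rw [this]
        push_cast
        ring
      have h3 : ∑ k ∈ Finset.range n, (n.choose k : ℝ) / ((y k : ℝ) - y (k + 1)) *
            ((y (k+1) - S (k+1) (step C σ) : ℕ) : ℝ)
          ≤ ∑ k ∈ Finset.range n, (n.choose k : ℝ) / ((y k : ℝ) - y (k + 1)) *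
            ((y (k+1) - S (k+1) C : ℕ) : ℝ) :=
        Finset.sum_le_sum fun k hk => mul_le_mul_of_nonneg_left (hterm σ (k+1)) (hcoef k hk)
      linarith
    have h4 : ∑ σ : Equiv.Perm (Fin n), Phi y (step C σ) ≤ (n.factorial : ℝ) * (Phi y C - 1) := by
      calc ∑ σ : Equiv.Perm (Fin n), Phi y (step C σ)
          ≤ ∑ _σ : Equiv.Perm (Fin n), (Phi y C - 1) := Finset.sum_le_sum fun σ _ => hall σ
        _ = (n.factorial : ℝ) * (Phi y C - 1) := by
          rw [Finset.sum_const, Finset.card_univ, Fintype.card_perm, Fintype.card_fin,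
            nsmul_eq_mul]
    have h5 : (∑ σ : Equiv.Perm (Fin n), Phi y (step C σ)) / (n.factorial : ℝ) ≤ Phi y C - 1 := by
      rw [div_le_iff₀ hfac]
      linarith
    linarith
  · obtain ⟨k, hk⟩ : ∃ k, K = k + 1 := ⟨K - 1, by omega⟩
    rw [hk] at hK1 hKn
    have hkK : k < K := by omega
    have hSk : y k ≤ S k C := by
      have := Nat.find_min hex (m := k) (by rw [← hK]; exact hkK)
      omega
    have hkn : k < n := by omega
    set c : ℝ := (n.choose k : ℝ) / ((y k : ℝ) - y (k + 1)) with hc
    have hypos : (0 : ℝ) < (y k : ℝ) - y (k + 1) := by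
      have : (y (k+1) : ℝ) < y k := by exact_mod_cast hy k hkn
      linarith
    have hchoose : (0 : ℝ) < n.choose k := by exact_mod_cast Nat.choose_pos hkn.le
    have hcpos : 0 < c := div_pos hchoose hypos
    have hall : ∀ σ : Equiv.Perm (Fin n),
        Phi y (step C σ) ≤ Phi y C - (if walk σ (n - k) ∈ C then c else 0) := by
      intro σ
      unfold Phi
      have hfirst := hterm σ 0
      have h3 : ∑ l ∈ Finset.range n, (n.choose l : ℝ) / ((y l : ℝ) - y (l + 1)) *
            ((y (l+1) - S (l+1) (step C σ) : ℕ) : ℝ)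
          ≤ ∑ l ∈ Finset.range n, ((n.choose l : ℝ) / ((y l : ℝ) - y (l + 1)) *
            ((y (l+1) - S (l+1) C : ℕ) : ℝ)
              - (if l = k then (if walk σ (n - k) ∈ C then c else 0) else 0)) := by
        refine Finset.sum_le_sum fun l hl => ?_
        by_cases hlk : l = k
        · subst hlk
          rw [if_pos rfl]
          by_cases hwalk : walk σ (n - l) ∈ C
          · rw [if_pos hwalk]
            have h1 : S (l+1) (step C σ) = S (l+1) C + 1 := S_step hkn.le hwalk hC le_rfl
            have h2 : ((y (l+1) - S (l+1) (step C σ) : ℕ) : ℝ)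
                = ((y (l+1) - S (l+1) C : ℕ) : ℝ) - 1 := by
              rw [h1]
              have : y (l+1) - S (l+1) C = (y (l+1) - (S (l+1) C + 1)) + 1 := by omega
              rw [this]
              push_cast
              ring
            rw [h2, ← hc]
            exact le_of_eq (by ring)
          · rw [if_neg hwalk, sub_zero]
            exact mul_le_mul_of_nonneg_left (hterm σ (l+1)) (hcoef l hl)
        · rw [if_neg hlk, sub_zero]
          exact mul_le_mul_of_nonneg_left (hterm σ (l+1)) (hcoef l hl)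
      rw [Finset.sum_sub_distrib, Finset.sum_ite_eq' (Finset.range n) k,
        if_pos (Finset.mem_range.2 hkn)] at h3
      linarith
    have hcount : ((Finset.univ.filter fun σ : Equiv.Perm (Fin n) => walk σ (n - k) ∈ C).card : ℝ)
        * n.choose k = ((C.filter fun x => x.card = k).card : ℝ) * n.factorial := by
      exact_mod_cast count_hits hkn.le C
    have hN : (y k : ℝ) - y (k+1) ≤ ((C.filter fun x => x.card = k).card : ℝ) := by
      have h1 := S_sub k C
      have h2 : y k ≤ (C.filter fun x => x.card = k).card + y (k + 1) := by omega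
      have h3 : (y k : ℝ) ≤ ((C.filter fun x => x.card = k).card : ℝ) + y (k+1) := by
        exact_mod_cast h2
      linarith
    have h4 : ∑ σ : Equiv.Perm (Fin n), Phi y (step C σ)
        ≤ (n.factorial : ℝ) * Phi y C
          - ((Finset.univ.filter fun σ : Equiv.Perm (Fin n) => walk σ (n - k) ∈ C).card : ℝ) * c := by
      calc ∑ σ : Equiv.Perm (Fin n), Phi y (step C σ)
          ≤ ∑ σ : Equiv.Perm (Fin n), (Phi y C - (if walk σ (n - k) ∈ C then c else 0)) :=
            Finset.sum_le_sum fun σ _ => hall σ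
        _ = _ := by
          rw [Finset.sum_sub_distrib, Finset.sum_const, Finset.card_univ, Fintype.card_perm,
            Fintype.card_fin, nsmul_eq_mul, ← Finset.sum_filter, Finset.sum_const, nsmul_eq_mul]
    have h5 : (n.factorial : ℝ)
        ≤ ((Finset.univ.filter fun σ : Equiv.Perm (Fin n) => walk σ (n - k) ∈ C).card : ℝ) * c := by
      have h6 : ((Finset.univ.filter fun σ : Equiv.Perm (Fin n) => walk σ (n - k) ∈ C).card : ℝ) * c
          = ((C.filter fun x => x.card = k).card : ℝ) * n.factorial / ((y k : ℝ) - y (k+1)) := by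
        rw [hc, ← hcount]
        ring
      rw [h6, le_div_iff₀ hypos, mul_comm]
      exact mul_le_mul_of_nonneg_right hN hfac.le
    have h7 : (∑ σ : Equiv.Perm (Fin n), Phi y (step C σ)) / (n.factorial : ℝ) ≤ Phi y C - 1 := by
      rw [div_le_iff₀ hfac]
      linarith
    linarith

end Pool.Agent.R985.DLA
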