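import Mathlib
import Pool.Agent.R985.DLA1

/-!
# Diffusion limited aggregation on the hypercube: the expected end time
-/

set_option autoImplicit false

namespace Pool.Agent.R985.DLA

open Finset MeasureTheory ProbabilityTheory Filter Topology
open scoped ENNReal

/-- The discrete sigma-algebra on the permutations of the coordinates. -/
instance instMeasurableSpacePerm (n : ℕ) : MeasurableSpace (Equiv.Perm (Fin n)) := ⊤

instance (n : ℕ) : DiscreteMeasurableSpace (Equiv.Perm (Fin n)) := ⟨fun _ => trivial⟩

/-- The cluster after `t` particles; the `t`-th particle follows the decreasing walk coded by the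
permutation `ω t`. -/
noncomputable def cluster {n : ℕ} (ω : ℕ → Equiv.Perm (Fin n)) : ℕ → Finset (Finset (Fin n))
  | 0 => {∅}
  | t + 1 => step (cluster ω t) (ω t)

/-- The law of a sequence of independent uniformly distributed permutations. -/
noncomputable def law (n : ℕ) : Measure (ℕ → Equiv.Perm (Fin n)) :=
  Measure.infinitePi fun _ => (PMF.uniformOfFintype (Equiv.Perm (Fin n))).toMeasure

instance (n : ℕ) : IsProbabilityMeasure (law n) := by
  unfold law
  infer_instance

lemma empty_mem {n : ℕ} (ω : ℕ → Equiv.Perm (Fin n)) (t : ℕ) : ∅ ∈ cluster ω t := by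
  induction t with
  | zero => simp [cluster]
  | succ t ih => exact subset_step _ _ ih

lemma cluster_congr {n : ℕ} {ω ω' : ℕ → Equiv.Perm (Fin n)} {t : ℕ}
    (h : ∀ s < t, ω s = ω' s) : cluster ω t = cluster ω' t := by
  induction t with
  | zero => rfl
  | succ t ih =>
    simp only [cluster]
    rw [ih fun s hs => h s (by omega), h t (by omega)]

local instance (n : ℕ) : MeasurableSpace (Finset (Finset (Fin n))) := ⊤
local instance (n : ℕ) : DiscreteMeasurableSpace (Finset (Finset (Fin n))) := ⟨fun _ => trivial⟩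

/-- extension of finitely many coordinates -/
noncomputable def ext {n : ℕ} (t : ℕ) (r : (i : Finset.range t) → Equiv.Perm (Fin n)) :
    ℕ → Equiv.Perm (Fin n) := fun s => if h : s ∈ Finset.range t then r ⟨s, h⟩ else 1

lemma cluster_eq {n : ℕ} (ω : ℕ → Equiv.Perm (Fin n)) (t : ℕ) :
    cluster ω t = cluster (ext t (fun i : Finset.range t => ω i)) t := by
  refine cluster_congr fun s hs => ?_
  unfold ext
  rw [dif_pos (Finset.mem_range.2 hs)]

lemma measurable_cluster {n : ℕ} (t : ℕ) :
    Measurable (fun ω : ℕ → Equiv.Perm (Fin n) => cluster ω t) := by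
  have h1 : (fun ω : ℕ → Equiv.Perm (Fin n) => cluster ω t)
      = (fun r : (i : Finset.range t) → Equiv.Perm (Fin n) => cluster (ext t r) t) ∘
        (fun ω (i : Finset.range t) => ω i) := by
    funext ω
    exact cluster_eq ω t
  rw [h1]
  have h2 : Measurable (fun r : (i : Finset.range t) → Equiv.Perm (Fin n) =>
      cluster (ext t r) t) := Measurable.of_discrete
  exact h2.comp (measurable_pi_lambda _ fun i => measurable_pi_apply _)

lemma indep_cluster {n : ℕ} (t : ℕ) :
    IndepFun (fun ω : ℕ → Equiv.Perm (Fin n) => cluster ω t) (fun ω => ω t) (law n) := by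
  have h0 : iIndepFun (fun (i : ℕ) (ω : ℕ → Equiv.Perm (Fin n)) => ω i) (law n) := by
    have := iIndepFun_infinitePi (P := fun _ : ℕ => (PMF.uniformOfFintype (Equiv.Perm (Fin n))).toMeasure)
      (X := fun _ => id) (fun _ => measurable_id)
    exact this
  have h1 := h0.indepFun_finset (Finset.range t) {t} (by simp) (fun i => measurable_pi_apply i)
  have h2 := h1.comp (φ := fun r : (i : Finset.range t) → Equiv.Perm (Fin n) => cluster (ext t r) t)
    (ψ := fun r : (i : ({t} : Finset ℕ)) → Equiv.Perm (Fin n) => r ⟨t, by simp⟩)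
    Measurable.of_discrete Measurable.of_discrete
  have e1 : ((fun r : (i : Finset.range t) → Equiv.Perm (Fin n) => cluster (ext t r) t) ∘
      fun (ω : ℕ → Equiv.Perm (Fin n)) (i : Finset.range t) => ω i)
        = fun ω : ℕ → Equiv.Perm (Fin n) => cluster ω t := by
    funext ω
    exact (cluster_eq ω t).symm
  rw [e1] at h2
  exact h2

lemma integral_uniform {n : ℕ} (f : Equiv.Perm (Fin n) → ℝ) :
    ∫ σ, f σ ∂(PMF.uniformOfFintype (Equiv.Perm (Fin n))).toMeasure
      = (∑ σ, f σ) / (n.factorial : ℝ) := by
  rw [PMF.integral_eq_sum]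
  simp only [PMF.uniformOfFintype_apply, smul_eq_mul, Fintype.card_perm, Fintype.card_fin]
  rw [← Finset.mul_sum, ENNReal.toReal_inv, ENNReal.toReal_natCast, div_eq_inv_mul]

lemma map_coord {n : ℕ} (t : ℕ) :
    (law n).map (fun ω => ω t) = (PMF.uniformOfFintype (Equiv.Perm (Fin n))).toMeasure := by
  unfold law
  exact Measure.infinitePi_map_eval _ t

lemma bounded {n : ℕ} (f : Finset (Finset (Fin n)) → ℝ) : ∃ M, ∀ C, ‖f C‖ ≤ M := by
  obtain ⟨C, hC⟩ := Finite.exists_max fun C => ‖f C‖
  exact ⟨_, hC⟩

lemma integrable_cluster {n : ℕ} (f : Finset (Finset (Fin n)) → ℝ) (t : ℕ) :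
    Integrable (fun ω => f (cluster ω t)) (law n) := by
  obtain ⟨M, hM⟩ := bounded f
  refine Integrable.of_bound (C := M) ?_ (ae_of_all _ fun ω => hM _)
  exact ((Measurable.of_discrete (f := f)).comp (measurable_cluster t)).aestronglyMeasurable

lemma integral_step {n : ℕ} (f : Finset (Finset (Fin n)) → ℝ) (t : ℕ) :
    ∫ ω, f (cluster ω (t+1)) ∂(law n)
      = ∫ ω, (∑ σ, f (step (cluster ω t) σ)) / (n.factorial : ℝ) ∂(law n) := by
  have hind := indep_cluster (n := n) t
  have hm1 := measurable_cluster (n := n) t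
  have hm2 : Measurable (fun ω : ℕ → Equiv.Perm (Fin n) => ω t) := measurable_pi_apply t
  rw [indepFun_iff_map_prod_eq_prod_map_map hm1.aemeasurable hm2.aemeasurable] at hind
  have hF : Measurable (fun p : Finset (Finset (Fin n)) × Equiv.Perm (Fin n) => f (step p.1 p.2)) :=
    Measurable.of_discrete
  have h1 : ∫ ω, f (cluster ω (t+1)) ∂(law n)
      = ∫ p, f (step p.1 p.2) ∂((law n).map fun ω => (cluster ω t, ω t)) := by
    rw [integral_map (hm1.prodMk hm2).aemeasurable hF.aestronglyMeasurable]
    rfl
  rw [h1, hind, integral_prod]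
  · rw [map_coord]
    simp only [integral_uniform]
    rw [integral_map hm1.aemeasurable]
    exact (Measurable.of_discrete (f := fun C : Finset (Finset (Fin n)) =>
      (∑ σ, f (step C σ)) / (n.factorial : ℝ))).aestronglyMeasurable
  · obtain ⟨M, hM⟩ := bounded f
    have : IsProbabilityMeasure ((law n).map fun ω => cluster ω t) :=
      Measure.isProbabilityMeasure_map hm1.aemeasurable
    have : IsProbabilityMeasure ((law n).map fun ω => ω t) :=
      Measure.isProbabilityMeasure_map hm2.aemeasurable
    exact Integrable.of_bound (C := M) hF.aestronglyMeasurable (ae_of_all _ fun p => hM _)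

/-- expected number of times at which the process has not stopped -/
lemma sum_prob_le {n : ℕ} {y : ℕ → ℕ} (hy : ∀ k < n, y (k+1) < y k) (hyn : y n = 1) (s : ℕ) :
    ∑ t ∈ Finset.range s, (law n).real {ω | Finset.univ ∉ cluster ω t}
      + ∫ ω, Phi y (cluster ω s) ∂(law n) ≤ Phi (n := n) y {∅} := by
  induction s with
  | zero => simp [cluster]
  | succ s ih =>
    rw [Finset.sum_range_succ]
    have h1 : ∫ ω, Phi y (cluster ω (s+1)) ∂(law n)
        + (law n).real {ω | Finset.univ ∉ cluster ω s} ≤ ∫ ω, Phi y (cluster ω s) ∂(law n) := by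
      rw [integral_step]
      have hms : MeasurableSet {ω : ℕ → Equiv.Perm (Fin n) | Finset.univ ∉ cluster ω s} := by
        have : {ω : ℕ → Equiv.Perm (Fin n) | Finset.univ ∉ cluster ω s}
            = (fun ω => cluster ω s) ⁻¹' {C | Finset.univ ∉ C} := rfl
        rw [this]
        exact measurable_cluster s trivial
      have h2 : (law n).real {ω | Finset.univ ∉ cluster ω s}
          = ∫ ω, (if Finset.univ ∉ cluster ω s then (1:ℝ) else 0) ∂(law n) := by
        have h3 : (fun ω : ℕ → Equiv.Perm (Fin n) => if Finset.univ ∉ cluster ω s then (1:ℝ) else 0)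
            = Set.indicator {ω | Finset.univ ∉ cluster ω s} 1 := by
          funext ω
          by_cases h : Finset.univ ∉ cluster ω s
          · rw [if_pos h, Set.indicator_of_mem (by exact h)]; rfl
          · rw [if_neg h, Set.indicator_of_notMem (by exact h)]
        rw [h3, integral_indicator_one hms]
      rw [h2, ← integral_add]
      · refine integral_mono ?_ ?_ ?_
        · exact (integrable_cluster (fun C => (∑ σ, Phi y (step C σ)) / (n.factorial : ℝ)) s).add
            (integrable_cluster (fun C => if Finset.univ ∉ C then (1:ℝ) else 0) s)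
        · exact integrable_cluster (Phi y) s
        · intro ω
          show (∑ σ, Phi y (step (cluster ω s) σ)) / (n.factorial : ℝ)
            + (if Finset.univ ∉ cluster ω s then (1:ℝ) else 0) ≤ Phi y (cluster ω s)
          by_cases h : Finset.univ ∉ cluster ω s
          · rw [if_pos h]
            exact drift hy hyn _ (empty_mem ω s) h
          · rw [if_neg h, add_zero]
            push Not at h
            have hfac : (0 : ℝ) < n.factorial := by exact_mod_cast n.factorial_pos
            rw [div_le_iff₀ hfac]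
            simp only [step_of_univ_mem _ h]
            rw [Finset.sum_const, Finset.card_univ, Fintype.card_perm, Fintype.card_fin,
              nsmul_eq_mul, mul_comm]
      · exact integrable_cluster (fun C => (∑ σ, Phi y (step C σ)) / (n.factorial : ℝ)) s
      · exact integrable_cluster (fun C => if Finset.univ ∉ C then (1:ℝ) else 0) s
    linarith

/-- The number of particles needed to occupy the top vertex. -/
noncomputable def tEnd {n : ℕ} (ω : ℕ → Equiv.Perm (Fin n)) : ℕ :=
  sInf {t | Finset.univ ∈ cluster ω t}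

lemma lintegral_tEnd_le {n : ℕ} {y : ℕ → ℕ} (hy : ∀ k < n, y (k+1) < y k) (hyn : y n = 1) :
    ∫⁻ ω, (tEnd ω : ℝ≥0∞) ∂(law n) ≤ ENNReal.ofReal (Phi (n := n) y {∅}) := by
  have hms : ∀ t, MeasurableSet {ω : ℕ → Equiv.Perm (Fin n) | Finset.univ ∉ cluster ω t} := by
    intro t
    have : {ω : ℕ → Equiv.Perm (Fin n) | Finset.univ ∉ cluster ω t}
        = (fun ω => cluster ω t) ⁻¹' {C | Finset.univ ∉ C} := rfl
    rw [this]
    exact measurable_cluster t trivial
  have h1 : ∀ ω : ℕ → Equiv.Perm (Fin n), (tEnd ω : ℝ≥0∞)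
      ≤ ∑' t : ℕ, Set.indicator {ω | Finset.univ ∉ cluster ω t} (1 : (ℕ → Equiv.Perm (Fin n)) → ℝ≥0∞) ω := by
    intro ω
    have h2 : (tEnd ω : ℝ≥0∞) = ∑ t ∈ Finset.range (tEnd ω), (1 : ℝ≥0∞) := by simp
    rw [h2]
    refine le_trans (Finset.sum_le_sum (g := fun t =>
      Set.indicator {ω | Finset.univ ∉ cluster ω t} (1 : (ℕ → Equiv.Perm (Fin n)) → ℝ≥0∞) ω) fun t ht => ?_)
      (ENNReal.sum_le_tsum _)
    have h3 : Finset.univ ∉ cluster ω t := by
      have := Nat.notMem_of_lt_sInf (s := {t | Finset.univ ∈ cluster ω t}) (Finset.mem_range.1 ht)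
      exact this
    rw [Set.indicator_of_mem (by exact h3)]
    rfl
  refine le_trans (lintegral_mono h1) ?_
  rw [lintegral_tsum fun t => (measurable_one.indicator (hms t)).aemeasurable]
  rw [ENNReal.tsum_eq_iSup_nat]
  refine iSup_le fun s => ?_
  have h4 : ∑ t ∈ Finset.range s, ∫⁻ ω, Set.indicator {ω | Finset.univ ∉ cluster ω t}
      (1 : (ℕ → Equiv.Perm (Fin n)) → ℝ≥0∞) ω ∂(law n)
      = ENNReal.ofReal (∑ t ∈ Finset.range s, (law n).real {ω | Finset.univ ∉ cluster ω t}) := by
    rw [ENNReal.ofReal_sum_of_nonneg fun t _ => measureReal_nonneg]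
    refine Finset.sum_congr rfl fun t _ => ?_
    rw [lintegral_indicator_one (hms t), measureReal_def, ENNReal.ofReal_toReal (measure_ne_top _ _)]
  rw [h4]
  refine ENNReal.ofReal_le_ofReal ?_
  have h5 := sum_prob_le hy hyn s
  have h6 : 0 ≤ ∫ ω, Phi y (cluster ω s) ∂(law n) := integral_nonneg fun ω => Phi_nonneg hy _
  linarith

lemma measurable_tEnd (n : ℕ) :
    Measurable (fun ω : ℕ → Equiv.Perm (Fin n) => (tEnd ω : ℝ≥0∞)) := by
  have hms : ∀ t, MeasurableSet {ω : ℕ → Equiv.Perm (Fin n) | Finset.univ ∈ cluster ω t} := by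
    intro t
    have : {ω : ℕ → Equiv.Perm (Fin n) | Finset.univ ∈ cluster ω t}
        = (fun ω => cluster ω t) ⁻¹' {C | Finset.univ ∈ C} := rfl
    rw [this]
    exact measurable_cluster t trivial
  have h1 : Measurable (fun ω : ℕ → Equiv.Perm (Fin n) => tEnd ω) := by
    refine measurable_to_countable' fun k => ?_
    have h2 : (fun ω : ℕ → Equiv.Perm (Fin n) => tEnd ω) ⁻¹' {k}
        = {ω | (Finset.univ ∈ cluster ω k ∧ ∀ s < k, Finset.univ ∉ cluster ω s)} ∪
          {ω | k = 0 ∧ ∀ s, Finset.univ ∉ cluster ω s} := by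
      ext ω
      simp only [Set.mem_preimage, Set.mem_singleton_iff, Set.mem_union, Set.mem_ofPred_eq]
      constructor
      · intro h
        by_cases hne : ∃ t, Finset.univ ∈ cluster ω t
        · left
          have h3 : Finset.univ ∈ cluster ω (tEnd ω) := Nat.sInf_mem hne
          rw [h] at h3
          refine ⟨h3, fun s hs => ?_⟩
          rw [← h] at hs
          exact Nat.notMem_of_lt_sInf (s := {t | Finset.univ ∈ cluster ω t}) hs
        · right
          push Not at hne
          refine ⟨?_, hne⟩
          rw [← h]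
          unfold tEnd
          have : {t | Finset.univ ∈ cluster ω t} = ∅ := by
            ext t
            simp [hne t]
          rw [this, Nat.sInf_empty]
      · rintro (⟨h3, h4⟩ | ⟨h3, h4⟩)
        · have h5 : tEnd ω ≤ k := Nat.sInf_le h3
          rcases Nat.lt_or_eq_of_le h5 with h6 | h6
          · exfalso
            exact h4 _ h6 (Nat.sInf_mem (s := {t | Finset.univ ∈ cluster ω t}) ⟨k, h3⟩)
          · exact h6
        · rw [h3]
          unfold tEnd
          have : {t | Finset.univ ∈ cluster ω t} = ∅ := by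
            ext t
            simp [h4 t]
          rw [this, Nat.sInf_empty]
    rw [h2]
    refine MeasurableSet.union ?_ ?_
    · have h3 : {ω : ℕ → Equiv.Perm (Fin n) | (Finset.univ ∈ cluster ω k ∧
          ∀ s < k, Finset.univ ∉ cluster ω s)}
          = {ω | Finset.univ ∈ cluster ω k} ∩ ⋂ s, ⋂ (_ : s < k), {ω | Finset.univ ∈ cluster ω s}ᶜ := by
        ext ω
        simp
      rw [h3]
      exact (hms k).inter (MeasurableSet.iInter fun s => MeasurableSet.iInter fun _ => (hms s).compl)
    · by_cases hk : k = 0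
      · have h3 : {ω : ℕ → Equiv.Perm (Fin n) | k = 0 ∧ ∀ s, Finset.univ ∉ cluster ω s}
            = ⋂ s, {ω | Finset.univ ∈ cluster ω s}ᶜ := by
          ext ω
          simp [hk]
        rw [h3]
        exact MeasurableSet.iInter fun s => (hms s).compl
      · have h3 : {ω : ℕ → Equiv.Perm (Fin n) | k = 0 ∧ ∀ s, Finset.univ ∉ cluster ω s} = ∅ := by
          ext ω
          simp [hk]
        rw [h3]
        exact MeasurableSet.empty
  exact (measurable_from_top (f := fun m : ℕ => (m : ℝ≥0∞))).comp h1

end Pool.Agent.R985.DLA
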