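import Mathlib
import Pool.Agent.R985.DLA2

/-!
# Diffusion limited aggregation on the hypercube: the expected end time is o(2^n)
-/

set_option autoImplicit false

namespace Pool.Agent.R985.DLA

open Finset MeasureTheory ProbabilityTheory Filter Topology
open scoped ENNReal

/-- thresholds, counted from the top level -/
noncomputable def zz (n : ℕ) (T : ℝ) : ℕ → ℕ
  | 0 => 1
  | i + 1 => zz n T i + ⌈(zz n T i : ℝ) * (n.choose (n - (i + 1)) : ℝ) / T⌉₊

lemma zz_pos (n : ℕ) (T : ℝ) (i : ℕ) : 0 < zz n T i := by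
  induction i with
  | zero => simp [zz]
  | succ i ih => simp only [zz]; omega

lemma zz_le (n : ℕ) {T : ℝ} (hT : 0 < T) (i : ℕ) :
    (zz n T i : ℝ) ≤ (i + 1) * ∏ j ∈ range i, (1 + (n.choose (n - (j + 1)) : ℝ) / T) := by
  induction i with
  | zero => simp [zz]
  | succ i ih =>
    rw [Finset.prod_range_succ]
    set P := ∏ j ∈ range i, (1 + (n.choose (n - (j + 1)) : ℝ) / T) with hP
    set a := (n.choose (n - (i + 1)) : ℝ) / T with ha
    have ha0 : 0 ≤ a := div_nonneg (Nat.cast_nonneg _) hT.le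
    have hP1 : 1 ≤ P := by
      rw [hP]
      refine Finset.prod_induction (fun j => 1 + (n.choose (n - (j + 1)) : ℝ) / T)
        (fun x => (1:ℝ) ≤ x) (fun a b ha hb => by nlinarith) le_rfl fun j _ => ?_
      have : 0 ≤ (n.choose (n - (j + 1)) : ℝ) / T := div_nonneg (Nat.cast_nonneg _) hT.le
      show 1 ≤ 1 + (n.choose (n - (j + 1)) : ℝ) / T
      linarith
    have h1 : (⌈(zz n T i : ℝ) * (n.choose (n - (i + 1)) : ℝ) / T⌉₊ : ℝ) ≤ zz n T i * a + 1 := by
      have := Nat.ceil_lt_add_one (a := (zz n T i : ℝ) * (n.choose (n - (i + 1)) : ℝ) / T)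
        (div_nonneg (mul_nonneg (Nat.cast_nonneg _) (Nat.cast_nonneg _)) hT.le)
      rw [mul_div_assoc] at this
      rw [mul_div_assoc]
      exact this.le
    simp only [zz]
    push_cast
    have h2 : (zz n T i : ℝ) * (1 + a) ≤ (i + 1) * P * (1 + a) :=
      mul_le_mul_of_nonneg_right ih (by linarith)
    have h3 : 1 ≤ P * (1 + a) := by nlinarith
    nlinarith

/-- The main inequality. -/
lemma lintegral_tEnd_le' (n : ℕ) {T : ℝ} (hT : 0 < T) :
    ∫⁻ ω, (tEnd ω : ℝ≥0∞) ∂(law n)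
      ≤ ENNReal.ofReal ((n + 1) * ∏ k ∈ range n, (1 + (n.choose k : ℝ) / T) + n * T) := by
  set y : ℕ → ℕ := fun k => zz n T (n - k) with hy
  have hstep : ∀ k < n, (y k : ℕ) = y (k+1) + ⌈(y (k+1) : ℝ) * (n.choose k : ℝ) / T⌉₊ := by
    intro k hk
    have h1 : n - k = (n - (k + 1)) + 1 := by omega
    have h2 : n - (n - (k + 1) + 1) = k := by omega
    simp only [hy]
    rw [h1]
    simp only [zz]
    rw [h2]
  have hlt : ∀ k < n, y (k+1) < y k := by
    intro k hk
    rw [hstep k hk]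
    have h1 : 0 < (y (k+1) : ℝ) * (n.choose k : ℝ) / T := by
      have h2 : (0 : ℝ) < y (k+1) := by exact_mod_cast zz_pos n T _
      have h3 : (0 : ℝ) < n.choose k := by exact_mod_cast Nat.choose_pos hk.le
      positivity
    have := Nat.ceil_pos.2 h1
    omega
  have hyn : y n = 1 := by simp [hy, zz]
  refine (lintegral_tEnd_le hlt hyn).trans (ENNReal.ofReal_le_ofReal ?_)
  unfold Phi
  have h1 : ((y 0 - S (n := n) 0 {∅} : ℕ) : ℝ) ≤ (n + 1) * ∏ k ∈ range n, (1 + (n.choose k : ℝ) / T) := by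
    have h2 : ((y 0 - S (n := n) 0 {∅} : ℕ) : ℝ) ≤ y 0 := by exact_mod_cast Nat.sub_le _ _
    refine h2.trans ?_
    have h3 := zz_le n hT n
    have h4 : ∏ j ∈ range n, (1 + (n.choose (n - (j + 1)) : ℝ) / T)
        = ∏ k ∈ range n, (1 + (n.choose k : ℝ) / T) := by
      rw [← Finset.prod_range_reflect (fun k => 1 + (n.choose k : ℝ) / T) n]
      refine Finset.prod_congr rfl fun j _ => ?_
      rw [Nat.sub_sub, add_comm 1 j]
    rw [h4] at h3
    simpa [hy] using h3
  have h2 : ∑ k ∈ Finset.range n, (n.choose k : ℝ) / ((y k : ℝ) - y (k + 1)) *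
      ((y (k+1) - S (n := n) (k+1) {∅} : ℕ) : ℝ) ≤ n * T := by
    calc _ ≤ ∑ _k ∈ Finset.range n, T := by
          refine Finset.sum_le_sum fun k hk => ?_
          have hk' := Finset.mem_range.1 hk
          have hpos : (0 : ℝ) < (y k : ℝ) - y (k + 1) := by
            have : (y (k+1) : ℝ) < y k := by exact_mod_cast hlt k hk'
            linarith
          have h3 : ((y (k+1) - S (n := n) (k+1) {∅} : ℕ) : ℝ) ≤ y (k+1) := by
            exact_mod_cast Nat.sub_le _ _
          have h4 : (y (k+1) : ℝ) * (n.choose k : ℝ) / T ≤ (y k : ℝ) - y (k + 1) := by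
            have := Nat.le_ceil ((y (k+1) : ℝ) * (n.choose k : ℝ) / T)
            rw [hstep k hk']
            push_cast
            linarith
          calc (n.choose k : ℝ) / ((y k : ℝ) - y (k + 1)) *
                ((y (k+1) - S (n := n) (k+1) {∅} : ℕ) : ℝ)
              ≤ (n.choose k : ℝ) / ((y k : ℝ) - y (k + 1)) * y (k+1) :=
                mul_le_mul_of_nonneg_left h3 (div_nonneg (Nat.cast_nonneg _) hpos.le)
            _ ≤ T := by
                rw [div_mul_eq_mul_div, div_le_iff₀ hpos]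
                rw [div_le_iff₀ hT] at h4
                linarith
      _ = n * T := by rw [Finset.sum_const, Finset.card_range, nsmul_eq_mul]
  linarith

lemma variance_choose (n : ℕ) :
    ∑ k ∈ range (n + 1), (n.choose k : ℝ) * (2 * (k : ℝ) - n) ^ 2 = (n : ℝ) * 2 ^ n := by
  have h := congrArg (Polynomial.eval (1/2 : ℝ)) (bernsteinPolynomial.variance ℝ n)
  rw [Polynomial.eval_finsetSum] at h
  simp only [bernsteinPolynomial, Polynomial.eval_mul, Polynomial.eval_pow, Polynomial.eval_sub,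
    Polynomial.eval_natCast, Polynomial.eval_X, Polynomial.eval_one, nsmul_eq_mul] at h
  have h2 : ∀ k ∈ range (n + 1), (n.choose k : ℝ) * (2 * (k : ℝ) - n) ^ 2
      = 4 * 2 ^ n * (((n : ℝ) * (1/2) - k) ^ 2 * ((n.choose k : ℝ) * (1/2) ^ k * (1 - 1/2) ^ (n - k))) := by
    intro k hk
    have hk' : k ≤ n := by have := Finset.mem_range.1 hk; omega
    have h3 : (1/2 : ℝ) ^ k * (1 - 1/2) ^ (n - k) = 1 / 2 ^ n := by
      rw [show (1 - 1/2 : ℝ) = 1/2 by norm_num, ← pow_add, Nat.add_sub_cancel' hk', one_div_pow]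
    have h4 : ((n : ℝ) * (1/2) - k) ^ 2 * ((n.choose k : ℝ) * (1/2) ^ k * (1 - 1/2) ^ (n - k))
        = ((n : ℝ) * (1/2) - k) ^ 2 * (n.choose k : ℝ) * ((1/2) ^ k * (1 - 1/2) ^ (n - k)) := by ring
    rw [h4, h3]
    have h5 : (2 : ℝ) ^ n ≠ 0 := by positivity
    field_simp
    ring
  rw [Finset.sum_congr rfl h2, ← Finset.mul_sum, h]
  ring

lemma prod_le (n : ℕ) {b : ℝ} (hb : 0 < b) :
    ∏ k ∈ range n, (1 + (n.choose k : ℝ) / (2 ^ n / b))
      ≤ (1 + b) ^ (⌈√(8 * b)⌉₊ + 2) * Real.exp (n / 8) := by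
  classical
  set a : ℕ → ℝ := fun k => (n.choose k : ℝ) / (2 ^ n / b) with ha
  have ha0 : ∀ k, 0 ≤ a k := fun k => by positivity
  have ha1 : ∀ k ∈ range n, a k ≤ b := by
    intro k hk
    have h1 : (n.choose k : ℝ) ≤ 2 ^ n := by
      have h2 : n.choose k ≤ ∑ m ∈ range (n + 1), n.choose m :=
        Finset.single_le_sum (f := fun m => n.choose m) (fun _ _ => Nat.zero_le _)
          (Finset.mem_range.2 (by have := Finset.mem_range.1 hk; omega))
      rw [Nat.sum_range_choose] at h2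
      exact_mod_cast h2
    simp only [ha]
    rw [div_div_eq_mul_div, div_le_iff₀ (by positivity)]
    rw [mul_comm]
    exact mul_le_mul_of_nonneg_left h1 hb.le
  set M := (range n).filter fun k : ℕ => (2 * (k : ℝ) - n) ^ 2 < 8 * b with hM
  have hsplit : ∏ k ∈ range n, (1 + a k)
      = (∏ k ∈ M, (1 + a k)) * ∏ k ∈ (range n).filter (fun k : ℕ => ¬ (2 * (k : ℝ) - n) ^ 2 < 8 * b), (1 + a k) := by
    rw [hM]
    exact (Finset.prod_filter_mul_prod_filter_not _ _ _).symm
  have h1 : ∏ k ∈ M, (1 + a k) ≤ (1 + b) ^ (⌈√(8 * b)⌉₊ + 2) := by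
    have h2 : ∏ k ∈ M, (1 + a k) ≤ ∏ _k ∈ M, (1 + b) := by
      refine Finset.prod_le_prod (fun k _ => by have := ha0 k; linarith) fun k hk => ?_
      have := ha1 k (Finset.mem_filter.1 hk).1
      linarith
    rw [Finset.prod_const] at h2
    refine h2.trans ?_
    refine pow_le_pow_right₀ (by linarith) ?_
    set r := ⌈√(8 * b)⌉₊ with hr
    have hsub : M ⊆ Finset.Icc ((n - r) / 2) ((n + r) / 2) := by
      intro k hk
      rw [hM, Finset.mem_filter] at hk
      have h3 : |2 * (k : ℝ) - n| < √(8 * b) := by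
        rw [← Real.sqrt_sq_eq_abs]
        exact Real.sqrt_lt_sqrt (sq_nonneg _) hk.2
      have h4 : √(8 * b) ≤ r := Nat.le_ceil _
      have h5 := abs_lt.1 (h3.trans_le h4)
      have h6 : (n : ℝ) < 2 * k + r := by linarith [h5.1]
      have h7 : 2 * (k : ℝ) < n + r := by linarith [h5.2]
      have h8 : n < 2 * k + r := by exact_mod_cast h6
      have h9 : 2 * k < n + r := by exact_mod_cast h7
      rw [Finset.mem_Icc]
      constructor <;> omega
    refine (Finset.card_le_card hsub).trans ?_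
    rw [Nat.card_Icc]
    omega
  have h2 : ∏ k ∈ (range n).filter (fun k : ℕ => ¬ (2 * (k : ℝ) - n) ^ 2 < 8 * b), (1 + a k)
      ≤ Real.exp (n / 8) := by
    have h3 : ∏ k ∈ (range n).filter (fun k : ℕ => ¬ (2 * (k : ℝ) - n) ^ 2 < 8 * b), (1 + a k)
        ≤ ∏ k ∈ (range n).filter (fun k : ℕ => ¬ (2 * (k : ℝ) - n) ^ 2 < 8 * b), Real.exp (a k) := by
      refine Finset.prod_le_prod (fun k _ => by have := ha0 k; linarith) fun k hk => ?_
      have := Real.add_one_le_exp (a k)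
      linarith
    refine h3.trans ?_
    rw [← Real.exp_sum]
    refine Real.exp_le_exp.2 ?_
    have h4 : ∀ k ∈ (range n).filter (fun k : ℕ => ¬ (2 * (k : ℝ) - n) ^ 2 < 8 * b),
        a k ≤ (n.choose k : ℝ) * (2 * (k : ℝ) - n) ^ 2 / (8 * 2 ^ n) := by
      intro k hk
      have h5 := (Finset.mem_filter.1 hk).2
      push Not at h5
      simp only [ha]
      rw [div_div_eq_mul_div, div_le_div_iff₀ (by positivity) (by positivity)]
      have h6 : (0 : ℝ) ≤ n.choose k := Nat.cast_nonneg _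
      have h7 : (0 : ℝ) < 2 ^ n := by positivity
      nlinarith [mul_le_mul_of_nonneg_left h5 (mul_nonneg h6 h7.le)]
    calc ∑ k ∈ (range n).filter (fun k : ℕ => ¬ (2 * (k : ℝ) - n) ^ 2 < 8 * b), a k
        ≤ ∑ k ∈ (range n).filter (fun k : ℕ => ¬ (2 * (k : ℝ) - n) ^ 2 < 8 * b),
          (n.choose k : ℝ) * (2 * (k : ℝ) - n) ^ 2 / (8 * 2 ^ n) := Finset.sum_le_sum h4
      _ ≤ ∑ k ∈ range (n + 1), (n.choose k : ℝ) * (2 * (k : ℝ) - n) ^ 2 / (8 * 2 ^ n) := by
          refine Finset.sum_le_sum_of_subset_of_nonneg ?_ fun k _ _ => by positivity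
          intro k hk
          have := Finset.mem_range.1 (Finset.mem_filter.1 hk).1
          exact Finset.mem_range.2 (by omega)
      _ = n / 8 := by
          rw [← Finset.sum_div, variance_choose]
          have : (2 : ℝ) ^ n ≠ 0 := by positivity
          field_simp
  rw [hsplit]
  exact mul_le_mul h1 h2 (Finset.prod_nonneg fun k _ => by have := ha0 k; linarith) (by positivity)

lemma asym {ε : ℝ} (hε : 0 < ε) (c : ℝ) :
    ∀ᶠ x : ℝ in atTop, (√(8 * x) + 4) * Real.log (1 + x) + c ≤ ε * x := by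
  have h1 : (fun x : ℝ => Real.log (1 + x)) =o[atTop] fun x : ℝ => (1 + x) ^ (1/4 : ℝ) := by
    have := isLittleO_log_rpow_atTop (r := 1/4) (by norm_num)
    exact this.comp_tendsto (tendsto_atTop_add_const_left atTop 1 tendsto_id)
  have h2 : Tendsto (fun x : ℝ => x ^ (1/4 : ℝ)) atTop atTop := tendsto_rpow_atTop (by norm_num)
  filter_upwards [h1.bound (c := 1) one_pos, eventually_ge_atTop 1,
    h2.eventually_ge_atTop (28 / ε), eventually_ge_atTop (2 * |c| / ε)] with x hx hx1 hx2 hx3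
  have hx0 : 0 < x := by linarith
  have h3 : Real.log (1 + x) ≤ 2 * x ^ (1/4 : ℝ) := by
    rw [Real.norm_of_nonneg (Real.log_nonneg (by linarith)),
      Real.norm_of_nonneg (by positivity), one_mul] at hx
    refine hx.trans ?_
    calc (1 + x) ^ (1/4 : ℝ) ≤ (2 ^ (4 : ℝ) * x) ^ (1/4 : ℝ) := by
          refine Real.rpow_le_rpow (by positivity) ?_ (by norm_num)
          norm_num
          linarith
      _ = 2 * x ^ (1/4 : ℝ) := by
          rw [Real.mul_rpow (by positivity) hx0.le, ← Real.rpow_mul (by norm_num)]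
          norm_num
  have h4 : √(8 * x) + 4 ≤ 7 * x ^ (1/2 : ℝ) := by
    have h5 : √(8 * x) ≤ 3 * x ^ (1/2 : ℝ) := by
      rw [← Real.sqrt_eq_rpow]
      rw [show (3 : ℝ) * √x = √(9 * x) by
        rw [Real.sqrt_mul (by norm_num), show (9 : ℝ) = 3 ^ 2 by norm_num, Real.sqrt_sq (by norm_num)]]
      exact Real.sqrt_le_sqrt (by linarith)
    have h6 : 1 ≤ x ^ (1/2 : ℝ) := Real.one_le_rpow hx1 (by norm_num)
    linarith
  have h5 : (√(8 * x) + 4) * Real.log (1 + x) ≤ 14 * x ^ (3/4 : ℝ) := by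
    calc (√(8 * x) + 4) * Real.log (1 + x) ≤ (7 * x ^ (1/2 : ℝ)) * (2 * x ^ (1/4 : ℝ)) :=
          mul_le_mul h4 h3 (Real.log_nonneg (by linarith)) (by positivity)
      _ = 14 * x ^ (3/4 : ℝ) := by
          rw [show (3/4 : ℝ) = 1/2 + 1/4 by norm_num, Real.rpow_add hx0]
          ring
  have h6 : 14 * x ^ (3/4 : ℝ) ≤ ε / 2 * x := by
    have h7 : x = x ^ (1/4 : ℝ) * x ^ (3/4 : ℝ) := by
      rw [← Real.rpow_add hx0]
      norm_num
    have h8 : 14 ≤ ε / 2 * x ^ (1/4 : ℝ) := by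
      rw [div_le_iff₀ hε] at hx2
      linarith
    have h9 : 0 ≤ x ^ (3/4 : ℝ) := by positivity
    calc 14 * x ^ (3/4 : ℝ) ≤ (ε / 2 * x ^ (1/4 : ℝ)) * x ^ (3/4 : ℝ) :=
          mul_le_mul_of_nonneg_right h8 h9
      _ = ε / 2 * x := by
          rw [mul_assoc, ← h7]
  have h7 : c ≤ ε / 2 * x := by
    rw [div_le_iff₀ hε] at hx3
    have := le_abs_self c
    linarith
  linarith

lemma eventually_le {G : ℝ} (hG : 1 ≤ G) :
    ∀ᶠ n : ℕ in atTop,
      ((n : ℝ) + 1) * ∏ k ∈ range n, (1 + (n.choose k : ℝ) / (2 ^ n / ((n + 1) * G)))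
        + n * (2 ^ n / ((n + 1) * G)) ≤ 2 * 2 ^ n / G := by
  have hG0 : 0 < G := by linarith
  have h1 := asym (ε := 1 / (4 * G)) (by positivity) (Real.log G)
  have h2 : Tendsto (fun n : ℕ => ((n : ℝ) + 1) * G) atTop atTop :=
    (tendsto_atTop_add_const_right _ _ tendsto_natCast_atTop_atTop).atTop_mul_const hG0
  filter_upwards [h2.eventually h1, eventually_ge_atTop 1] with n hn hn1
  set b : ℝ := ((n : ℝ) + 1) * G with hb
  have hn1' : (1 : ℝ) ≤ n := by exact_mod_cast hn1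
  have hb0 : 0 < b := by positivity
  have hprod := prod_le n hb0
  have h3 : (n : ℝ) * (2 ^ n / b) ≤ 2 ^ n / G := by
    rw [hb, ← mul_div_assoc, div_le_div_iff₀ (by positivity) hG0]
    have : (0 : ℝ) < 2 ^ n := by positivity
    nlinarith [mul_pos this hG0]
  have h4 : ((n : ℝ) + 1) * ((1 + b) ^ (⌈√(8 * b)⌉₊ + 2) * Real.exp (n / 8)) ≤ 2 ^ n / G := by
    have h5 : ((n : ℝ) + 1) * ((1 + b) ^ (⌈√(8 * b)⌉₊ + 2) * Real.exp (n / 8)) * G
        ≤ 2 ^ n := by
      rw [← Real.log_le_log_iff (by positivity) (by positivity)]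
      rw [Real.log_mul (by positivity) hG0.ne', Real.log_mul (by positivity) (by positivity),
        Real.log_mul (by positivity) (by positivity), Real.log_pow, Real.log_exp, Real.log_pow]
      have h6 : (⌈√(8 * b)⌉₊ : ℝ) ≤ √(8 * b) + 1 := (Nat.ceil_lt_add_one (Real.sqrt_nonneg _)).le
      have h7 : 0 ≤ Real.log (1 + b) := Real.log_nonneg (by linarith)
      have h8 : Real.log ((n : ℝ) + 1) ≤ Real.log (1 + b) := by
        refine Real.log_le_log (by positivity) ?_
        rw [hb]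
        nlinarith
      have h9 : ((⌈√(8 * b)⌉₊ + 2 : ℕ) : ℝ) * Real.log (1 + b)
          ≤ (√(8 * b) + 3) * Real.log (1 + b) := by
        push_cast
        exact mul_le_mul_of_nonneg_right (by linarith) h7
      have h10 : 1 / (4 * G) * b = ((n : ℝ) + 1) / 4 := by
        rw [hb]
        field_simp
      rw [h10] at hn
      have h11 := Real.log_two_gt_d9
      have h12 : (n : ℝ) * 0.69 ≤ n * Real.log 2 := mul_le_mul_of_nonneg_left (by linarith) (by linarith)
      nlinarith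
    rw [le_div_iff₀ hG0]
    exact h5
  have h5 : ((n : ℝ) + 1) * ∏ k ∈ range n, (1 + (n.choose k : ℝ) / (2 ^ n / b)) ≤ 2 ^ n / G :=
    (mul_le_mul_of_nonneg_left hprod (by positivity)).trans h4
  have h6 : 2 * 2 ^ n / G = (2 : ℝ) ^ n / G + 2 ^ n / G := by ring
  rw [h6]
  exact add_le_add h5 h3

end Pool.Agent.R985.DLA
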