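import Mathlib
open MeasureTheory ProbabilityTheory

namespace Pool.Agent.R985.LG

/-! ### Chebyshev for counts -/

section cheb
variable {Y : Type*} [MeasurableSpace Y] (ν : Measure Y) [IsProbabilityMeasure ν]

lemma cheb (n : ℕ) (E : Set Y) (hE : MeasurableSet E) (K : ℝ) (hK : 0 < K)
    (h : 2 * K ≤ n * ν.real E) :
    (Measure.infinitePi (fun _ : Fin n => ν)).real
      {x : Fin n → Y | ∑ b, E.indicator (fun _ => (1 : ℝ)) (x b) < K} ≤ 2 / K := by
  classical
  set μ := Measure.infinitePi (fun _ : Fin n => ν) with hμ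
  set f : Y → ℝ := E.indicator (fun _ => (1 : ℝ)) with hf
  have hfm : Measurable f := measurable_const.indicator hE
  have hfb : ∀ y, |f y| ≤ 1 := by
    intro y
    simp only [hf, Set.indicator]
    split_ifs <;> simp
  set X : Fin n → (Fin n → Y) → ℝ := fun b x => f (x b) with hX
  have hXm : ∀ b, Measurable (X b) := fun b => hfm.comp (measurable_pi_apply b)
  have hXL : ∀ b, MemLp (X b) 2 μ := fun b =>
    MemLp.of_bound (hXm b).aestronglyMeasurable 1 (Filter.Eventually.of_forall fun x => hfb _)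
  have hind : iIndepFun X μ := iIndepFun_infinitePi (fun _ => hfm)
  have hint : ∀ b, ∫ x, X b x ∂μ = ν.real E := by
    intro b
    have h1 : ∫ x, X b x ∂μ = ∫ y, f y ∂(μ.map (fun x => x b)) := by
      rw [integral_map (measurable_pi_apply b).aemeasurable hfm.aestronglyMeasurable]
    rw [h1, hμ, Measure.infinitePi_map_eval, hf, integral_indicator_const _ hE]
    simp
  have hsq : ∀ b, ∫ x, (X b x) ^ 2 ∂μ = ν.real E := by
    intro b
    rw [← hint b]
    refine integral_congr_ae (Filter.Eventually.of_forall fun x => ?_)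
    simp only [hX, hf, Set.indicator]
    split_ifs <;> simp
  have hvar : ∀ b, variance (X b) μ ≤ ν.real E := by
    intro b
    rw [variance_eq_sub (hXL b)]
    have h1 : μ[X b ^ 2] = ν.real E := hsq b
    rw [h1]
    nlinarith [sq_nonneg (μ[X b])]
  have hvs : variance (∑ b, X b) μ ≤ n * ν.real E := by
    rw [IndepFun.variance_sum (fun b _ => hXL b) (fun i _ j _ hij => hind.indepFun hij)]
    calc ∑ b, variance (X b) μ ≤ ∑ _b : Fin n, ν.real E := Finset.sum_le_sum fun b _ => hvar b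
      _ = n * ν.real E := by simp
  have hmean : μ[∑ b, X b] = n * ν.real E := by
    have h1 : ∀ x, (∑ b, X b) x = ∑ b, X b x := fun x => by simp
    simp only [h1]
    rw [integral_finsetSum _ (fun b _ => (hXL b).integrable (by norm_num))]
    simp [hint]
  have hMpos : 0 < (n : ℝ) * ν.real E := by linarith
  have hc : 0 < (n : ℝ) * ν.real E / 2 := by positivity
  have hL2 : MemLp (∑ b, X b) 2 μ := memLp_finsetSum' _ (fun b _ => hXL b)
  have hch := meas_ge_le_variance_div_sq hL2 hc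
  have hsub : {x : Fin n → Y | ∑ b, f (x b) < K} ⊆
      {x | (n : ℝ) * ν.real E / 2 ≤ |(∑ b, X b) x - μ[∑ b, X b]|} := by
    intro x hx
    simp only [Set.mem_setOf_eq] at hx ⊢
    rw [hmean, Finset.sum_apply]
    have h2 : ∑ b, X b x < K := hx
    rw [abs_of_neg (by linarith)]
    linarith
  have h3 : μ.real {x : Fin n → Y | ∑ b, f (x b) < K} ≤
      variance (∑ b, X b) μ / ((n : ℝ) * ν.real E / 2) ^ 2 := by
    rw [Measure.real]
    refine ENNReal.toReal_le_of_le_ofReal ?_ ((measure_mono hsub).trans hch)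
    exact div_nonneg (variance_nonneg _ _) (sq_nonneg _)
  refine h3.trans ?_
  calc variance (∑ b, X b) μ / ((n : ℝ) * ν.real E / 2) ^ 2
      ≤ ((n : ℝ) * ν.real E) / ((n : ℝ) * ν.real E / 2) ^ 2 := by gcongr
    _ = 4 / ((n : ℝ) * ν.real E) := by field_simp; ring
    _ ≤ 4 / (2 * K) := by gcongr
    _ = 2 / K := by field_simp; ring

end cheb

/-! ### nested product events -/

section nested
variable (ν₀ : Measure Bool) [IsProbabilityMeasure ν₀] (p : ℝ)

def E1 (w : ℕ) : Set (Fin w → Bool) := {x | ∀ s, x s = true}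
def E2 (w n : ℕ) (S : Finset (Fin n)) : Set (Fin n → Fin w → Bool) := {x | ∃ c ∈ S, x c ∈ E1 w}
def E3 (w n m : ℕ) (S : Finset (Fin n)) : Set (Fin m → Fin n → Fin w → Bool) :=
  {x | ∀ s, x s ∈ E2 w n S}

noncomputable abbrev n1 (w : ℕ) : Measure (Fin w → Bool) := Measure.infinitePi fun _ => ν₀
noncomputable abbrev n2 (w n : ℕ) : Measure (Fin n → Fin w → Bool) :=
  Measure.infinitePi fun _ => n1 ν₀ w
noncomputable abbrev n3 (w n m : ℕ) : Measure (Fin m → Fin n → Fin w → Bool) :=
  Measure.infinitePi fun _ => n2 ν₀ w n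

lemma mE1 (w : ℕ) : MeasurableSet (E1 w) := (Set.toFinite _).measurableSet
lemma mE2 (w n : ℕ) (S : Finset (Fin n)) : MeasurableSet (E2 w n S) :=
  (Set.toFinite _).measurableSet
lemma mE3 (w n m : ℕ) (S : Finset (Fin n)) : MeasurableSet (E3 w n m S) :=
  (Set.toFinite _).measurableSet

variable (hp : ν₀.real {true} = p)
include hp

lemma r1 (w : ℕ) : (n1 ν₀ w).real (E1 w) = p ^ w := by
  have h1 : E1 w = Set.pi (Finset.univ : Finset (Fin w)) (fun _ => {true}) := by
    ext x; simp [E1]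
  rw [h1, Measure.real, n1, Measure.infinitePi_pi (μ := fun _ => ν₀) (fun _ _ => by measurability)]
  simp only [Finset.prod_const, Finset.card_univ, Fintype.card_fin, ENNReal.toReal_pow]
  rw [← hp]; rfl

lemma r2 (w n : ℕ) (S : Finset (Fin n)) :
    (n2 ν₀ w n).real (E2 w n S) = 1 - (1 - p ^ w) ^ S.card := by
  have h1 : (E2 w n S)ᶜ = Set.pi S (fun _ => (E1 w)ᶜ) := by
    ext x; simp [E2]
  have h2 : (n2 ν₀ w n).real (E2 w n S)ᶜ = (1 - p ^ w) ^ S.card := by
    rw [h1, Measure.real, n2, Measure.infinitePi_pi (μ := fun _ => n1 ν₀ w)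
      (fun _ _ => (mE1 w).compl)]
    simp only [Finset.prod_const, ENNReal.toReal_pow]
    congr 1
    have := measureReal_compl (μ := n1 ν₀ w) (mE1 w)
    rw [r1 ν₀ p hp w] at this
    simpa [Measure.real] using this
  have h3 := measureReal_compl (μ := n2 ν₀ w n) (mE2 w n S)
  rw [h2] at h3
  simp only [probReal_univ] at h3
  linarith

lemma r3 (w n m : ℕ) (S : Finset (Fin n)) :
    (n3 ν₀ w n m).real (E3 w n m S) = (1 - (1 - p ^ w) ^ S.card) ^ m := by
  have h1 : E3 w n m S = Set.pi (Finset.univ : Finset (Fin m)) (fun _ => E2 w n S) := by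
    ext x; simp [E3]
  rw [h1, Measure.real, n3, Measure.infinitePi_pi (μ := fun _ => n2 ν₀ w n)
    (fun _ _ => mE2 w n S)]
  simp only [Finset.prod_const, Finset.card_univ, Fintype.card_fin, ENNReal.toReal_pow]
  rw [← r2 ν₀ p hp w n S]; rfl

end nested

/-! ### pull back along an injective indexing -/

section pull
variable {ι : Type*} (ν₀ : Measure Bool) [IsProbabilityMeasure ν₀]

/-- the number of good blocks. -/
noncomputable def fullSet {w n m : ℕ} (e : Fin n → Fin m → Fin n → Fin w → ι) (S : Finset (Fin n))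
    (ω : ι → Bool) : Finset (Fin n) := by
  classical
  exact Finset.univ.filter fun b => ∀ s, ∃ c ∈ S, ∀ s', ω (e b s c s') = true

lemma law_curry {w n m : ℕ} (e : Fin n → Fin m → Fin n → Fin w → ι)
    (he : ∀ b s c s' b₁ s₁ c₁ s₁', e b s c s' = e b₁ s₁ c₁ s₁' →
      b = b₁ ∧ s = s₁ ∧ c = c₁ ∧ s' = s₁') :
    (Measure.infinitePi (fun _ : ι => ν₀)).map (fun ω b s c s' => ω (e b s c s')) =
      Measure.infinitePi (fun _ : Fin n => n3 ν₀ w n m) := by
  have h1 := Measure.map_infinitePi_infinitePi_of_inj (P := fun _ : ι => ν₀)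
    (f := fun q : ((Fin n × Fin m) × Fin n) × Fin w => e q.1.1.1 q.1.1.2 q.1.2 q.2) (by
      rintro ⟨⟨⟨b, s⟩, c⟩, s'⟩ ⟨⟨⟨b₁, s₁⟩, c₁⟩, s₁'⟩ h
      obtain ⟨rfl, rfl, rfl, rfl⟩ := he _ _ _ _ _ _ _ _ h
      rfl)
  have h2 := Measure.infinitePi_map_curry
    (μ := fun (_ : (Fin n × Fin m) × Fin n) (_ : Fin w) => ν₀)
  have h3 := Measure.infinitePi_map_curry
    (μ := fun (_ : (Fin n × Fin m)) (_ : Fin n) => n1 ν₀ w)
  have h4 := Measure.infinitePi_map_curry
    (μ := fun (_ : Fin n) (_ : Fin m) => n2 ν₀ w n)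
  rw [← h4, ← h3, ← h2, ← h1]
  rw [Measure.map_map (by fun_prop) (by fun_prop), Measure.map_map (by fun_prop) (by fun_prop),
    Measure.map_map (by fun_prop) (by fun_prop)]
  rfl

lemma stage {w n m : ℕ} (p : ℝ) (hp : ν₀.real {true} = p)
    (e : Fin n → Fin m → Fin n → Fin w → ι)
    (he : ∀ b s c s' b₁ s₁ c₁ s₁', e b s c s' = e b₁ s₁ c₁ s₁' →
      b = b₁ ∧ s = s₁ ∧ c = c₁ ∧ s' = s₁') (S : Finset (Fin n)) (K : ℝ) (hK : 0 < K)
    (h : 2 * K ≤ n * (1 - (1 - p ^ w) ^ S.card) ^ m) :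
    (Measure.infinitePi (fun _ : ι => ν₀)).real {ω | ((fullSet e S ω).card : ℝ) < K} ≤ 2 / K := by
  classical
  have h1 := cheb (n3 ν₀ w n m) n (E3 w n m S) (mE3 w n m S) K hK (by rwa [r3 ν₀ p hp])
  rw [← law_curry ν₀ e he, Measure.real, Measure.map_apply (by fun_prop)] at h1
  · convert h1 using 2
    congr 1
    ext ω
    simp only [Set.mem_setOf_eq, Set.mem_preimage]
    have : ((fullSet e S ω).card : ℝ) =
        ∑ b, (E3 w n m S).indicator (fun _ => (1 : ℝ)) (fun s c s' => ω (e b s c s')) := by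
      rw [fullSet, Finset.card_filter]
      push_cast
      refine Finset.sum_congr rfl fun b _ => ?_
      simp only [Set.indicator, E3, E2, E1, Set.mem_setOf_eq]
    rw [this]
  · apply measurableSet_lt _ measurable_const
    refine Finset.measurable_sum _ fun b _ => ?_
    exact (measurable_const.indicator (mE3 w n m S)).comp (measurable_pi_apply b)

end pull

end Pool.Agent.R985.LG
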