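import Mathlib
import Pool.Agent.R985.LG1
open MeasureTheory ProbabilityTheory

namespace Pool.Agent.R985.LG

/-! ### independence of events depending on disjoint finite sets of coordinates -/

section indep
variable {ι : Type*} (ν₀ : Measure Bool) [IsProbabilityMeasure ν₀]

lemma indep_event {α : Type*} (D Q : Finset ι) (hDQ : Disjoint D Q)
    (F : (ι → Bool) → α) (hF : ∀ ω ω' : ι → Bool, (∀ i ∈ D, ω i = ω' i) → F ω = F ω')
    (B : Set (ι → Bool)) (hB : ∀ ω ω' : ι → Bool, (∀ i ∈ Q, ω i = ω' i) → (ω ∈ B ↔ ω' ∈ B))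
    (a : α) :
    MeasurableSet {ω | F ω = a} ∧ MeasurableSet B ∧
    (Measure.infinitePi (fun _ : ι => ν₀)).real ({ω | F ω = a} ∩ B) =
      (Measure.infinitePi (fun _ : ι => ν₀)).real {ω | F ω = a} *
        (Measure.infinitePi (fun _ : ι => ν₀)).real B := by
  classical
  have hind : iIndepFun (fun (i : ι) (ω : ι → Bool) => ω i)
      (Measure.infinitePi (fun _ : ι => ν₀)) :=
    iIndepFun_infinitePi (X := fun _ x => x) (fun _ => measurable_id)
  have h1 := hind.indepFun_finset D Q hDQ (fun i => measurable_pi_apply i)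
  let extD : (D → Bool) → (ι → Bool) := fun x i => if h : i ∈ D then x ⟨i, h⟩ else false
  let extQ : (Q → Bool) → (ι → Bool) := fun x i => if h : i ∈ Q then x ⟨i, h⟩ else false
  set A' : Set (D → Bool) := {x | F (extD x) = a}
  set B' : Set (Q → Bool) := {x | extQ x ∈ B}
  have hA' : MeasurableSet A' := (Set.toFinite _).measurableSet
  have hB' : MeasurableSet B' := (Set.toFinite _).measurableSet
  have eA : {ω : ι → Bool | F ω = a} = (fun (ω : ι → Bool) (i : D) => ω i) ⁻¹' A' := by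
    ext ω
    simp only [Set.mem_ofPred_eq, Set.mem_preimage, A']
    rw [hF ω (extD fun i => ω i)]
    intro i hi
    simp [extD, hi]
  have eB : B = (fun (ω : ι → Bool) (i : Q) => ω i) ⁻¹' B' := by
    ext ω
    simp only [Set.mem_ofPred_eq, Set.mem_preimage, B']
    refine hB ω _ ?_
    intro i hi
    simp [extQ, hi]
  have mA : Measurable (fun (ω : ι → Bool) (i : D) => ω i) := by fun_prop
  have mB : Measurable (fun (ω : ι → Bool) (i : Q) => ω i) := by fun_prop
  refine ⟨by rw [eA]; exact mA hA', by rw [eB]; exact mB hB', ?_⟩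
  have h2 := h1.measure_inter_preimage_eq_mul A' B' hA' hB'
  rw [← eA, ← eB] at h2
  rw [Measure.real, h2, ENNReal.toReal_mul]
  rfl

/-- one conditioning step. -/
lemma cond_step {α : Type*} [Fintype α] [DecidableEq α] (D Q : Finset ι) (hDQ : Disjoint D Q)
    (F : (ι → Bool) → α) (hF : ∀ ω ω' : ι → Bool, (∀ i ∈ D, ω i = ω' i) → F ω = F ω')
    (good : α → Prop) (B : α → Set (ι → Bool))
    (hB : ∀ a, ∀ ω ω' : ι → Bool, (∀ i ∈ Q, ω i = ω' i) → (ω ∈ B a ↔ ω' ∈ B a))
    (δ : ℝ) (hδ : ∀ a, good a → (Measure.infinitePi (fun _ : ι => ν₀)).real (B a) ≤ δ)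
    (hδ0 : 0 ≤ δ) :
    (Measure.infinitePi (fun _ : ι => ν₀)).real {ω | good (F ω) ∧ ω ∈ B (F ω)} ≤ δ := by
  classical
  set μ := Measure.infinitePi (fun _ : ι => ν₀)
  have hsub : {ω | good (F ω) ∧ ω ∈ B (F ω)} ⊆
      ⋃ a ∈ (Finset.univ.filter good : Finset α), ({ω | F ω = a} ∩ B a) := by
    rintro ω ⟨h1, h2⟩
    simp only [Set.mem_iUnion, Finset.mem_filter, Finset.mem_univ, true_and]
    exact ⟨F ω, h1, rfl, h2⟩
  have hsum : ∑ a : α, μ.real {ω | F ω = a} ≤ 1 := by
    have h1 : μ.real (⋃ a ∈ (Finset.univ : Finset α), {ω | F ω = a}) =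
        ∑ a : α, μ.real {ω | F ω = a} := by
      apply measureReal_biUnion_finset
      · intro a _ b _ hab
        refine Set.disjoint_left.mpr fun ω h1 h2 => hab ?_
        exact (h1 : F ω = a).symm.trans h2
      · intro a _
        exact (indep_event ν₀ D Q hDQ F hF (B a) (hB a) a).1
      · intro a _
        exact measure_ne_top _ _
    rw [← h1]
    exact measureReal_le_one
  calc μ.real {ω | good (F ω) ∧ ω ∈ B (F ω)}
      ≤ μ.real (⋃ a ∈ (Finset.univ.filter good : Finset α), ({ω | F ω = a} ∩ B a)) :=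
        measureReal_mono hsub (measure_ne_top _ _)
    _ ≤ ∑ a ∈ (Finset.univ.filter good : Finset α), μ.real ({ω | F ω = a} ∩ B a) :=
        measureReal_biUnion_finset_le _ _
    _ = ∑ a ∈ (Finset.univ.filter good : Finset α), μ.real {ω | F ω = a} * μ.real (B a) :=
        Finset.sum_congr rfl fun a _ => (indep_event ν₀ D Q hDQ F hF (B a) (hB a) a).2.2
    _ ≤ ∑ a ∈ (Finset.univ.filter good : Finset α), μ.real {ω | F ω = a} * δ := by
        refine Finset.sum_le_sum fun a ha => ?_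
        exact mul_le_mul_of_nonneg_left (hδ a (Finset.mem_filter.mp ha).2) measureReal_nonneg
    _ ≤ ∑ a : α, μ.real {ω | F ω = a} * δ :=
        Finset.sum_le_sum_of_subset_of_nonneg (Finset.filter_subset _ _)
          fun a _ _ => mul_nonneg measureReal_nonneg hδ0
    _ = (∑ a : α, μ.real {ω | F ω = a}) * δ := by rw [Finset.sum_mul]
    _ ≤ 1 * δ := mul_le_mul_of_nonneg_right hsum hδ0
    _ = δ := one_mul _

/-- probability that a finite set of sites is empty. -/
lemma empty_prob (p : ℝ) (hp : ν₀.real {true} = p) {β : Type*} (S : Finset β) (g : β → ι)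
    (hg : Set.InjOn g S) :
    (Measure.infinitePi (fun _ : ι => ν₀)).real {ω | ∀ c ∈ S, ω (g c) = false} =
      (1 - p) ^ S.card := by
  classical
  have h1 : {ω : ι → Bool | ∀ c ∈ S, ω (g c) = false} =
      Set.pi (S.image g : Finset ι) (fun _ => {false}) := by
    ext ω; simp
  have h0 : ν₀.real {false} = 1 - p := by
    have h2 := measureReal_compl (μ := ν₀) (s := {true}) (by measurability)
    have h3 : ({true} : Set Bool)ᶜ = {false} := by ext b; simp
    rw [h3, hp, probReal_univ] at h2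
    exact h2
  rw [h1, Measure.real, Measure.infinitePi_pi (μ := fun _ => ν₀) (fun _ _ => by measurability)]
  simp only [Finset.prod_const, ENNReal.toReal_pow]
  rw [Finset.card_image_of_injOn hg, ← h0]
  rfl

end indep

/-! ### geometry -/

section geom

/-- sites of stage `k`: `u` is the index of the line, `v` the position on the line. -/
def P (k : ℕ) (u v : ℤ) : ℤ × ℤ := if Even k then (v, u) else (u, v)

lemma P_succ (k : ℕ) (u v : ℤ) : P (k + 1) u v = P k v u := by
  unfold P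
  by_cases h : Even k
  · have : ¬ Even (k + 1) := by simpa [Nat.even_add_one] using h
    simp [h, this]
  · have : Even (k + 1) := by simpa [Nat.even_add_one] using h
    simp [h, this]

lemma P_inj (k : ℕ) (u v u' v' : ℤ) (h : P k u v = P k u' v') : u = u' ∧ v = v' := by
  unfold P at h
  split_ifs at h <;> simp_all

/-- the `s`-th line of the `b`-th block of stage `k`. -/
def U (r n k b s : ℕ) : ℤ := ((1 + k * (r * n) + r * b + s : ℕ) : ℤ)

lemma U_inj {r n k b s b' s' : ℕ} (hs : s < r) (hs' : s' < r) (h : U r n k b s = U r n k b' s') :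
    b = b' ∧ s = s' := by
  unfold U at h
  have h1 : r * b + s = r * b' + s' := by
    have : (1 + k * (r * n) + r * b + s : ℕ) = 1 + k * (r * n) + r * b' + s' := by exact_mod_cast h
    omega
  have hr : 0 < r := by omega
  have h2 : b = b' := by
    have e1 : (r * b + s) / r = b := by
      rw [Nat.mul_add_div hr, Nat.div_eq_of_lt hs, add_zero]
    have e2 : (r * b' + s') / r = b' := by
      rw [Nat.mul_add_div hr, Nat.div_eq_of_lt hs', add_zero]
    rw [← e1, h1, e2]
  subst h2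
  exact ⟨rfl, by omega⟩

/-- the group of a coordinate. -/
def grp (N : ℕ) (z : ℤ) : ℤ := (z - 1) / N

lemma grp_U {r n k b s : ℕ} (hb : b < n) (hs : s < r) : grp (r * n) (U r n k b s) = k := by
  unfold grp U
  have h1 : r * b + s < r * n := by
    calc r * b + s < r * b + r := by omega
      _ = r * (b + 1) := by ring
      _ ≤ r * n := Nat.mul_le_mul_left _ hb
  have h2 : ((1 + k * (r * n) + r * b + s : ℕ) : ℤ) - 1 = ((r * b + s : ℕ) : ℤ) + k * ((r * n : ℕ) : ℤ) := by
    push_cast; ring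
  have hpos : ((r * n : ℕ) : ℤ) ≠ 0 := by
    have : 0 < r * n := by omega
    exact_mod_cast this.ne'
  rw [h2, Int.add_mul_ediv_right _ _ hpos, Int.ediv_eq_zero_of_lt (by positivity) (by exact_mod_cast h1)]
  simp

lemma U_pos (r n k b s : ℕ) : 1 ≤ U r n k b s := by
  unfold U; push_cast; nlinarith [Nat.zero_le (k * (r * n)), Nat.zero_le (r * b), Nat.zero_le s]

lemma U_le {r n k b s I : ℕ} (hb : b < n) (hs : s < r) (hk : k ≤ I) :
    U r n k b s ≤ (((I + 1) * (r * n) : ℕ) : ℤ) := by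
  unfold U
  have h1 : r * b + s < r * n := by
    calc r * b + s < r * b + r := by omega
      _ = r * (b + 1) := by ring
      _ ≤ r * n := Nat.mul_le_mul_left _ hb
  have h2 : k * (r * n) ≤ I * (r * n) := Nat.mul_le_mul_right _ hk
  have h3 : (I + 1) * (r * n) = I * (r * n) + r * n := by ring
  have : 1 + k * (r * n) + r * b + s ≤ (I + 1) * (r * n) := by omega
  exact_mod_cast this

/-- sum of the groups of the coordinates. -/
def sg (N : ℕ) (x : ℤ × ℤ) : ℤ := grp N x.1 + grp N x.2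

lemma sg_P (N k : ℕ) (u v : ℤ) : sg N (P k u v) = grp N u + grp N v := by
  unfold sg P
  split_ifs
  · simp [add_comm]
  · simp

variable (r n : ℕ)

/-- sites examined at stage 0. -/
def e0 (b : Fin n) (s : Fin (r - 1)) (c : Fin n) (s' : Fin r) : ℤ × ℤ :=
  P 0 (U r n 0 b s) (U r n 0 c s')

/-- sites examined at stage `k + 1`. -/
def es (k : ℕ) (b : Fin n) (s : Fin (r - 1)) (c : Fin n) (_ : Fin 1) : ℤ × ℤ :=
  P (k + 1) (U r n (k + 1) b s) (U r n k c (r - 1))

lemma e0_inj (b : Fin n) (s : Fin (r - 1)) (c : Fin n) (s' : Fin r) (b₁ : Fin n)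
    (s₁ : Fin (r - 1)) (c₁ : Fin n) (s₁' : Fin r) (h : e0 r n b s c s' = e0 r n b₁ s₁ c₁ s₁') :
    b = b₁ ∧ s = s₁ ∧ c = c₁ ∧ s' = s₁' := by
  obtain ⟨h1, h2⟩ := P_inj _ _ _ _ _ h
  obtain ⟨h3, h4⟩ := U_inj (by omega) (by omega) h1
  obtain ⟨h5, h6⟩ := U_inj s'.2 s₁'.2 h2
  exact ⟨Fin.ext h3, Fin.ext h4, Fin.ext h5, Fin.ext h6⟩

lemma es_inj (hr : 0 < r) (k : ℕ) (b : Fin n) (s : Fin (r - 1)) (c : Fin n) (s' : Fin 1) (b₁ : Fin n)
    (s₁ : Fin (r - 1)) (c₁ : Fin n) (s₁' : Fin 1) (h : es r n k b s c s' = es r n k b₁ s₁ c₁ s₁') :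
    b = b₁ ∧ s = s₁ ∧ c = c₁ ∧ s' = s₁' := by
  obtain ⟨h1, h2⟩ := P_inj _ _ _ _ _ h
  obtain ⟨h3, h4⟩ := U_inj (by omega) (by omega) h1
  obtain ⟨h5, -⟩ := U_inj (by omega) (by omega) h2
  exact ⟨Fin.ext h3, Fin.ext h4, Fin.ext h5, Subsingleton.elim _ _⟩

/-- the random set of full blocks at stage `k`. -/
noncomputable def SS : ℕ → (ℤ × ℤ → Bool) → Finset (Fin n)
  | 0, ω => fullSet (e0 r n) Finset.univ ω
  | k + 1, ω => fullSet (es r n k) (SS k ω) ω

open Classical in
/-- the sites on which `SS k` depends. -/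
noncomputable def DD : ℕ → Finset (ℤ × ℤ)
  | 0 => Finset.univ.image fun q : Fin n × Fin (r - 1) × Fin n × Fin r => e0 r n q.1 q.2.1 q.2.2.1 q.2.2.2
  | k + 1 => DD k ∪ Finset.univ.image
      fun q : Fin n × Fin (r - 1) × Fin n × Fin 1 => es r n k q.1 q.2.1 q.2.2.1 q.2.2.2

open Classical in
noncomputable def QQ (k : ℕ) : Finset (ℤ × ℤ) := Finset.univ.image
      fun q : Fin n × Fin (r - 1) × Fin n × Fin 1 => es r n k q.1 q.2.1 q.2.2.1 q.2.2.2

lemma fullSet_congr {ι : Type*} {w n m : ℕ} (e : Fin n → Fin m → Fin n → Fin w → ι)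
    (S : Finset (Fin n)) (ω ω' : ι → Bool) (h : ∀ b s c s', ω (e b s c s') = ω' (e b s c s')) :
    fullSet e S ω = fullSet e S ω' := by
  unfold fullSet
  simp only [h]

lemma SS_congr (k : ℕ) : ∀ ω ω' : ℤ × ℤ → Bool, (∀ i ∈ DD r n k, ω i = ω' i) →
    SS r n k ω = SS r n k ω' := by
  induction k with
  | zero =>
    intro ω ω' h
    apply fullSet_congr
    intro b s c s'
    exact h _ (Finset.mem_image.mpr ⟨(b, s, c, s'), Finset.mem_univ _, rfl⟩)
  | succ k ih =>
    intro ω ω' h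
    have h1 := ih ω ω' (fun i hi => h i (by rw [DD]; exact Finset.mem_union_left _ hi))
    rw [SS, SS, h1]
    apply fullSet_congr
    intro b s c s'
    exact h _ (by
      rw [DD]
      exact Finset.mem_union_right _ (Finset.mem_image.mpr ⟨(b, s, c, s'), Finset.mem_univ _, rfl⟩))

lemma DD_sg (hr : 0 < r) (k : ℕ) : ∀ x ∈ DD r n k, sg (r * n) x ≤ 2 * (k : ℤ) ∧ 1 ≤ x.1 ∧ 1 ≤ x.2 := by
  induction k with
  | zero =>
    intro x hx
    obtain ⟨⟨b, s, c, s'⟩, -, rfl⟩ := Finset.mem_image.mp hx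
    refine ⟨?_, ?_, ?_⟩
    · simp only [e0]
      rw [sg_P, grp_U b.2 (by omega), grp_U c.2 s'.2]
      simp
    · simp only [e0, P]; simp [U_pos]
    · simp only [e0, P]; simp [U_pos]
  | succ k ih =>
    intro x hx
    rw [DD] at hx
    rcases Finset.mem_union.mp hx with hx | hx
    · obtain ⟨h1, h2, h3⟩ := ih x hx
      exact ⟨by push_cast; omega, h2, h3⟩
    · obtain ⟨⟨b, s, c, s'⟩, -, rfl⟩ := Finset.mem_image.mp hx
      refine ⟨?_, ?_, ?_⟩
      · simp only [es]
        rw [sg_P, grp_U b.2 (by omega), grp_U c.2 (by omega)]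
        push_cast; omega
      · simp only [es, P]; split_ifs <;> simp [U_pos]
      · simp only [es, P]; split_ifs <;> simp [U_pos]

lemma QQ_sg (hr : 0 < r) (k : ℕ) : ∀ x ∈ QQ r n k, sg (r * n) x = 2 * (k : ℤ) + 1 := by
  intro x hx
  obtain ⟨⟨b, s, c, s'⟩, -, rfl⟩ := Finset.mem_image.mp hx
  simp only [es]
  rw [sg_P, grp_U b.2 (by omega), grp_U c.2 (by omega)]
  push_cast; omega

lemma disj (hr : 0 < r) (k : ℕ) : Disjoint (DD r n k) (QQ r n k) := by
  rw [Finset.disjoint_left]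
  intro x h1 h2
  have := (DD_sg r n hr k x h1).1
  have := QQ_sg r n hr k x h2
  omega

end geom

/-! ### the probabilistic estimate -/

section prob
variable (ν₀ : Measure Bool) [IsProbabilityMeasure ν₀] (p : ℝ) (hp : ν₀.real {true} = p)
include hp

lemma chain (r n : ℕ) (hr : 0 < r) (K : ℕ → ℝ) (hK : ∀ k, 0 < K k) (I : ℕ)
    (h0 : 2 * K 0 ≤ n * (1 - (1 - p ^ r) ^ n) ^ (r - 1))
    (hs : ∀ k < I, ∀ j : ℕ, K k ≤ j → 2 * K (k + 1) ≤ n * (1 - (1 - p) ^ j) ^ (r - 1)) :
    ∀ k ≤ I, (Measure.infinitePi (fun _ : ℤ × ℤ => ν₀)).real {ω | ((SS r n k ω).card : ℝ) < K k} ≤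
      ∑ i ∈ Finset.range (k + 1), 2 / K i := by
  classical
  intro k
  induction k with
  | zero =>
    intro _
    have := stage ν₀ p hp (e0 r n) (e0_inj r n) Finset.univ (K 0) (hK 0) (by
      rw [Finset.card_univ, Fintype.card_fin]; exact h0)
    simpa [SS] using this
  | succ k ih =>
    intro hk
    set μ := Measure.infinitePi (fun _ : ℤ × ℤ => ν₀)
    have h1 := ih (by omega)
    have h2 := cond_step ν₀ (DD r n k) (QQ r n k) (disj r n hr k) (SS r n k) (SS_congr r n k)
      (fun S => K k ≤ (S.card : ℝ))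
      (fun S => {ω | ((fullSet (es r n k) S ω).card : ℝ) < K (k + 1)}) (by
        intro S ω ω' h
        simp only [Set.mem_ofPred_eq]
        rw [fullSet_congr (es r n k) S ω ω']
        intro b s c s'
        exact h _ (Finset.mem_image.mpr ⟨(b, s, c, s'), Finset.mem_univ _, rfl⟩))
      (2 / K (k + 1)) (by
        intro S hS
        exact stage ν₀ p hp (es r n k) (es_inj r n hr k) S (K (k + 1)) (hK _) (by
          have := hs k (by omega) S.card hS
          simpa using this))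
      (by have := hK (k + 1); positivity)
    have hsub : {ω | ((SS r n (k + 1) ω).card : ℝ) < K (k + 1)} ⊆
        {ω | ((SS r n k ω).card : ℝ) < K k} ∪
          {ω | K k ≤ ((SS r n k ω).card : ℝ) ∧
            ω ∈ {ω' | ((fullSet (es r n k) (SS r n k ω) ω').card : ℝ) < K (k + 1)}} := by
      intro ω hω
      by_cases h : ((SS r n k ω).card : ℝ) < K k
      · exact Or.inl h
      · exact Or.inr ⟨not_lt.mp h, hω⟩
    rw [Finset.sum_range_succ]
    calc μ.real {ω | ((SS r n (k + 1) ω).card : ℝ) < K (k + 1)}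
        ≤ _ := measureReal_mono hsub
      _ ≤ _ := measureReal_union_le _ _
      _ ≤ _ := add_le_add h1 h2

lemma final (r n : ℕ) (hr : 0 < r) (hp0 : 0 ≤ p) (hp1 : p ≤ 1) (K : ℕ → ℝ) (hK : ∀ k, 0 < K k) (I : ℕ)
    (h0 : 2 * K 0 ≤ n * (1 - (1 - p ^ r) ^ n) ^ (r - 1))
    (hs : ∀ k < I, ∀ j : ℕ, K k ≤ j → 2 * K (k + 1) ≤ n * (1 - (1 - p) ^ j) ^ (r - 1)) :
    (Measure.infinitePi (fun _ : ℤ × ℤ => ν₀)).real
      {ω | ¬ ∃ c ∈ SS r n I ω, ω (P (I + 1) 0 (U r n I c (r - 1))) = true} ≤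
      (∑ i ∈ Finset.range (I + 1), 2 / K i) + Real.exp (-(p * K I)) := by
  classical
  set μ := Measure.infinitePi (fun _ : ℤ × ℤ => ν₀)
  have h1 := chain ν₀ p hp r n hr K hK I h0 hs I le_rfl
  set Q : Finset (ℤ × ℤ) := Finset.univ.image fun c : Fin n => P (I + 1) 0 (U r n I c (r - 1))
    with hQ
  have hdisj : Disjoint (DD r n I) Q := by
    rw [Finset.disjoint_left]
    intro x hx hx'
    obtain ⟨c, -, rfl⟩ := Finset.mem_image.mp hx'
    obtain ⟨-, h2, h3⟩ := DD_sg r n hr I _ hx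
    unfold P at h2 h3
    split_ifs at h2 h3 <;> simp at h2 h3
  have h2 := cond_step ν₀ (DD r n I) Q hdisj (SS r n I) (SS_congr r n I)
    (fun S => K I ≤ (S.card : ℝ))
    (fun S => {ω | ∀ c ∈ S, ω (P (I + 1) 0 (U r n I c (r - 1))) = false}) (by
      intro S ω ω' h
      simp only [Set.mem_ofPred_eq]
      have h3 : ∀ c : Fin n, ω (P (I + 1) 0 (U r n I c (r - 1))) =
          ω' (P (I + 1) 0 (U r n I c (r - 1))) := fun c =>
        h _ (Finset.mem_image.mpr ⟨c, Finset.mem_univ _, rfl⟩)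
      simp only [h3])
    (Real.exp (-(p * K I))) (by
      intro S hS
      rw [empty_prob ν₀ p hp S (fun c : Fin n => P (I + 1) 0 (U r n I c (r - 1)))]
      · calc (1 - p) ^ S.card ≤ (Real.exp (-p)) ^ S.card :=
            pow_le_pow_left₀ (by linarith) (by linarith [Real.add_one_le_exp (-p)]) _
          _ = Real.exp (-(p * S.card)) := by rw [← Real.exp_nat_mul]; ring_nf
          _ ≤ Real.exp (-(p * K I)) := by
            apply Real.exp_le_exp.mpr
            nlinarith
      · intro c _ c' _ h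
        obtain ⟨-, h4⟩ := P_inj _ _ _ _ _ h
        exact Fin.ext (U_inj (by omega) (by omega) h4).1)
    (Real.exp_pos _).le
  have hsub : {ω | ¬ ∃ c ∈ SS r n I ω, ω (P (I + 1) 0 (U r n I c (r - 1))) = true} ⊆
      {ω | ((SS r n I ω).card : ℝ) < K I} ∪
        {ω | K I ≤ ((SS r n I ω).card : ℝ) ∧
          ω ∈ {ω' | ∀ c ∈ SS r n I ω, ω' (P (I + 1) 0 (U r n I c (r - 1))) = false}} := by
    intro ω hω
    by_cases h : ((SS r n I ω).card : ℝ) < K I
    · exact Or.inl h
    · refine Or.inr ⟨not_lt.mp h, ?_⟩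
      intro c hc
      by_contra hcon
      exact hω ⟨c, hc, by simpa using hcon⟩
  calc μ.real _ ≤ _ := measureReal_mono hsub
      _ ≤ _ := measureReal_union_le _ _
      _ ≤ _ := add_le_add h1 h2

end prob

end Pool.Agent.R985.LG
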