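import Mathlib
set_option autoImplicit false

/-!
Definitions for MP_2724f6_pr (minimal L² norm of homogeneous polynomials under
hyperoctahedrally invariant isotropic log-concave measures) and for the counterexample at `d = 4`.
-/

open MeasureTheory ProbabilityTheory Set

namespace R985.ML

/-- `coeff_d(f) = (∑_I α_I²)^{1/2}`, the Euclidean norm of the coefficient vector. -/
noncomputable def coeffNorm {n : ℕ} (f : MvPolynomial (Fin n) ℝ) : ℝ :=
  Real.sqrt (∑ I ∈ f.support, (f.coeff I) ^ 2)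

/-- the uniform probability measure on `[-√3, √3]` -/
noncomputable def cube1 : Measure ℝ :=
  (ENNReal.ofReal (2 * √3))⁻¹ • volume.restrict (Icc (-√3) (√3))

/-- `μ_cube`, the uniform probability measure on `[-√3, √3]^n` (the product of the
one-dimensional uniform probability measures) -/
noncomputable def cubeMeasure (n : ℕ) : Measure (Fin n → ℝ) := Measure.pi (fun _ => cube1)

/-- `m_d(n)`: the infimum of `∫ g² dμ_cube` over degree-`d` homogeneous `g` with `coeff_d(g) = 1` -/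
noncomputable def mInf (d n : ℕ) : ℝ :=
  sInf {r : ℝ | ∃ g : MvPolynomial (Fin n) ℝ, g.IsHomogeneous d ∧ coeffNorm g = 1 ∧
    r = ∫ x, (MvPolynomial.eval x g) ^ 2 ∂(cubeMeasure n)}

/-- `μ` is log-concave: it has a density `e^{-φ}` with respect to Lebesgue measure, `φ` convex
with values in `(-∞, ∞]`; here `φ` is real and convex on the convex set `C` and `∞` off `C`. -/
def IsLogConcave {n : ℕ} (μ : Measure (Fin n → ℝ)) : Prop :=
  ∃ (C : Set (Fin n → ℝ)) (φ : (Fin n → ℝ) → ℝ), MeasurableSet C ∧ Measurable φ ∧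
    ConvexOn ℝ C φ ∧
    μ = (volume : Measure (Fin n → ℝ)).withDensity
      (C.indicator fun x => ENNReal.ofReal (Real.exp (-φ x)))

/-- `μ` is isotropic: `∫ x dμ = 0` and `∫ x_i x_j dμ = δ_ij`. -/
def IsIsotropic {n : ℕ} (μ : Measure (Fin n → ℝ)) : Prop :=
  (∀ i, ∫ x, x i ∂μ = 0) ∧ ∀ i j, ∫ x, x i * x j ∂μ = if i = j then 1 else 0

/-- the signed coordinate permutation `x ↦ (ε_1 x_{π(1)}, …, ε_n x_{π(n)})` -/
def signedPerm {n : ℕ} (ε : Fin n → ℤˣ) (π : Equiv.Perm (Fin n)) (x : Fin n → ℝ) : Fin n → ℝ :=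
  fun i => (((ε i : ℤˣ) : ℤ) : ℝ) * x (π i)

/-- `μ` is invariant under the hyperoctahedral group `H_n` -/
def IsHnInvariant {n : ℕ} (μ : Measure (Fin n → ℝ)) : Prop :=
  ∀ (ε : Fin n → ℤˣ) (π : Equiv.Perm (Fin n)), μ.map (signedPerm ε π) = μ

/-- Q1 of MP_2724f6_pr -/
def Q1 : Prop :=
  ∀ d : ℕ, ∃ K : ℝ, ∀ n : ℕ, 1 ≤ n → ∀ μ : Measure (Fin n → ℝ), IsProbabilityMeasure μ →
    IsLogConcave μ → IsIsotropic μ → IsHnInvariant μ →
    ∀ f : MvPolynomial (Fin n) ℝ, f.IsHomogeneous d → coeffNorm f = 1 →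
      mInf d n - K / n ≤ ∫ x, (MvPolynomial.eval x f) ^ 2 ∂μ

/-! ### The counterexample -/

/-- one-dimensional base measure: density `(4 - |x|)/7` on `[-1, 1]` -/
noncomputable def nu : Measure ℝ :=
  (volume : Measure ℝ).withDensity
    ((Icc (-1 : ℝ) 1).indicator fun x => ENNReal.ofReal ((4 - |x|) / 7))

/-- the product of `n` copies of `nu` -/
noncomputable def P (n : ℕ) : Measure (Fin n → ℝ) := Measure.pi (fun _ => nu)

/-- `S = (∑ |x_i| - n * 10/21)/√n` -/
noncomputable def S (n : ℕ) (x : Fin n → ℝ) : ℝ := (∑ i, (|x i| - 10 / 21)) / √n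

/-- weight: `exp(-500 S² + 500 (min (S+θ) 0)²)` with `θ = √n/4000` -/
noncomputable def Wt (n : ℕ) (x : Fin n → ℝ) : ℝ :=
  Real.exp (-500 * (S n x) ^ 2 + 500 * (min (S n x + √n / 4000) 0) ^ 2)

/-- `Z_n = ∫ W dP` -/
noncomputable def Zn (n : ℕ) : ℝ := ∫ x, Wt n x ∂(P n)

/-- `A_n = E_μ (∑ x_i²)/n` -/
noncomputable def An (n : ℕ) : ℝ := (∫ x, (∑ i, (x i) ^ 2) / n * Wt n x ∂(P n)) / Zn n

end R985.ML
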