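import Mathlib
import Pool.Agent.R985.MLDefs
set_option autoImplicit false

/-!
ML-A: the Legendre lower bound `mInf 4 n ≥ 9/20` on the cube (piece for helper985's MP_2724f6_pr).
-/

open MeasureTheory ProbabilityTheory Set

namespace R985.ML

namespace A

lemma integrable_of_continuous {f : ℝ → ℝ} (hf : Continuous f) : Integrable f cube1 := by
  unfold cube1
  refine Integrable.smul_measure ?_ ?_
  · exact (hf.continuousOn.integrableOn_Icc)
  · have h3 : (0 : ℝ) < 2 * √3 := by positivity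
    simp [ENNReal.inv_eq_top]

lemma isProb : IsProbabilityMeasure cube1 := by
  constructor
  unfold cube1
  have h3 : (0 : ℝ) < 2 * √3 := by positivity
  rw [Measure.smul_apply, Measure.restrict_apply MeasurableSet.univ, Set.univ_inter,
    Real.volume_Icc, smul_eq_mul]
  rw [show √3 - -√3 = 2 * √3 by ring]
  exact ENNReal.inv_mul_cancel (by simpa using h3) ENNReal.ofReal_ne_top

instance : IsProbabilityMeasure cube1 := isProb

lemma mom (k : ℕ) : ∫ x, x ^ k ∂cube1 = if Even k then (3 : ℝ) ^ (k / 2) / (k + 1) else 0 := by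
  unfold cube1
  have h3 : (0 : ℝ) < √3 := by positivity
  have hs : √3 ^ 2 = (3 : ℝ) := Real.sq_sqrt (by norm_num)
  rw [integral_smul_measure, integral_Icc_eq_integral_Ioc,
    ← intervalIntegral.integral_of_le (by linarith), integral_pow]
  rw [ENNReal.toReal_inv, ENNReal.toReal_ofReal (by positivity)]
  have hk : ((k : ℝ) + 1) ≠ 0 := by positivity
  split_ifs with he
  · obtain ⟨j, rfl⟩ := he
    have h1 : √3 ^ (j + j + 1) = 3 ^ j * √3 := by
      rw [pow_succ, ← two_mul, pow_mul, hs]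
    have h2 : (-√3) ^ (j + j + 1) = -(3 ^ j * √3) := by
      rw [Odd.neg_pow ⟨j, by ring⟩, h1]
    rw [h1, h2, show (j + j) / 2 = j by omega]
    rw [smul_eq_mul]
    field_simp
    ring
  · rw [Nat.not_even_iff_odd] at he
    have h2 : (-√3) ^ (k + 1) = √3 ^ (k + 1) := Even.neg_pow (by
      obtain ⟨j, rfl⟩ := he
      exact ⟨j + 1, by ring⟩) _
    rw [h2]
    simp

/-- coefficients of the monic Legendre polynomials of degrees `0..4` for the interval `[-√3, √3]` -/
noncomputable def C : ℕ → ℕ → ℝ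
  | 0, 0 => 1
  | 1, 1 => 1
  | 2, 2 => 1
  | 2, 0 => -1
  | 3, 3 => 1
  | 3, 1 => -(9 / 5)
  | 4, 4 => 1
  | 4, 2 => -(18 / 7)
  | 4, 0 => 27 / 35
  | _, _ => 0

noncomputable def pp (b : ℕ) (x : ℝ) : ℝ := ∑ k ∈ Finset.range 5, C b k * x ^ k

noncomputable def q : ℕ → ℝ
  | 0 => 1
  | 1 => 1
  | 2 => 4 / 5
  | 3 => 108 / 175
  | _ => 576 / 1225

lemma pp_cont (b : ℕ) : Continuous (pp b) := by
  unfold pp
  fun_prop

lemma int_pow_pp (a b : ℕ) : ∫ x, x ^ a * pp b x ∂cube1 =
    ∑ k ∈ Finset.range 5, C b k * ∫ x, x ^ (a + k) ∂cube1 := by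
  have h : (fun x : ℝ => x ^ a * pp b x) =
      fun x => ∑ k ∈ Finset.range 5, C b k * x ^ (a + k) := by
    funext x
    unfold pp
    rw [Finset.mul_sum]
    refine Finset.sum_congr rfl fun k _ => ?_
    ring
  rw [h, integral_finsetSum]
  · refine Finset.sum_congr rfl fun k _ => ?_
    rw [integral_const_mul]
  · intro k _
    exact integrable_of_continuous (by fun_prop)

lemma int_pp_pp (a b : ℕ) : ∫ x, pp a x * pp b x ∂cube1 =
    ∑ j ∈ Finset.range 5, C a j * ∫ x, x ^ j * pp b x ∂cube1 := by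
  have h : (fun x : ℝ => pp a x * pp b x) =
      fun x => ∑ j ∈ Finset.range 5, C a j * (x ^ j * pp b x) := by
    funext x
    rw [show pp a x = ∑ j ∈ Finset.range 5, C a j * x ^ j from rfl, Finset.sum_mul]
    refine Finset.sum_congr rfl fun k _ => ?_
    ring
  rw [h, integral_finsetSum]
  · refine Finset.sum_congr rfl fun k _ => ?_
    rw [integral_const_mul]
  · intro k _
    exact integrable_of_continuous (((continuous_pow k).mul (pp_cont b)).const_mul _)

lemma lt_zero : ∀ a b : ℕ, a < b → b ≤ 4 → ∫ x, x ^ a * pp b x ∂cube1 = 0 := by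
  intro a b hab hb
  rw [int_pow_pp]
  simp only [mom, Finset.sum_range_succ, Finset.sum_range_zero]
  interval_cases b <;> interval_cases a <;> simp [C, Nat.even_iff] <;> norm_num

lemma diag : ∀ a : ℕ, a ≤ 4 → ∫ x, x ^ a * pp a x ∂cube1 = q a := by
  intro a ha
  rw [int_pow_pp]
  simp only [mom, Finset.sum_range_succ, Finset.sum_range_zero]
  interval_cases a <;> simp [C, q, Nat.even_iff] <;> norm_num

lemma C_gt : ∀ a j : ℕ, a < j → C a j = 0 := by
  intro a j h
  rcases a with _ | _ | _ | _ | _ | a <;> rcases j with _ | _ | _ | _ | _ | j <;>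
    first | omega | simp [C]

lemma C_diag : ∀ a : ℕ, a ≤ 4 → C a a = 1 := by
  intro a ha
  interval_cases a <;> simp [C]

lemma pp_pp_lt (a b : ℕ) (hab : a < b) (hb : b ≤ 4) : ∫ x, pp a x * pp b x ∂cube1 = 0 := by
  rw [int_pp_pp]
  refine Finset.sum_eq_zero fun j _ => ?_
  by_cases hj : a < j
  · rw [C_gt a j hj, zero_mul]
  · rw [lt_zero j b (by omega) hb, mul_zero]

lemma pp_pp_ne (a b : ℕ) (hab : a ≠ b) (ha : a ≤ 4) (hb : b ≤ 4) :
    ∫ x, pp a x * pp b x ∂cube1 = 0 := by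
  rcases lt_or_gt_of_ne hab with h | h
  · exact pp_pp_lt a b h hb
  · rw [← pp_pp_lt b a h ha]
    congr 1
    funext x
    ring

lemma pp_pp_diag (a : ℕ) (ha : a ≤ 4) : ∫ x, pp a x * pp a x ∂cube1 = q a := by
  rw [int_pp_pp, Finset.sum_eq_single a]
  · rw [C_diag a ha, one_mul, diag a ha]
  · intro j _ hj
    rcases lt_or_gt_of_ne hj with h | h
    · rw [lt_zero j a h ha, mul_zero]
    · rw [C_gt a j h, zero_mul]
  · intro h
    exact absurd (Finset.mem_range.2 (by omega)) h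

lemma q_ge : ∀ a : ℕ, a ≤ 4 → (41 / 50 : ℝ) ^ a ≤ q a := by
  intro a ha
  interval_cases a <;> simp only [q] <;> norm_num

/-- bilinear expansion of integrals of products of sums of product functions -/
lemma bil {ι : Type*} {n : ℕ} (S : Finset ι) (a b : ι → ℝ) (u v : ι → Fin n → ℝ → ℝ)
    (hint : ∀ I J i, Integrable (fun t => u I i t * v J i t) cube1) :
    Integrable (fun x : Fin n → ℝ => (∑ I ∈ S, a I * ∏ i, u I i (x i)) *
      (∑ J ∈ S, b J * ∏ i, v J i (x i))) (cubeMeasure n) ∧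
    ∫ x : Fin n → ℝ, (∑ I ∈ S, a I * ∏ i, u I i (x i)) *
      (∑ J ∈ S, b J * ∏ i, v J i (x i)) ∂(cubeMeasure n) =
      ∑ I ∈ S, ∑ J ∈ S, a I * b J * ∏ i, ∫ t, u I i t * v J i t ∂cube1 := by
  have h : (fun x : Fin n → ℝ => (∑ I ∈ S, a I * ∏ i, u I i (x i)) *
      (∑ J ∈ S, b J * ∏ i, v J i (x i))) =
      fun x => ∑ I ∈ S, ∑ J ∈ S, (a I * b J) * ∏ i, (u I i (x i) * v J i (x i)) := by
    funext x
    rw [Finset.sum_mul_sum]
    refine Finset.sum_congr rfl fun I _ => Finset.sum_congr rfl fun J _ => ?_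
    rw [Finset.prod_mul_distrib]
    ring
  have hi : ∀ I J, Integrable (fun x : Fin n → ℝ => (a I * b J) *
      ∏ i, (u I i (x i) * v J i (x i))) (cubeMeasure n) := by
    intro I J
    refine Integrable.const_mul ?_ _
    exact Integrable.fintype_prod (f := fun i t => u I i t * v J i t) (fun i => hint I J i)
  rw [h]
  refine ⟨integrable_finsetSum _ fun I _ => integrable_finsetSum _ fun J _ => hi I J, ?_⟩
  rw [integral_finsetSum _ fun I _ => integrable_finsetSum _ fun J _ => hi I J]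
  refine Finset.sum_congr rfl fun I _ => ?_
  rw [integral_finsetSum _ fun J _ => hi I J]
  refine Finset.sum_congr rfl fun J _ => ?_
  rw [integral_const_mul]
  congr 1
  exact integral_fintype_prod_eq_prod (f := fun i t => u I i t * v J i t)

lemma deg_eq {n : ℕ} {g : MvPolynomial (Fin n) ℝ} (hg : g.IsHomogeneous 4) {I : Fin n →₀ ℕ}
    (hI : I ∈ g.support) : ∑ i, I i = 4 := by
  have := hg (MvPolynomial.mem_support_iff.1 hI)
  rw [Finsupp.weight_apply, Finsupp.sum_fintype _ _ (by simp)] at this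
  simpa using this

lemma main_ge {n : ℕ} (g : MvPolynomial (Fin n) ℝ) (hg : g.IsHomogeneous 4)
    (hc : coeffNorm g = 1) : (9 / 20 : ℝ) ≤ ∫ x, (MvPolynomial.eval x g) ^ 2 ∂(cubeMeasure n) := by
  classical
  set S := g.support with hS
  set a : (Fin n →₀ ℕ) → ℝ := fun I => g.coeff I with ha
  have hdeg : ∀ I ∈ S, ∑ i, I i = 4 := fun I hI => deg_eq hg hI
  have hle : ∀ I ∈ S, ∀ i, I i ≤ 4 := by
    intro I hI i
    rw [← hdeg I hI]
    exact Finset.single_le_sum (f := fun i => I i) (fun _ _ => Nat.zero_le _) (Finset.mem_univ i)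
  set u : (Fin n →₀ ℕ) → Fin n → ℝ → ℝ := fun I i t => t ^ I i with hu
  set v : (Fin n →₀ ℕ) → Fin n → ℝ → ℝ := fun I i t => pp (I i) t with hv
  have huc : ∀ I i, Continuous (u I i) := fun I i => continuous_pow _
  have hvc : ∀ I i, Continuous (v I i) := fun I i => pp_cont _
  obtain ⟨i1, e1⟩ := bil S a a u u
    (fun I J i => integrable_of_continuous ((huc I i).mul (huc J i)))
  obtain ⟨i2, e2⟩ := bil S a a u v
    (fun I J i => integrable_of_continuous ((huc I i).mul (hvc J i)))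
  obtain ⟨i3, e3⟩ := bil S a a v v
    (fun I J i => integrable_of_continuous ((hvc I i).mul (hvc J i)))
  have hgx : ∀ x : Fin n → ℝ, MvPolynomial.eval x g = ∑ I ∈ S, a I * ∏ i, u I i (x i) := by
    intro x
    rw [MvPolynomial.eval_eq']
  have hexlt : ∀ I ∈ S, ∀ J ∈ S, I ≠ J → ∃ i, I i < J i := by
    intro I hI J hJ hne
    by_contra hcon
    push Not at hcon
    apply hne
    have hsum : ∑ i, J i = ∑ i, I i := by rw [hdeg I hI, hdeg J hJ]
    have := (Finset.sum_eq_sum_iff_of_le (s := Finset.univ) (f := fun i => J i)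
      (g := fun i => I i) (fun i _ => hcon i)).1 hsum
    ext i
    exact (this i (Finset.mem_univ i)).symm
  have e2' : ∑ I ∈ S, ∑ J ∈ S, a I * a J * ∏ i, ∫ t, u I i t * v J i t ∂cube1 =
      ∑ I ∈ S, a I ^ 2 * ∏ i, q (I i) := by
    refine Finset.sum_congr rfl fun I hI => ?_
    rw [Finset.sum_eq_single I]
    · rw [← pow_two]
      congr 1
      exact Finset.prod_congr rfl fun i _ => diag (I i) (hle I hI i)
    · intro J hJ hne
      obtain ⟨i, hi⟩ := hexlt I hI J hJ (Ne.symm hne)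
      rw [Finset.prod_eq_zero (Finset.mem_univ i), mul_zero]
      exact lt_zero (I i) (J i) hi (hle J hJ i)
    · intro h
      exact absurd hI h
  have e3' : ∑ I ∈ S, ∑ J ∈ S, a I * a J * ∏ i, ∫ t, v I i t * v J i t ∂cube1 =
      ∑ I ∈ S, a I ^ 2 * ∏ i, q (I i) := by
    refine Finset.sum_congr rfl fun I hI => ?_
    rw [Finset.sum_eq_single I]
    · rw [← pow_two]
      congr 1
      exact Finset.prod_congr rfl fun i _ => pp_pp_diag (I i) (hle I hI i)
    · intro J hJ hne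
      obtain ⟨i, hi⟩ := hexlt I hI J hJ (Ne.symm hne)
      rw [Finset.prod_eq_zero (Finset.mem_univ i), mul_zero]
      exact pp_pp_ne (I i) (J i) hi.ne (hle I hI i) (hle J hJ i)
    · intro h
      exact absurd hI h
  have hsum1 : ∑ I ∈ S, a I ^ 2 = 1 := by
    have : Real.sqrt (∑ I ∈ S, a I ^ 2) = 1 := hc
    rwa [Real.sqrt_eq_one] at this
  have hq : (9 / 20 : ℝ) ≤ ∑ I ∈ S, a I ^ 2 * ∏ i, q (I i) := by
    calc (9 / 20 : ℝ) = ∑ I ∈ S, a I ^ 2 * (9 / 20) := by
          rw [← Finset.sum_mul, hsum1, one_mul]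
      _ ≤ ∑ I ∈ S, a I ^ 2 * ∏ i, q (I i) := by
          refine Finset.sum_le_sum fun I hI => mul_le_mul_of_nonneg_left ?_ (sq_nonneg _)
          calc (9 / 20 : ℝ) ≤ (41 / 50) ^ 4 := by norm_num
            _ = ∏ i, (41 / 50 : ℝ) ^ (I i) := by
                rw [Finset.prod_pow_eq_pow_sum, hdeg I hI]
            _ ≤ ∏ i, q (I i) := by
                refine Finset.prod_le_prod (fun i _ => by positivity) fun i _ => ?_
                exact q_ge (I i) (hle I hI i)
  -- the square completion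
  have key : 0 ≤ ∫ x, ((∑ I ∈ S, a I * ∏ i, u I i (x i)) -
      (∑ J ∈ S, a J * ∏ i, v J i (x i))) ^ 2 ∂(cubeMeasure n) :=
    integral_nonneg fun x => sq_nonneg _
  have hexp : ∫ x, ((∑ I ∈ S, a I * ∏ i, u I i (x i)) -
      (∑ J ∈ S, a J * ∏ i, v J i (x i))) ^ 2 ∂(cubeMeasure n) =
      ∫ x, (∑ I ∈ S, a I * ∏ i, u I i (x i)) * (∑ I ∈ S, a I * ∏ i, u I i (x i))
        ∂(cubeMeasure n) -
      2 * (∫ x, (∑ I ∈ S, a I * ∏ i, u I i (x i)) * (∑ I ∈ S, a I * ∏ i, v I i (x i))
        ∂(cubeMeasure n)) +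
      ∫ x, (∑ I ∈ S, a I * ∏ i, v I i (x i)) * (∑ I ∈ S, a I * ∏ i, v I i (x i))
        ∂(cubeMeasure n) := by
    have h12 := integral_sub i1 (i2.const_mul 2)
    have h123 := integral_add (i1.sub (i2.const_mul 2)) i3
    rw [integral_const_mul] at h12
    rw [← h12]
    refine Eq.trans ?_ h123
    congr 1
    funext x
    simp only [Pi.sub_apply]
    ring
  rw [hexp, e2, e2', e3, e3'] at key
  have hfin : ∫ x, (MvPolynomial.eval x g) ^ 2 ∂(cubeMeasure n) =
      ∫ x, (∑ I ∈ S, a I * ∏ i, u I i (x i)) * (∑ I ∈ S, a I * ∏ i, u I i (x i))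
        ∂(cubeMeasure n) := by
    congr 1
    funext x
    rw [hgx x, pow_two]
  rw [hfin]
  linarith

end A

/-- ML-A: `mInf 4 n ≥ 9/20`. -/
theorem mInf_four_ge (n : ℕ) (hn : 1 ≤ n) : (9 : ℝ) / 20 ≤ mInf 4 n := by
  unfold mInf
  refine le_csInf ?_ ?_
  · refine ⟨_, (MvPolynomial.X (⟨0, hn⟩ : Fin n)) ^ 4, ?_, ?_, rfl⟩
    · exact MvPolynomial.isHomogeneous_X_pow _ _
    · unfold coeffNorm
      rw [MvPolynomial.X_pow_eq_monomial]
      classical
      rw [MvPolynomial.support_monomial]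
      simp
  · rintro r ⟨g, hg, hc, rfl⟩
    exact A.main_ge g hg hc

end R985.ML
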