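import Pool.Agent.R985.MLDefs

set_option autoImplicit false

open MeasureTheory ProbabilityTheory Set
open scoped ENNReal

namespace R985.ML
namespace MLB

/-- the one-dimensional real density -/
noncomputable def gR (x : ℝ) : ℝ := (Icc (-1 : ℝ) 1).indicator (fun x => (4 - |x|) / 7) x

lemma gR_of_mem {x : ℝ} (hx : x ∈ Icc (-1 : ℝ) 1) : gR x = (4 - |x|) / 7 := by
  unfold gR
  rw [indicator_of_mem hx]

lemma gR_of_not_mem {x : ℝ} (hx : x ∉ Icc (-1 : ℝ) 1) : gR x = 0 := by
  unfold gR
  rw [indicator_of_notMem hx]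

lemma gR_nonneg (x : ℝ) : 0 ≤ gR x := by
  by_cases hx : x ∈ Icc (-1 : ℝ) 1
  · rw [gR_of_mem hx]
    have : |x| ≤ 1 := abs_le.2 hx
    have : 0 ≤ 4 - |x| := by linarith
    positivity
  · rw [gR_of_not_mem hx]

lemma gR_meas : Measurable gR := by
  unfold gR
  apply Measurable.indicator
  · fun_prop
  · exact measurableSet_Icc

lemma gR_even (x : ℝ) : gR (-x) = gR x := by
  by_cases hx : x ∈ Icc (-1 : ℝ) 1
  · have hx' : -x ∈ Icc (-1 : ℝ) 1 := ⟨by linarith [hx.2], by linarith [hx.1]⟩
    rw [gR_of_mem hx, gR_of_mem hx', abs_neg]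
  · have hx' : -x ∉ Icc (-1 : ℝ) 1 := by
      intro h
      exact hx ⟨by linarith [h.2], by linarith [h.1]⟩
    rw [gR_of_not_mem hx, gR_of_not_mem hx']

lemma gR_int : Integrable gR volume := by
  unfold gR
  rw [integrable_indicator_iff measurableSet_Icc]
  apply Continuous.integrableOn_Icc
  fun_prop

lemma gR_integral : ∫ x, gR x = 1 := by
  unfold gR
  rw [integral_indicator measurableSet_Icc, integral_Icc_eq_integral_Ioc,
    ← intervalIntegral.integral_of_le (by norm_num)]
  rw [← intervalIntegral.integral_add_adjacent_intervals (b := 0)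
    (by apply Continuous.intervalIntegrable; fun_prop)
    (by apply Continuous.intervalIntegrable; fun_prop)]
  have h1 : ∫ x in (-1 : ℝ)..0, (4 - |x|) / 7 = ∫ x in (-1 : ℝ)..0, (4 / 7 + x * (1 / 7)) := by
    apply intervalIntegral.integral_congr
    intro x hx
    rw [uIcc_of_le (by norm_num)] at hx
    simp only
    rw [abs_of_nonpos hx.2]
    ring
  have h2 : ∫ x in (0 : ℝ)..1, (4 - |x|) / 7 = ∫ x in (0 : ℝ)..1, (4 / 7 - x * (1 / 7)) := by
    apply intervalIntegral.integral_congr
    intro x hx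
    rw [uIcc_of_le (by norm_num)] at hx
    simp only
    rw [abs_of_nonneg hx.1]
    ring
  rw [h1, h2]
  rw [intervalIntegral.integral_add (by apply Continuous.intervalIntegrable; fun_prop)
    (by apply Continuous.intervalIntegrable; fun_prop),
    intervalIntegral.integral_sub (by apply Continuous.intervalIntegrable; fun_prop)
    (by apply Continuous.intervalIntegrable; fun_prop)]
  simp only [intervalIntegral.integral_mul_const, integral_id, intervalIntegral.integral_const]
  norm_num

lemma nu_eq : nu = (volume : Measure ℝ).withDensity (fun x => ENNReal.ofReal (gR x)) := by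
  unfold nu
  congr 1
  ext x
  by_cases hx : x ∈ Icc (-1 : ℝ) 1
  · rw [indicator_of_mem hx, gR_of_mem hx]
  · rw [indicator_of_notMem hx, gR_of_not_mem hx]
    simp

instance nu_prob : IsProbabilityMeasure nu := by
  constructor
  rw [nu_eq, withDensity_apply _ MeasurableSet.univ, Measure.restrict_univ,
    ← ofReal_integral_eq_lintegral_ofReal gR_int (Filter.Eventually.of_forall gR_nonneg),
    gR_integral]
  simp

instance P_prob (n : ℕ) : IsProbabilityMeasure (P n) := by
  unfold P
  infer_instance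

lemma P_eq (n : ℕ) : P n = (volume : Measure (Fin n → ℝ)).withDensity
    (fun x => ENNReal.ofReal (∏ i, gR (x i))) := by
  unfold P
  apply Measure.pi_eq
  intro s hs
  rw [withDensity_apply _ (MeasurableSet.univ_pi hs)]
  rw [← lintegral_indicator (MeasurableSet.univ_pi hs)]
  have e1 : ∀ x : Fin n → ℝ, (univ.pi s).indicator
      (fun x => ENNReal.ofReal (∏ i, gR (x i))) x =
      ENNReal.ofReal (∏ i, (s i).indicator gR (x i)) := by
    intro x
    by_cases hx : x ∈ univ.pi s
    · rw [indicator_of_mem hx]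
      congr 1
      apply Finset.prod_congr rfl
      intro i _
      rw [indicator_of_mem (hx i (mem_univ i))]
    · rw [indicator_of_notMem hx]
      simp only [mem_pi, mem_univ, true_implies, not_forall] at hx
      obtain ⟨i, hi⟩ := hx
      rw [Finset.prod_eq_zero (Finset.mem_univ i)]
      · simp
      · rw [indicator_of_notMem hi]
  have e2 : ∀ i, Integrable ((s i).indicator gR) volume := fun i => gR_int.indicator (hs i)
  have e3 : ∀ i x, 0 ≤ (s i).indicator gR x := fun i x =>
    indicator_nonneg (fun y _ => gR_nonneg y) x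
  simp_rw [e1]
  rw [← ofReal_integral_eq_lintegral_ofReal]
  · rw [integral_fintype_prod_volume_eq_prod (fun i => (s i).indicator gR)]
    rw [ENNReal.ofReal_prod_of_nonneg (fun i _ => integral_nonneg (e3 i))]
    apply Finset.prod_congr rfl
    intro i _
    rw [nu_eq, withDensity_apply _ (hs i),
      ofReal_integral_eq_lintegral_ofReal (e2 i) (Filter.Eventually.of_forall (e3 i)),
      ← lintegral_indicator (hs i)]
    apply lintegral_congr
    intro x
    by_cases hx : x ∈ s i
    · rw [indicator_of_mem hx, indicator_of_mem hx]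
    · rw [indicator_of_notMem hx, indicator_of_notMem hx]
      simp
  · exact Integrable.fintype_prod e2
  · exact Filter.Eventually.of_forall (fun x => Finset.prod_nonneg (fun i _ => e3 i (x i)))

lemma prod_meas (n : ℕ) : Measurable (fun x : Fin n → ℝ => ENNReal.ofReal (∏ i, gR (x i))) := by
  apply ENNReal.measurable_ofReal.comp
  apply Finset.measurable_prod
  intro i _
  exact gR_meas.comp (measurable_pi_apply i)

lemma P_ae (n : ℕ) : ∀ᵐ x ∂(P n), ∀ i, x i ∈ Icc (-1 : ℝ) 1 := by
  rw [P_eq, ae_withDensity_iff (prod_meas n)]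
  filter_upwards with x hx i
  by_contra hc
  apply hx
  rw [Finset.prod_eq_zero (Finset.mem_univ i) (gR_of_not_mem hc)]
  simp

lemma nu_neg {s : Set ℝ} (hs : MeasurableSet s) : nu ((fun x => -x) ⁻¹' s) = nu s := by
  have hs' : MeasurableSet ((fun x : ℝ => -x) ⁻¹' s) := measurable_neg hs
  rw [nu_eq, withDensity_apply _ hs, withDensity_apply _ hs', ← lintegral_indicator hs,
    ← lintegral_indicator hs']
  have h := (Measure.measurePreserving_neg (volume : Measure ℝ)).lintegral_comp
    (f := s.indicator fun x => ENNReal.ofReal (gR x))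
    ((gR_meas.ennreal_ofReal).indicator hs)
  rw [← h]
  apply lintegral_congr
  intro x
  by_cases hx : -x ∈ s
  · rw [indicator_of_mem hx, indicator_of_mem (show x ∈ (fun x => -x) ⁻¹' s from hx), gR_even]
  · rw [indicator_of_notMem hx, indicator_of_notMem (show x ∉ (fun x => -x) ⁻¹' s from hx)]

lemma signedPerm_meas {n : ℕ} (ε : Fin n → ℤˣ) (π : Equiv.Perm (Fin n)) :
    Measurable (signedPerm ε π) := by
  unfold signedPerm
  fun_prop

lemma P_inv {n : ℕ} (ε : Fin n → ℤˣ) (π : Equiv.Perm (Fin n)) :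
    (P n).map (signedPerm ε π) = P n := by
  symm
  unfold P
  apply Measure.pi_eq
  intro s hs
  rw [Measure.map_apply (signedPerm_meas ε π) (MeasurableSet.univ_pi hs)]
  have e1 : signedPerm ε π ⁻¹' (univ.pi s) =
      univ.pi (fun j => (fun x : ℝ => (((ε (π.symm j) : ℤˣ) : ℤ) : ℝ) * x) ⁻¹' s (π.symm j)) := by
    ext x
    simp only [mem_preimage, mem_pi, mem_univ, true_implies, signedPerm]
    constructor
    · intro h j
      have := h (π.symm j)
      rwa [Equiv.apply_symm_apply] at this
    · intro h i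
      have := h (π i)
      rwa [Equiv.symm_apply_apply] at this
  rw [e1, Measure.pi_pi]
  rw [← Equiv.prod_comp π.symm (fun i => nu (s i))]
  apply Finset.prod_congr rfl
  intro j _
  rcases Int.units_eq_one_or (ε (π.symm j)) with h | h
  · rw [h]
    simp
  · rw [h]
    have := nu_neg (hs (π.symm j))
    rw [← this]
    simp

lemma signedPerm_abs {n : ℕ} (ε : Fin n → ℤˣ) (π : Equiv.Perm (Fin n)) (x : Fin n → ℝ) (i : Fin n) :
    |signedPerm ε π x i| = |x (π i)| := by
  unfold signedPerm
  rcases Int.units_eq_one_or (ε i) with h | h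
  · rw [h]
    simp
  · rw [h]
    simp

lemma S_signed {n : ℕ} (ε : Fin n → ℤˣ) (π : Equiv.Perm (Fin n)) (x : Fin n → ℝ) :
    S n (signedPerm ε π x) = S n x := by
  unfold S
  simp_rw [signedPerm_abs]
  rw [Equiv.sum_comp π (fun i => |x i| - 10 / 21)]

lemma Wt_signed {n : ℕ} (ε : Fin n → ℤˣ) (π : Equiv.Perm (Fin n)) (x : Fin n → ℝ) :
    Wt n (signedPerm ε π x) = Wt n x := by
  unfold Wt
  rw [S_signed]

lemma S_cont (n : ℕ) : Continuous (S n) := by
  unfold S
  fun_prop

lemma Wt_cont (n : ℕ) : Continuous (Wt n) := by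
  unfold Wt
  have := S_cont n
  fun_prop

lemma Wt_pos (n : ℕ) (x : Fin n → ℝ) : 0 < Wt n x := Real.exp_pos _

lemma int_of_cont {n : ℕ} {f : (Fin n → ℝ) → ℝ} (hf : Continuous f) : Integrable f (P n) := by
  have hK : IsCompact (univ.pi (fun _ : Fin n => Icc (-1 : ℝ) 1)) :=
    isCompact_univ_pi (fun _ => isCompact_Icc)
  obtain ⟨C, hC⟩ := hK.exists_bound_of_continuousOn hf.continuousOn
  apply Integrable.of_bound hf.aestronglyMeasurable C
  filter_upwards [P_ae n] with x hx
  exact hC x (fun i _ => hx i)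

lemma Zn_pos (n : ℕ) : 0 < Zn n := by
  unfold Zn Wt
  apply integral_exp_pos
  exact int_of_cont (Wt_cont n)

lemma P_ac (n : ℕ) : P n ≪ (volume : Measure (Fin n → ℝ)) := by
  rw [P_eq]
  exact withDensity_absolutelyContinuous _ _

lemma An_pos {n : ℕ} (hn : 1 ≤ n) : 0 < An n := by
  unfold An
  apply div_pos _ (Zn_pos n)
  have hc : Continuous (fun x : Fin n → ℝ => (∑ i, (x i) ^ 2) / n * Wt n x) := by
    have := Wt_cont n
    fun_prop
  have hn' : (0 : ℝ) < n := by exact_mod_cast hn
  rw [integral_pos_iff_support_of_nonneg _ (int_of_cont hc)]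
  · have hsub : ({0} : Set (Fin n → ℝ))ᶜ ⊆
        Function.support (fun x : Fin n → ℝ => (∑ i, (x i) ^ 2) / n * Wt n x) := by
      intro x hx
      rw [Function.mem_support]
      have hx' : x ≠ 0 := hx
      obtain ⟨i, hi⟩ := Function.ne_iff.1 hx'
      have h1 : 0 < ∑ i, (x i) ^ 2 := by
        apply Finset.sum_pos' (fun j _ => by positivity)
        refine ⟨i, Finset.mem_univ i, ?_⟩
        have : x i ≠ 0 := hi
        positivity
      have h2 := Wt_pos n x
      positivity
    refine lt_of_lt_of_le ?_ (measure_mono hsub)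
    have : NeZero n := ⟨by omega⟩
    have h0 : P n {0} = 0 := P_ac n (by
      have : Nonempty (Fin n) := ⟨0⟩
      simp)
    rw [prob_compl_eq_one_sub (measurableSet_singleton _), h0]
    simp
  · intro x
    have := Wt_pos n x
    simp only [Pi.zero_apply]
    positivity

/-- the unscaled measure -/
noncomputable def mu0 (n : ℕ) : Measure (Fin n → ℝ) :=
  (P n).withDensity (fun x => ENNReal.ofReal (Wt n x / Zn n))

/-- the scaled measure -/
noncomputable def mu (n : ℕ) : Measure (Fin n → ℝ) :=
  (mu0 n).map (fun x => (√(An n))⁻¹ • x)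

lemma dens_meas (n : ℕ) : Measurable (fun x => ENNReal.ofReal (Wt n x / Zn n)) := by
  apply ENNReal.measurable_ofReal.comp
  exact ((Wt_cont n).div_const _).measurable

lemma mu0_integral (n : ℕ) (f : (Fin n → ℝ) → ℝ) :
    ∫ x, f x ∂(mu0 n) = (∫ x, f x * Wt n x ∂(P n)) / Zn n := by
  unfold mu0
  rw [integral_withDensity_eq_integral_toReal_smul (dens_meas n)
    (Filter.Eventually.of_forall (fun x => ENNReal.ofReal_lt_top))]
  rw [← integral_div]
  congr 1
  ext x
  have h1 := Wt_pos n x
  have h2 := Zn_pos n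
  rw [ENNReal.toReal_ofReal (by positivity), smul_eq_mul]
  ring

instance mu0_prob (n : ℕ) : IsProbabilityMeasure (mu0 n) := by
  constructor
  unfold mu0
  have h2 := Zn_pos n
  rw [withDensity_apply _ MeasurableSet.univ, Measure.restrict_univ,
    ← ofReal_integral_eq_lintegral_ofReal (int_of_cont ((Wt_cont n).div_const _))
      (Filter.Eventually.of_forall (fun x => (div_pos (Wt_pos n x) h2).le)),
    integral_div]
  have : ∫ x, Wt n x ∂(P n) = Zn n := rfl
  rw [this, div_self h2.ne']
  simp

lemma scale_meas (n : ℕ) (c : ℝ) : Measurable (fun x : Fin n → ℝ => c • x) := by fun_prop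

instance mu_prob (n : ℕ) : IsProbabilityMeasure (mu n) :=
  Measure.isProbabilityMeasure_map (scale_meas n _).aemeasurable

lemma mu0_inv {n : ℕ} (ε : Fin n → ℤˣ) (π : Equiv.Perm (Fin n)) :
    (mu0 n).map (signedPerm ε π) = mu0 n := by
  ext s hs
  have hT := signedPerm_meas ε π
  unfold mu0
  rw [Measure.map_apply hT hs, withDensity_apply _ hs, withDensity_apply _ (hT hs),
    ← lintegral_indicator hs, ← lintegral_indicator (hT hs)]
  have h := lintegral_map (μ := P n) (g := signedPerm ε π)
    (f := s.indicator fun x => ENNReal.ofReal (Wt n x / Zn n)) ((dens_meas n).indicator hs) hT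
  rw [P_inv] at h
  rw [h]
  apply lintegral_congr
  intro x
  by_cases hx : signedPerm ε π x ∈ s
  · rw [indicator_of_mem hx, indicator_of_mem (show x ∈ signedPerm ε π ⁻¹' s from hx), Wt_signed]
  · rw [indicator_of_notMem hx, indicator_of_notMem (show x ∉ signedPerm ε π ⁻¹' s from hx)]

lemma mu_inv {n : ℕ} (ε : Fin n → ℤˣ) (π : Equiv.Perm (Fin n)) :
    (mu n).map (signedPerm ε π) = mu n := by
  unfold mu
  rw [Measure.map_map (signedPerm_meas ε π) (scale_meas n _)]
  conv_rhs => rw [← mu0_inv ε π]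
  rw [Measure.map_map (scale_meas n _) (signedPerm_meas ε π)]
  congr 1
  ext x i
  simp only [Function.comp_apply, signedPerm, Pi.smul_apply, smul_eq_mul]
  ring

lemma mu_integral (n : ℕ) {f : (Fin n → ℝ) → ℝ} (hf : Continuous f) :
    ∫ x, f x ∂(mu n) = (∫ x, f ((√(An n))⁻¹ • x) * Wt n x ∂(P n)) / Zn n := by
  unfold mu
  rw [integral_map (scale_meas n _).aemeasurable hf.aestronglyMeasurable, mu0_integral]

lemma mu_integral_signed {n : ℕ} (ε : Fin n → ℤˣ) (π : Equiv.Perm (Fin n))
    {f : (Fin n → ℝ) → ℝ} (hf : Continuous f) :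
    ∫ x, f (signedPerm ε π x) ∂(mu n) = ∫ x, f x ∂(mu n) := by
  conv_rhs => rw [← mu_inv ε π]
  rw [integral_map (signedPerm_meas ε π).aemeasurable hf.aestronglyMeasurable]

lemma mu_isotropic {n : ℕ} (hn : 1 ≤ n) : IsIsotropic (mu n) := by
  have hn' : (0 : ℝ) < n := by exact_mod_cast hn
  constructor
  · intro i
    have h := mu_integral_signed (fun _ => -1) (Equiv.refl (Fin n))
      (f := fun x => x i) (continuous_apply i)
    simp only [signedPerm, Equiv.refl_apply] at h
    norm_num at h
    rw [integral_neg] at h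
    linarith
  · intro i j
    by_cases hij : i = j
    · subst hij
      rw [if_pos rfl]
      have hall : ∀ j, ∫ x, (x j) ^ 2 ∂(mu n) = ∫ x, (x i) ^ 2 ∂(mu n) := by
        intro j
        have h := mu_integral_signed (fun _ => 1) (Equiv.swap i j)
          (f := fun x => (x i) ^ 2) (by fun_prop)
        simp only [signedPerm, Equiv.swap_apply_left] at h
        norm_num at h
        exact h
      have hsum : ∑ j, ∫ x, (x j) ^ 2 ∂(mu n) = n * ∫ x, (x i) ^ 2 ∂(mu n) := by
        simp_rw [hall]
        simp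
      have hA := An_pos hn
      have hZ := Zn_pos n
      have hsum2 : ∑ j, ∫ x, (x j) ^ 2 ∂(mu n) = n := by
        have e : ∀ j : Fin n, ∫ x, (x j) ^ 2 ∂(mu n) =
            (An n)⁻¹ * (n * ((∫ x, (x j) ^ 2 / n * Wt n x ∂(P n)) / Zn n)) := by
          intro j
          rw [mu_integral n (f := fun x => (x j) ^ 2) (by fun_prop)]
          rw [← mul_div_assoc, ← mul_div_assoc]
          congr 1
          rw [← integral_const_mul, ← integral_const_mul]
          congr 1
          ext x
          simp only [Pi.smul_apply, smul_eq_mul]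
          rw [mul_pow, inv_pow, Real.sq_sqrt hA.le]
          field_simp
        simp_rw [e]
        rw [← Finset.mul_sum, ← Finset.mul_sum, ← Finset.sum_div, ← integral_finsetSum]
        · have e2 : ∀ x : Fin n → ℝ, ∑ j, (x j) ^ 2 / n * Wt n x = (∑ j, (x j) ^ 2) / n * Wt n x := by
            intro x
            rw [Finset.sum_div, Finset.sum_mul]
          simp_rw [e2]
          have e3 : (∫ x, (∑ i, (x i) ^ 2) / n * Wt n x ∂(P n)) / Zn n = An n := rfl
          rw [e3]
          field_simp
        · intro j _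
          apply int_of_cont
          have := Wt_cont n
          fun_prop
      rw [hsum] at hsum2
      have : ∫ x, (x i) ^ 2 ∂(mu n) = 1 := by
        have h3 : (n : ℝ) * ∫ x, (x i) ^ 2 ∂(mu n) = n * 1 := by rw [hsum2, mul_one]
        exact mul_left_cancel₀ hn'.ne' h3
      rw [← this]
      congr 1
      ext x
      ring
    · rw [if_neg hij]
      have h := mu_integral_signed (fun k => if k = i then -1 else 1) (Equiv.refl (Fin n))
        (f := fun x => x i * x j) (by fun_prop)
      simp only [signedPerm, Equiv.refl_apply, if_true, if_neg (Ne.symm hij)] at h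
      norm_num at h
      rw [integral_neg] at h
      linarith

lemma eval_smul4 {n : ℕ} (f : MvPolynomial (Fin n) ℝ) (hf : f.IsHomogeneous 4) (c : ℝ)
    (x : Fin n → ℝ) : MvPolynomial.eval (c • x) f = c ^ 4 * MvPolynomial.eval x f := by
  rw [MvPolynomial.eval_eq, MvPolynomial.eval_eq, Finset.mul_sum]
  apply Finset.sum_congr rfl
  intro d hd
  have h4 : ∑ i, d i = 4 := by
    have h1 := hf (MvPolynomial.mem_support_iff.1 hd)
    rw [Finsupp.weight_apply] at h1
    rw [Finsupp.sum_fintype _ _ (by simp)] at h1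
    simpa using h1
  simp only [Pi.smul_apply, smul_eq_mul]
  have e1 : ∀ g : Fin n → ℝ, ∏ i ∈ d.support, g i ^ d i = ∏ i, g i ^ d i := by
    intro g
    apply Finset.prod_subset (Finset.subset_univ _)
    intro i _ hi
    rw [Finsupp.notMem_support_iff.1 hi, pow_zero]
  rw [e1 (fun i => c * x i), e1 x]
  simp_rw [mul_pow]
  rw [Finset.prod_mul_distrib, Finset.prod_pow_eq_pow_sum, h4]
  ring

/-! ### log-concavity -/

/-- the cube -/
def K (n : ℕ) : Set (Fin n → ℝ) := {x | ∀ i, x i ∈ Icc (-1 : ℝ) 1}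

lemma K_convex (n : ℕ) : Convex ℝ (K n) := by
  intro x hx y hy a b ha hb hab i
  exact (convex_Icc (-1 : ℝ) 1) (hx i) (hy i) ha hb hab

lemma K_meas (n : ℕ) : MeasurableSet (K n) := by
  have : K n = ⋂ i, (fun x : Fin n → ℝ => x i) ⁻¹' Icc (-1 : ℝ) 1 := by
    ext x
    simp [K]
  rw [this]
  exact MeasurableSet.iInter (fun i => (measurable_pi_apply i) measurableSet_Icc)

/-- the one-dimensional function `-log(4-t) - t/4` is convex and nondecreasing on `[0,1]` -/
noncomputable def kf (t : ℝ) : ℝ := -Real.log (4 - t) - t / 4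

lemma kf_convex : ConvexOn ℝ (Icc (0 : ℝ) 1) kf := by
  refine ⟨convex_Icc _ _, ?_⟩
  intro x hx y hy a b ha hb hab
  have h1 : (4 - x) ∈ Ioi (0 : ℝ) := by
    simp only [mem_Ioi]
    linarith [hx.2]
  have h2 : (4 - y) ∈ Ioi (0 : ℝ) := by
    simp only [mem_Ioi]
    linarith [hy.2]
  have h3 := strictConcaveOn_log_Ioi.concaveOn.2 h1 h2 ha hb hab
  simp only [smul_eq_mul] at h3 ⊢
  have e : a * (4 - x) + b * (4 - y) = 4 - (a * x + b * y) := by
    have : (a + b) * 4 = 4 := by rw [hab]; ring
    linarith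
  rw [e] at h3
  unfold kf
  linarith

lemma kf_mono : MonotoneOn kf (Icc (0 : ℝ) 1) := by
  apply monotoneOn_of_deriv_nonneg (convex_Icc _ _)
  · intro x hx
    have : 4 - x ≠ 0 := by linarith [hx.2]
    unfold kf
    apply ContinuousAt.continuousWithinAt
    have : ContinuousAt (fun t : ℝ => Real.log (4 - t)) x :=
      ContinuousAt.log (by fun_prop) this
    fun_prop
  · intro x hx
    rw [interior_Icc] at hx
    have : 4 - x ≠ 0 := by linarith [hx.2]
    unfold kf
    apply DifferentiableAt.differentiableWithinAt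
    have : DifferentiableAt ℝ (fun t : ℝ => Real.log (4 - t)) x :=
      DifferentiableAt.log (by fun_prop) this
    fun_prop
  · intro x hx
    rw [interior_Icc] at hx
    have h0 : 0 < 4 - x := by linarith [hx.2]
    have h1 : HasDerivAt (fun t : ℝ => 4 - t) (-1) x := by
      simpa using (hasDerivAt_id x).const_sub 4
    have h2 := ((h1.log h0.ne').neg).sub ((hasDerivAt_id x).div_const 4)
    have h3 : deriv kf x = -(-1 / (4 - x)) - 1 / 4 := h2.deriv
    rw [h3]
    have h4 : 1 / 4 ≤ 1 / (4 - x) := one_div_le_one_div_of_le h0 (by linarith [hx.1])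
    have e : -(-1 / (4 - x)) = 1 / (4 - x) := by ring
    rw [e]
    linarith

lemma convexOn_comp_mono {E : Type*} [AddCommGroup E] [Module ℝ E] {s : Set E} {t : Set ℝ}
    {f : E → ℝ} {g : ℝ → ℝ} (hg : ConvexOn ℝ t g) (hf : ConvexOn ℝ s f) (hm : MapsTo f s t)
    (hmono : MonotoneOn g t) : ConvexOn ℝ s (fun x => g (f x)) := by
  refine ⟨hf.1, ?_⟩
  intro x hx y hy a b ha hb hab
  have h1 := hf.2 hx hy ha hb hab
  have h2 := hg.2 (hm hx) (hm hy) ha hb hab
  exact (hmono (hm (hf.1 hx hy ha hb hab)) (hg.1 (hm hx) (hm hy) ha hb hab) h1).trans h2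

lemma abs_coord_convex {n : ℕ} (i : Fin n) : ConvexOn ℝ (K n) (fun x => |x i|) := by
  refine ⟨K_convex n, ?_⟩
  intro x _ y _ a b ha hb hab
  simp only [Pi.add_apply, Pi.smul_apply, smul_eq_mul]
  calc |a * x i + b * y i| ≤ |a * x i| + |b * y i| := abs_add_le _ _
    _ = a * |x i| + b * |y i| := by rw [abs_mul, abs_mul, abs_of_nonneg ha, abs_of_nonneg hb]

lemma kf_coord_convex {n : ℕ} (i : Fin n) : ConvexOn ℝ (K n) (fun x => kf |x i|) :=
  convexOn_comp_mono kf_convex (abs_coord_convex i)
    (fun x hx => ⟨abs_nonneg _, abs_le.2 (hx i)⟩) kf_mono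

lemma sum_kf_convex (n : ℕ) : ConvexOn ℝ (K n) (fun x => ∑ i, kf |x i|) := by
  refine ⟨K_convex n, ?_⟩
  intro x hx y hy a b ha hb hab
  simp only [smul_eq_mul]
  rw [Finset.mul_sum, Finset.mul_sum, ← Finset.sum_add_distrib]
  apply Finset.sum_le_sum
  intro i _
  have := (kf_coord_convex i).2 hx hy ha hb hab
  simpa using this

lemma S_convex (n : ℕ) : ConvexOn ℝ (K n) (fun x => S n x) := by
  refine ⟨K_convex n, ?_⟩
  intro x hx y hy a b ha hb hab
  simp only [smul_eq_mul]
  unfold S
  rw [mul_div_assoc', mul_div_assoc', ← add_div]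
  apply div_le_div_of_nonneg_right _ (Real.sqrt_nonneg _)
  rw [Finset.mul_sum, Finset.mul_sum, ← Finset.sum_add_distrib]
  apply Finset.sum_le_sum
  intro i _
  have := (abs_coord_convex i).2 hx hy ha hb hab
  simp only [smul_eq_mul] at this
  have e : a * (|x i| - 10 / 21) + b * (|y i| - 10 / 21) =
      a * |x i| + b * |y i| - (a + b) * (10 / 21) := by ring
  rw [e, hab]
  linarith

lemma pos_sq_convex : ConvexOn ℝ (univ : Set ℝ) (fun t : ℝ => (max t 0) ^ 2) := by
  refine ⟨convex_univ, ?_⟩
  intro x _ y _ a b ha hb hab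
  simp only [smul_eq_mul]
  have h1 : max (a * x + b * y) 0 ≤ a * max x 0 + b * max y 0 := by
    apply max_le
    · have := le_max_left x 0
      have := le_max_left y 0
      gcongr
    · have := le_max_right x 0
      have := le_max_right y 0
      positivity
  have h0 : 0 ≤ max (a * x + b * y) 0 := le_max_right _ _
  have h2 : (max (a * x + b * y) 0) ^ 2 ≤ (a * max x 0 + b * max y 0) ^ 2 := by gcongr
  refine h2.trans ?_
  have e : b = 1 - a := by linarith
  subst e
  nlinarith [mul_nonneg (mul_nonneg ha hb) (sq_nonneg (max x 0 - max y 0))]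

lemma pos_sq_mono : MonotoneOn (fun t : ℝ => (max t 0) ^ 2) univ := by
  intro x _ y _ hxy
  simp only
  have h0 : 0 ≤ max x 0 := le_max_right _ _
  have : max x 0 ≤ max y 0 := max_le_max hxy le_rfl
  gcongr

lemma max_S_convex (n : ℕ) :
    ConvexOn ℝ (K n) (fun x => (max (S n x + √n / 4000) 0) ^ 2) :=
  convexOn_comp_mono pos_sq_convex ((S_convex n).add_const _) (fun _ _ => mem_univ _) pos_sq_mono

/-- the convex potential -/
noncomputable def psi (n : ℕ) (x : Fin n → ℝ) : ℝ :=
  (∑ i, kf |x i|) + 500 * (max (S n x + √n / 4000) 0) ^ 2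

lemma psi_convex (n : ℕ) : ConvexOn ℝ (K n) (psi n) := by
  have h1 := (max_S_convex n).smul (c := (500 : ℝ)) (by norm_num)
  have h2 := (sum_kf_convex n).add h1
  refine h2.congr ?_
  intro x _
  simp [psi]

lemma logWt (n : ℕ) (hn : 1 ≤ n) (x : Fin n → ℝ) : Real.log (Wt n x) =
    -(500 * (max (S n x + √n / 4000) 0) ^ 2) + (∑ i, |x i|) / 4
      - n * (10 / 21) / 4 + 500 * (√n / 4000) ^ 2 := by
  unfold Wt
  rw [Real.log_exp]
  have hn' : (0 : ℝ) < n := by exact_mod_cast hn
  have hs : 0 < √(n : ℝ) := Real.sqrt_pos.2 hn'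
  have e1 : 1000 * (√n / 4000) * S n x = (∑ i, |x i|) / 4 - n * (10 / 21) / 4 := by
    unfold S
    rw [Finset.sum_sub_distrib, Finset.sum_const, Finset.card_univ, Fintype.card_fin,
      nsmul_eq_mul]
    field_simp
    ring
  have e2 : (max (S n x + √n / 4000) 0) ^ 2 + (min (S n x + √n / 4000) 0) ^ 2 =
      (S n x + √n / 4000) ^ 2 := by
    rcases le_total (S n x + √n / 4000) 0 with h | h
    · rw [max_eq_right h, min_eq_left h]
      ring
    · rw [max_eq_left h, min_eq_right h]
      ring
  nlinarith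

/-- the (unscaled) real Lebesgue density on the cube -/
noncomputable def dn (n : ℕ) (x : Fin n → ℝ) : ℝ := (∏ i, ((4 - |x i|) / 7)) * (Wt n x / Zn n)

lemma dn_pos {n : ℕ} {x : Fin n → ℝ} (hx : x ∈ K n) : 0 < dn n x := by
  unfold dn
  apply mul_pos
  · apply Finset.prod_pos
    intro i _
    have : |x i| ≤ 1 := abs_le.2 (hx i)
    have : 0 < 4 - |x i| := by linarith
    positivity
  · exact div_pos (Wt_pos n x) (Zn_pos n)

lemma log_dn {n : ℕ} (hn : 1 ≤ n) {x : Fin n → ℝ} (hx : x ∈ K n) :
    -Real.log (dn n x) = psi n x +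
      (n * Real.log 7 + n * (10 / 21) / 4 - 500 * (√n / 4000) ^ 2 + Real.log (Zn n)) := by
  have hpos : ∀ i, 0 < (4 - |x i|) := fun i => by
    have : |x i| ≤ 1 := abs_le.2 (hx i)
    linarith
  have h1 : ∏ i, ((4 - |x i|) / 7) ≠ 0 := by
    apply Finset.prod_ne_zero_iff.2
    intro i _
    have := hpos i
    positivity
  have hW := Wt_pos n x
  have hZ := Zn_pos n
  unfold dn
  rw [Real.log_mul h1 (div_pos hW hZ).ne', Real.log_div hW.ne' hZ.ne', logWt n hn,
    Real.log_prod (fun i _ => (div_pos (hpos i) (by norm_num)).ne')]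
  have e : ∑ i, Real.log ((4 - |x i|) / 7) = -(∑ i, kf |x i|) - (∑ i, |x i|) / 4
      - n * Real.log 7 := by
    have e1 : ∀ i, Real.log ((4 - |x i|) / 7) = -(kf |x i|) - |x i| / 4 - Real.log 7 := by
      intro i
      rw [Real.log_div (hpos i).ne' (by norm_num)]
      unfold kf
      ring
    simp_rw [e1]
    rw [Finset.sum_sub_distrib, Finset.sum_sub_distrib, Finset.sum_neg_distrib, Finset.sum_div,
      Finset.sum_const, Finset.card_univ, Fintype.card_fin, nsmul_eq_mul]
  rw [e]
  unfold psi
  ring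

lemma dn_cont (n : ℕ) : Continuous (dn n) := by
  unfold dn
  have := Wt_cont n
  fun_prop

lemma mu0_eq (n : ℕ) : mu0 n = (volume : Measure (Fin n → ℝ)).withDensity
    ((K n).indicator fun x => ENNReal.ofReal (dn n x)) := by
  unfold mu0
  rw [P_eq, ← withDensity_mul _ (prod_meas n) (dens_meas n)]
  congr 1
  ext x
  simp only [Pi.mul_apply]
  by_cases hx : x ∈ K n
  · rw [indicator_of_mem hx]
    unfold dn
    rw [ENNReal.ofReal_mul]
    · congr 2
      apply Finset.prod_congr rfl
      intro i _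
      exact gR_of_mem (hx i)
    · apply Finset.prod_nonneg
      intro i _
      have : |x i| ≤ 1 := abs_le.2 (hx i)
      have : 0 < 4 - |x i| := by linarith
      positivity
  · rw [indicator_of_notMem hx]
    simp only [K, mem_ofPred_eq, not_forall] at hx
    obtain ⟨i, hi⟩ := hx
    rw [Finset.prod_eq_zero (Finset.mem_univ i) (gR_of_not_mem hi)]
    simp

lemma map_scale_withDensity {n : ℕ} {F : (Fin n → ℝ) → ℝ≥0∞} (hF : Measurable F) {c : ℝ}
    (hc : 0 < c) :
    ((volume : Measure (Fin n → ℝ)).withDensity F).map (fun x => c⁻¹ • x) =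
      (volume : Measure (Fin n → ℝ)).withDensity
        (fun y => ENNReal.ofReal (c ^ n) * F (c • y)) := by
  ext s hs
  have hm : Measurable (fun x : Fin n → ℝ => c⁻¹ • x) := by fun_prop
  have hF' : Measurable (fun y : Fin n → ℝ => F (c • y)) := hF.comp (by fun_prop)
  rw [Measure.map_apply hm hs, withDensity_apply _ (hm hs), withDensity_apply _ hs,
    ← lintegral_indicator (hm hs), ← lintegral_indicator hs]
  have h1 := lintegral_map (μ := (volume : Measure (Fin n → ℝ))) (g := fun x => c⁻¹ • x)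
    (f := s.indicator fun y => F (c • y)) (hF'.indicator hs) hm
  have h2 := Measure.map_addHaar_smul (volume : Measure (Fin n → ℝ)) (r := c⁻¹)
    (inv_ne_zero hc.ne')
  rw [h2, lintegral_smul_measure] at h1
  have e1 : ∀ x : Fin n → ℝ, (s.indicator fun y => F (c • y)) (c⁻¹ • x) =
      ((fun x : Fin n → ℝ => c⁻¹ • x) ⁻¹' s).indicator F x := by
    intro x
    by_cases hx : c⁻¹ • x ∈ s
    · rw [indicator_of_mem hx,
        indicator_of_mem (show x ∈ (fun x : Fin n → ℝ => c⁻¹ • x) ⁻¹' s from hx), smul_smul,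
        mul_inv_cancel₀ hc.ne', one_smul]
    · rw [indicator_of_notMem hx,
        indicator_of_notMem (show x ∉ (fun x : Fin n → ℝ => c⁻¹ • x) ⁻¹' s from hx)]
  simp_rw [e1] at h1
  rw [← h1]
  have e2 : |((c⁻¹) ^ Module.finrank ℝ (Fin n → ℝ))⁻¹| = c ^ n := by
    rw [Module.finrank_fin_fun, inv_pow, inv_inv, abs_of_pos (by positivity)]
  rw [e2, smul_eq_mul, ← lintegral_const_mul _ (hF'.indicator hs)]
  apply lintegral_congr
  intro x
  by_cases hx : x ∈ s
  · rw [indicator_of_mem hx, indicator_of_mem hx]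
  · rw [indicator_of_notMem hx, indicator_of_notMem hx, mul_zero]

lemma mu_logConcave {n : ℕ} (hn : 1 ≤ n) : IsLogConcave (mu n) := by
  have hA := An_pos hn
  set c : ℝ := √(An n) with hc
  have hc0 : 0 < c := Real.sqrt_pos.2 hA
  let L : (Fin n → ℝ) →ₗ[ℝ] (Fin n → ℝ) := c • LinearMap.id
  have hL : ∀ x, L x = c • x := fun x => rfl
  refine ⟨L ⁻¹' (K n), fun y => -Real.log (c ^ n * dn n (c • y)), ?_, ?_, ?_, ?_⟩
  · exact (K_meas n).preimage (by
      change Measurable (fun x : Fin n → ℝ => c • x)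
      fun_prop)
  · have := dn_cont n
    have h1 : Measurable (fun y : Fin n → ℝ => c ^ n * dn n (c • y)) := by
      apply Continuous.measurable
      fun_prop
    exact (Real.measurable_log.comp h1).neg
  · have h1 := ((psi_convex n).comp_linearMap L).add_const
      ((n * Real.log 7 + n * (10 / 21) / 4 - 500 * (√n / 4000) ^ 2 + Real.log (Zn n))
        - n * Real.log c)
    refine h1.congr ?_
    intro x hx
    have hx' : c • x ∈ K n := hx
    have h2 := log_dn hn hx'
    simp only [Pi.add_apply, Function.comp_apply, hL]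
    rw [Real.log_mul (by positivity) (dn_pos hx').ne', Real.log_pow]
    linarith
  · unfold mu
    rw [mu0_eq, map_scale_withDensity _ hc0]
    · congr 1
      ext y
      by_cases hy : c • y ∈ K n
      · rw [indicator_of_mem hy, indicator_of_mem (show y ∈ L ⁻¹' (K n) from hy), neg_neg,
          Real.exp_log (mul_pos (by positivity) (dn_pos hy)), ENNReal.ofReal_mul (by positivity)]
      · rw [indicator_of_notMem hy, indicator_of_notMem (show y ∉ L ⁻¹' (K n) from hy), mul_zero]
    · apply Measurable.indicator _ (K_meas n)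
      exact (dn_cont n).measurable.ennreal_ofReal

end MLB

/-- Task ML-B. -/
theorem exists_measure (n : ℕ) (hn : 1 ≤ n) : ∃ mu : Measure (Fin n → ℝ),
    IsProbabilityMeasure mu ∧ IsLogConcave mu ∧ IsIsotropic mu ∧ IsHnInvariant mu ∧
    ∀ f : MvPolynomial (Fin n) ℝ, f.IsHomogeneous 4 →
      ∫ x, (MvPolynomial.eval x f) ^ 2 ∂mu =
        (∫ x, (MvPolynomial.eval x f) ^ 2 * Wt n x ∂(P n)) / Zn n / (An n) ^ 4 := by
  refine ⟨MLB.mu n, inferInstance, MLB.mu_logConcave hn, MLB.mu_isotropic hn,
    fun ε π => MLB.mu_inv ε π, ?_⟩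
  intro f hf
  have hA := MLB.An_pos hn
  have hcont : Continuous (fun x : Fin n → ℝ => (MvPolynomial.eval x f) ^ 2) := by
    have : Continuous (fun x : Fin n → ℝ => MvPolynomial.eval x f) :=
      MvPolynomial.continuous_eval f
    fun_prop
  rw [MLB.mu_integral n hcont, div_right_comm]
  congr 1
  rw [← integral_div]
  congr 1
  ext x
  rw [MLB.eval_smul4 f hf]
  have e : ((√(An n))⁻¹ ^ 4 * MvPolynomial.eval x f) ^ 2 =
      (MvPolynomial.eval x f) ^ 2 / (An n) ^ 4 := by
    have : ((√(An n))⁻¹ ^ 4) ^ 2 = ((√(An n) ^ 2) ^ 4)⁻¹ := by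
      rw [← pow_mul, ← pow_mul, inv_pow]
    rw [mul_pow, this, Real.sq_sqrt hA.le]
    ring
  rw [e]
  ring

end R985.ML
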