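import Mathlib
set_option autoImplicit false

open MeasureTheory ProbabilityTheory

namespace R985.ML

section Stein
variable {Ω : Type*} [MeasurableSpace Ω] {P : Measure Ω} [IsProbabilityMeasure P]

lemma intg_bdd {f : Ω → ℝ} (hf : Measurable f) (C : ℝ) (h : ∀ ω, |f ω| ≤ C) : Integrable f P :=
  Integrable.of_bound hf.aestronglyMeasurable C (ae_of_all _ h)

lemma int_close {f g : Ω → ℝ} (hf : Integrable f P) (hg : Integrable g P) (C : ℝ)
    (h : ∀ ω, |f ω - g ω| ≤ C) : |∫ ω, f ω ∂P - ∫ ω, g ω ∂P| ≤ C := by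
  rw [← integral_sub hf hg]
  have := norm_integral_le_of_norm_le_const (μ := P) (f := fun ω => f ω - g ω) (C := C)
    (ae_of_all _ h)
  simpa using this

omit [IsProbabilityMeasure P] in
lemma int_close' {f g k : Ω → ℝ} (hf : Integrable f P) (hg : Integrable g P)
    (hk : Integrable k P) (h : ∀ ω, |f ω - g ω| ≤ k ω) :
    |∫ ω, f ω ∂P - ∫ ω, g ω ∂P| ≤ ∫ ω, k ω ∂P := by
  rw [← integral_sub hf hg]
  refine (abs_integral_le_integral_abs).trans (integral_mono ?_ hk h)
  exact (hf.sub hg).abs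

omit [IsProbabilityMeasure P] in
/-- independence of coordinate `i` from the sum of the others -/
lemma decouple {n : ℕ} {h Y : Fin n → Ω → ℝ} (hm : ∀ i, Measurable (h i))
    (Ym : ∀ i, Measurable (Y i)) (hind : iIndepFun (fun i ω => (h i ω, Y i ω)) P) (i : Fin n)
    (p q : ℝ × ℝ → ℝ) (hp : Measurable p) (hq : Measurable q) :
    ∫ ω, p (h i ω, Y i ω) *
      q (∑ j ∈ Finset.univ.erase i, h j ω, ∑ j ∈ Finset.univ.erase i, Y j ω) ∂P
    = (∫ ω, p (h i ω, Y i ω) ∂P) *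
      ∫ ω, q (∑ j ∈ Finset.univ.erase i, h j ω, ∑ j ∈ Finset.univ.erase i, Y j ω) ∂P := by
  have h1 := hind.indepFun_finsetSum_of_notMem (fun i => (hm i).prodMk (Ym i))
    (s := Finset.univ.erase i) (i := i) (by simp)
  have h2 := (h1.comp hq hp).symm
  have h3 := h2.integral_mul_eq_mul_integral (by
      exact (hp.comp ((hm i).prodMk (Ym i))).aestronglyMeasurable) (by
      refine (hq.comp ?_).aestronglyMeasurable
      have e : (∑ j ∈ Finset.univ.erase i, fun ω => (h j ω, Y j ω))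
          = fun ω => ∑ j ∈ Finset.univ.erase i, (h j ω, Y j ω) := by
        funext ω; rw [Finset.sum_apply]
      rw [e]
      exact Finset.measurable_sum _ (fun j _ => (hm j).prodMk (Ym j)))
  have e : ∀ ω, (∑ j ∈ Finset.univ.erase i, fun ω => (h j ω, Y j ω)) ω
      = (∑ j ∈ Finset.univ.erase i, h j ω, ∑ j ∈ Finset.univ.erase i, Y j ω) := by
    intro ω
    rw [Finset.sum_apply]
    refine Prod.ext ?_ ?_
    · rw [Prod.fst_sum]
    · rw [Prod.snd_sum]
  have e' : (q ∘ (∑ j ∈ Finset.univ.erase i, fun ω => (h j ω, Y j ω)))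
      = fun ω => q (∑ j ∈ Finset.univ.erase i, h j ω, ∑ j ∈ Finset.univ.erase i, Y j ω) := by
    funext ω
    simp only [Function.comp]
    rw [e ω]
  rw [e'] at h3
  exact h3

/-- test function data -/
structure Tst (g g' : ℝ → ℝ) (G : ℝ) : Prop where
  mg : Measurable g
  mg' : Measurable g'
  bg : ∀ s, |g s| ≤ G
  bg' : ∀ s, |g' s| ≤ G
  lg : ∀ s δ, |g (s + δ) - g s| ≤ G * |δ|
  lg' : ∀ s δ, |g' (s + δ) - g' s| ≤ G * |δ|
  tg : ∀ s δ, |g (s + δ) - g s - g' s * δ| ≤ G * δ ^ 2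

lemma Tst.G_nonneg {g g' : ℝ → ℝ} {G : ℝ} (t : Tst g g' G) : 0 ≤ G :=
  (abs_nonneg _).trans (t.bg 0)

/-- first Stein estimate -/
lemma stein_one {n : ℕ} (hn : 1 ≤ n) {h Y : Fin n → Ω → ℝ} (hm : ∀ i, Measurable (h i))
    (Ym : ∀ i, Measurable (Y i)) (hind : iIndepFun (fun i ω => (h i ω, Y i ω)) P)
    {B c G : ℝ} (hB : 0 ≤ B) (bh : ∀ i ω, |h i ω| ≤ B) (bY : ∀ i ω, |Y i ω| ≤ B)
    (eh : ∀ i, ∫ ω, h i ω ∂P = 0) (ec : ∀ i, ∫ ω, h i ω * Y i ω ∂P = c)
    {g g' : ℝ → ℝ} (t : Tst g g' G) :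
    |∫ ω, ((∑ i, h i ω) / √n) * g ((∑ i, Y i ω) / √n) ∂P
      - c * ∫ ω, g' ((∑ i, Y i ω) / √n) ∂P| ≤ 2 * G * B ^ 3 / √n := by
  have hG := t.G_nonneg
  have hn0 : (0:ℝ) < n := by exact_mod_cast hn
  have hs : (0:ℝ) < √n := Real.sqrt_pos.mpr hn0
  have hss : √(n:ℝ) * √n = n := Real.mul_self_sqrt hn0.le
  have Sm : Measurable fun ω => (∑ i, Y i ω) / √(n:ℝ) :=
    (Finset.measurable_sum _ (fun i _ => Ym i)).div_const _
  have S'm : ∀ i, Measurable fun ω => (∑ j ∈ Finset.univ.erase i, Y j ω) / √(n:ℝ) := fun i =>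
    (Finset.measurable_sum _ (fun i _ => Ym i)).div_const _
  have hSS : ∀ i ω, (∑ j, Y j ω) / √(n:ℝ)
      = (∑ j ∈ Finset.univ.erase i, Y j ω) / √(n:ℝ) + Y i ω / √n := by
    intro i ω
    rw [← Finset.sum_erase_add _ _ (Finset.mem_univ i), add_div]
  -- per index estimate
  have key : ∀ i, |∫ ω, h i ω * g ((∑ j, Y j ω) / √n) ∂P
      - c / √n * ∫ ω, g' ((∑ j, Y j ω) / √n) ∂P| ≤ 2 * G * B ^ 3 / n := by
    intro i
    set S' : Ω → ℝ := fun ω => (∑ j ∈ Finset.univ.erase i, Y j ω) / √(n:ℝ) with hS'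
    have d1 : ∫ ω, h i ω * g (S' ω) ∂P = 0 := by
      have := decouple hm Ym hind i (fun z => z.1) (fun z => g (z.2 / √(n:ℝ))) measurable_fst
        (t.mg.comp (measurable_snd.div_const _))
      simp only [hS']
      rw [this, eh i, zero_mul]
    have d2 : ∫ ω, h i ω * Y i ω * g' (S' ω) ∂P = c * ∫ ω, g' (S' ω) ∂P := by
      have := decouple hm Ym hind i (fun z => z.1 * z.2) (fun z => g' (z.2 / √(n:ℝ)))
        (measurable_fst.mul measurable_snd) (t.mg'.comp (measurable_snd.div_const _))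
      simp only [hS']
      rw [this, ec i]
    have i1 : Integrable (fun ω => h i ω * g ((∑ j, Y j ω) / √n)) P := by
      refine intg_bdd ((hm i).mul (t.mg.comp Sm)) (B * G) fun ω => ?_
      rw [abs_mul]; exact mul_le_mul (bh i ω) (t.bg _) (abs_nonneg _) hB
    have i2 : Integrable (fun ω => h i ω * g (S' ω)) P := by
      refine intg_bdd ((hm i).mul (t.mg.comp (S'm i))) (B * G) fun ω => ?_
      rw [abs_mul]; exact mul_le_mul (bh i ω) (t.bg _) (abs_nonneg _) hB
    have i3 : Integrable (fun ω => h i ω * Y i ω * g' (S' ω)) P := by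
      refine intg_bdd (((hm i).mul (Ym i)).mul (t.mg'.comp (S'm i))) (B * B * G) fun ω => ?_
      rw [abs_mul, abs_mul]
      exact mul_le_mul (mul_le_mul (bh i ω) (bY i ω) (abs_nonneg _) hB) (t.bg' _) (abs_nonneg _)
        (mul_nonneg hB hB)
    have c1 := int_close i1 (i2.add (i3.div_const (√(n:ℝ)))) (G * B ^ 3 / n) (fun ω => by
      simp only [Pi.add_apply]
      have h1 := t.tg (S' ω) (Y i ω / √n)
      rw [hSS i ω]
      have h2 : h i ω * g (S' ω + Y i ω / √n) - (h i ω * g (S' ω) + h i ω * Y i ω * g' (S' ω) / √n)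
          = h i ω * (g (S' ω + Y i ω / √n) - g (S' ω) - g' (S' ω) * (Y i ω / √n)) := by ring
      rw [h2, abs_mul]
      have h3 : G * (Y i ω / √n) ^ 2 ≤ G * B ^ 2 / n := by
        rw [div_pow, Real.sq_sqrt hn0.le, mul_div_assoc]
        have : (Y i ω) ^ 2 ≤ B ^ 2 := sq_le_sq' (by linarith [(abs_le.mp (bY i ω)).1])
          (abs_le.mp (bY i ω)).2
        gcongr
      calc |h i ω| * |g (S' ω + Y i ω / √n) - g (S' ω) - g' (S' ω) * (Y i ω / √n)|
          ≤ B * (G * B ^ 2 / n) := mul_le_mul (bh i ω) (h1.trans h3) (abs_nonneg _) hB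
        _ = G * B ^ 3 / n := by ring)
    rw [integral_add' i2 (i3.div_const _), integral_div, d1, d2, zero_add] at c1
    have hc : |c| ≤ B ^ 2 := by
      rw [← ec i]
      have := norm_integral_le_of_norm_le_const (μ := P) (f := fun ω => h i ω * Y i ω) (C := B ^ 2)
        (ae_of_all _ fun ω => by
          rw [Real.norm_eq_abs, abs_mul, sq]
          exact mul_le_mul (bh i ω) (bY i ω) (abs_nonneg _) hB)
      simpa using this
    have c2 := int_close (P := P) (f := fun ω => g' (S' ω)) (g := fun ω => g' ((∑ j, Y j ω) / √n))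
      (intg_bdd (t.mg'.comp (S'm i)) G fun ω => t.bg' _)
      (intg_bdd (t.mg'.comp Sm) G fun ω => t.bg' _) (G * B / √n) (fun ω => by
        have h1 := t.lg' (S' ω) (Y i ω / √n)
        rw [hSS i ω, abs_sub_comm]
        refine h1.trans ?_
        rw [abs_div, abs_of_pos hs, mul_div_assoc]
        have := bY i ω
        gcongr)
    have c3 : |c * (∫ ω, g' (S' ω) ∂P) / √n - c / √n * ∫ ω, g' ((∑ j, Y j ω) / √n) ∂P|
        ≤ G * B ^ 3 / n := by
      have : c * (∫ ω, g' (S' ω) ∂P) / √n - c / √n * ∫ ω, g' ((∑ j, Y j ω) / √n) ∂P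
          = c / √n * ((∫ ω, g' (S' ω) ∂P) - ∫ ω, g' ((∑ j, Y j ω) / √n) ∂P) := by ring
      rw [this, abs_mul, abs_div, abs_of_pos hs]
      calc |c| / √n * |(∫ ω, g' (S' ω) ∂P) - ∫ ω, g' ((∑ j, Y j ω) / √n) ∂P|
          ≤ B ^ 2 / √n * (G * B / √n) := by
            refine mul_le_mul ?_ c2 (abs_nonneg _) (by positivity)
            gcongr
        _ = G * B ^ 3 / (√n * √n) := by field_simp
        _ = G * B ^ 3 / n := by rw [hss]
    calc |∫ ω, h i ω * g ((∑ j, Y j ω) / √n) ∂P - c / √n * ∫ ω, g' ((∑ j, Y j ω) / √n) ∂P|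
        ≤ |∫ ω, h i ω * g ((∑ j, Y j ω) / √n) ∂P - c * (∫ ω, g' (S' ω) ∂P) / √n|
          + |c * (∫ ω, g' (S' ω) ∂P) / √n - c / √n * ∫ ω, g' ((∑ j, Y j ω) / √n) ∂P| :=
            abs_sub_le _ _ _
      _ ≤ G * B ^ 3 / n + G * B ^ 3 / n := add_le_add c1 c3
      _ = 2 * G * B ^ 3 / n := by ring
  have i1 : ∀ i, Integrable (fun ω => h i ω * g ((∑ j, Y j ω) / √n)) P := by
    intro i
    refine intg_bdd ((hm i).mul (t.mg.comp Sm)) (B * G) fun ω => ?_
    rw [abs_mul]; exact mul_le_mul (bh i ω) (t.bg _) (abs_nonneg _) hB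
  have e1 : ∫ ω, ((∑ i, h i ω) / √n) * g ((∑ i, Y i ω) / √n) ∂P
      = (∑ i, ∫ ω, h i ω * g ((∑ j, Y j ω) / √n) ∂P) / √n := by
    rw [← integral_finsetSum _ (fun i _ => i1 i), ← integral_div]
    refine integral_congr_ae (ae_of_all _ fun ω => ?_)
    simp only
    rw [← Finset.sum_mul]; ring
  have e2 : c * ∫ ω, g' ((∑ i, Y i ω) / √n) ∂P
      = (∑ i : Fin n, c / √n * ∫ ω, g' ((∑ j, Y j ω) / √n) ∂P) / √n := by
    rw [Finset.sum_const, Finset.card_univ, Fintype.card_fin, nsmul_eq_mul]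
    field_simp
    rw [Real.sq_sqrt hn0.le]
    ring
  rw [e1, e2, ← sub_div, ← Finset.sum_sub_distrib, abs_div, abs_of_pos hs]
  refine (div_le_div_of_nonneg_right (Finset.abs_sum_le_sum_abs _ _) hs.le).trans ?_
  refine (div_le_div_of_nonneg_right (Finset.sum_le_sum fun i _ => key i) hs.le).trans ?_
  rw [Finset.sum_const, Finset.card_univ, Fintype.card_fin, nsmul_eq_mul]
  rw [mul_div_cancel₀ _ hn0.ne']

/-- second moment of a partial sum -/
lemma second_moment {n : ℕ} {h Y : Fin n → Ω → ℝ} (hm : ∀ i, Measurable (h i))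
    (hind : iIndepFun (fun i ω => (h i ω, Y i ω)) P)
    {B : ℝ} (hB : 0 ≤ B) (bh : ∀ i ω, |h i ω| ≤ B)
    (eh : ∀ i, ∫ ω, h i ω ∂P = 0) (s : Finset (Fin n)) :
    ∫ ω, (∑ i ∈ s, h i ω) ^ 2 ∂P ≤ s.card * B ^ 2 := by
  have hind1 : iIndepFun h P := by
    have := hind.comp (fun _ => Prod.fst) (fun _ => measurable_fst)
    exact this
  have hL : ∀ i, MemLp (h i) 2 P := fun i =>
    MemLp.of_bound (hm i).aestronglyMeasurable B (ae_of_all _ (bh i))
  have hI : ∀ i, Integrable (h i) P := fun i => intg_bdd (hm i) B (bh i)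
  have e0 : (∑ i ∈ s, h i) = fun ω => ∑ i ∈ s, h i ω := by
    funext ω; rw [Finset.sum_apply]
  have e1 : ∫ ω, (∑ i ∈ s, h i) ω ∂P = 0 := by
    rw [e0, integral_finsetSum _ (fun i _ => hI i)]
    exact Finset.sum_eq_zero fun i _ => eh i
  have v := IndepFun.variance_sum (μ := P) (X := h) (s := s) (fun i _ => hL i)
    (fun i _ j _ hij => hind1.indepFun hij)
  rw [variance_of_integral_eq_zero (by
    rw [e0]; exact (Finset.measurable_sum _ (fun i _ => hm i)).aemeasurable) e1] at v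
  rw [e0] at v
  rw [v, ← nsmul_eq_mul]
  refine Finset.sum_le_card_nsmul _ _ _ fun i _ => ?_
  rw [variance_of_integral_eq_zero (hm i).aemeasurable (eh i)]
  calc ∫ ω, (h i ω) ^ 2 ∂P ≤ ∫ _ω, B ^ 2 ∂P := by
        refine integral_mono (intg_bdd ((hm i).pow_const 2) (B ^ 2) fun ω => ?_)
          (integrable_const _) fun ω => ?_
        · rw [abs_pow]; exact pow_le_pow_left₀ (abs_nonneg _) (bh i ω) 2
        · exact sq_le_sq' (by linarith [(abs_le.mp (bh i ω)).1]) (abs_le.mp (bh i ω)).2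
    _ = B ^ 2 := by simp

/-- second Stein estimate -/
lemma stein_two {n : ℕ} (hn : 1 ≤ n) {h Y : Fin n → Ω → ℝ} (hm : ∀ i, Measurable (h i))
    (Ym : ∀ i, Measurable (Y i)) (hind : iIndepFun (fun i ω => (h i ω, Y i ω)) P)
    {B c V G : ℝ} (hB : 0 ≤ B) (bh : ∀ i ω, |h i ω| ≤ B) (bY : ∀ i ω, |Y i ω| ≤ B)
    (eh : ∀ i, ∫ ω, h i ω ∂P = 0) (ec : ∀ i, ∫ ω, h i ω * Y i ω ∂P = c)
    (eV : ∀ i, ∫ ω, (h i ω) ^ 2 ∂P = V)
    {g g' : ℝ → ℝ} (t : Tst g g' G) :
    |∫ ω, ((∑ i, h i ω) / √n) ^ 2 * g ((∑ i, Y i ω) / √n) ∂P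
      - (V * (∫ ω, g ((∑ i, Y i ω) / √n) ∂P)
      + c * ∫ ω, ((∑ i, h i ω) / √n) * g' ((∑ i, Y i ω) / √n) ∂P)|
      ≤ G * B ^ 3 * (5 + 2 * B ^ 2) / √n := by
  have hG := t.G_nonneg
  have hn0 : (0:ℝ) < n := by exact_mod_cast hn
  have hs : (0:ℝ) < √n := Real.sqrt_pos.mpr hn0
  have hss : √(n:ℝ) * √n = n := Real.mul_self_sqrt hn0.le
  have Fm : Measurable fun ω => (∑ i, h i ω) / √(n:ℝ) :=
    (Finset.measurable_sum _ (fun i _ => hm i)).div_const _
  have F'm : ∀ i, Measurable fun ω => (∑ j ∈ Finset.univ.erase i, h j ω) / √(n:ℝ) := fun i =>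
    (Finset.measurable_sum _ (fun i _ => hm i)).div_const _
  have Sm : Measurable fun ω => (∑ i, Y i ω) / √(n:ℝ) :=
    (Finset.measurable_sum _ (fun i _ => Ym i)).div_const _
  have S'm : ∀ i, Measurable fun ω => (∑ j ∈ Finset.univ.erase i, Y j ω) / √(n:ℝ) := fun i =>
    (Finset.measurable_sum _ (fun i _ => Ym i)).div_const _
  have hSS : ∀ i ω, (∑ j, Y j ω) / √(n:ℝ)
      = (∑ j ∈ Finset.univ.erase i, Y j ω) / √(n:ℝ) + Y i ω / √n := by
    intro i ω
    rw [← Finset.sum_erase_add _ _ (Finset.mem_univ i), add_div]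
  have hFF : ∀ i ω, (∑ j, h j ω) / √(n:ℝ)
      = (∑ j ∈ Finset.univ.erase i, h j ω) / √(n:ℝ) + h i ω / √n := by
    intro i ω
    rw [← Finset.sum_erase_add _ _ (Finset.mem_univ i), add_div]
  -- crude bounds
  have bsum : ∀ (s : Finset (Fin n)) ω, |(∑ j ∈ s, h j ω) / √(n:ℝ)| ≤ n * B / √n := by
    intro s ω
    rw [abs_div, abs_of_pos hs]
    refine div_le_div_of_nonneg_right ?_ hs.le
    refine (Finset.abs_sum_le_sum_abs _ _).trans ?_
    refine (Finset.sum_le_sum fun i _ => bh i ω).trans ?_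
    rw [Finset.sum_const, nsmul_eq_mul]
    refine mul_le_mul_of_nonneg_right ?_ hB
    have := Finset.card_le_univ s
    rw [Fintype.card_fin] at this
    exact_mod_cast this
  set Q : ℝ := n * B / √n with hQ
  have hQ0 : 0 ≤ Q := by positivity
  have absV : |V| ≤ B ^ 2 := by
    have hne : Nonempty (Fin n) := ⟨⟨0, hn⟩⟩
    obtain ⟨i⟩ := hne
    rw [← eV i]
    have := norm_integral_le_of_norm_le_const (μ := P) (f := fun ω => (h i ω) ^ 2) (C := B ^ 2)
      (ae_of_all _ fun ω => by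
        rw [Real.norm_eq_abs, abs_pow]
        exact pow_le_pow_left₀ (abs_nonneg _) (bh i ω) 2)
    simpa using this
  have absc : |c| ≤ B ^ 2 := by
    have hne : Nonempty (Fin n) := ⟨⟨0, hn⟩⟩
    obtain ⟨i⟩ := hne
    rw [← ec i]
    have := norm_integral_le_of_norm_le_const (μ := P) (f := fun ω => h i ω * Y i ω) (C := B ^ 2)
      (ae_of_all _ fun ω => by
        rw [Real.norm_eq_abs, abs_mul, sq]
        exact mul_le_mul (bh i ω) (bY i ω) (abs_nonneg _) hB)
    simpa using this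
  have EF' : ∀ i, ∫ ω, |(∑ j ∈ Finset.univ.erase i, h j ω) / √(n:ℝ)| ∂P ≤ 1 + B ^ 2 := by
    intro i
    calc ∫ ω, |(∑ j ∈ Finset.univ.erase i, h j ω) / √(n:ℝ)| ∂P
        ≤ ∫ ω, (1 + (∑ j ∈ Finset.univ.erase i, h j ω) ^ 2 / n) ∂P := by
          refine integral_mono (intg_bdd (F'm i) Q (bsum _)).abs ?_ fun ω => ?_
          · refine (integrable_const _).add (Integrable.div_const ?_ _)
            refine intg_bdd ((Finset.measurable_sum _ (fun i _ => hm i)).pow_const 2)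
              ((n * B) ^ 2) fun ω => ?_
            rw [abs_pow]
            refine pow_le_pow_left₀ (abs_nonneg _) ?_ 2
            have := bsum (Finset.univ.erase i) ω
            rw [abs_div, abs_of_pos hs] at this
            rwa [hQ, div_le_div_iff_of_pos_right hs] at this
          · simp only
            have h1 : (∑ j ∈ Finset.univ.erase i, h j ω) ^ 2 / n
                = |(∑ j ∈ Finset.univ.erase i, h j ω) / √(n:ℝ)| ^ 2 := by
              rw [sq_abs, div_pow, Real.sq_sqrt hn0.le]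
            rw [h1]
            nlinarith [sq_nonneg (|(∑ j ∈ Finset.univ.erase i, h j ω) / √(n:ℝ)| - 1),
              abs_nonneg ((∑ j ∈ Finset.univ.erase i, h j ω) / √(n:ℝ))]
      _ = 1 + (∫ ω, (∑ j ∈ Finset.univ.erase i, h j ω) ^ 2 ∂P) / n := by
          rw [integral_add (integrable_const _), integral_div]
          · simp
          · refine (Integrable.div_const ?_ _)
            refine intg_bdd ((Finset.measurable_sum _ (fun i _ => hm i)).pow_const 2)
              ((n * B) ^ 2) fun ω => ?_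
            rw [abs_pow]
            refine pow_le_pow_left₀ (abs_nonneg _) ?_ 2
            have := bsum (Finset.univ.erase i) ω
            rw [abs_div, abs_of_pos hs] at this
            rwa [hQ, div_le_div_iff_of_pos_right hs] at this
      _ ≤ 1 + (n * B ^ 2) / n := by
          have h2 := second_moment hm hind hB bh eh (Finset.univ.erase i)
          have h3 : ((Finset.univ.erase i).card : ℝ) ≤ n := by
            have := Finset.card_le_univ (Finset.univ.erase i)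
            rw [Fintype.card_fin] at this
            exact_mod_cast this
          have h4 : ((Finset.univ.erase i).card : ℝ) * B ^ 2 ≤ n * B ^ 2 :=
            mul_le_mul_of_nonneg_right h3 (sq_nonneg _)
          gcongr
          exact h2.trans h4
      _ = 1 + B ^ 2 := by field_simp
  -- per index estimate
  have key : ∀ i, |∫ ω, h i ω * ((∑ j, h j ω) / √n) * g ((∑ j, Y j ω) / √n) ∂P
      - (V * (∫ ω, g ((∑ j, Y j ω) / √n) ∂P)
        + c * ∫ ω, ((∑ j, h j ω) / √n) * g' ((∑ j, Y j ω) / √n) ∂P) / √n|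
      ≤ G * B ^ 3 * (5 + 2 * B ^ 2) / n := by
    intro i
    set S' : Ω → ℝ := fun ω => (∑ j ∈ Finset.univ.erase i, Y j ω) / √(n:ℝ) with hS'
    set F' : Ω → ℝ := fun ω => (∑ j ∈ Finset.univ.erase i, h j ω) / √(n:ℝ) with hF'
    set S : Ω → ℝ := fun ω => (∑ j, Y j ω) / √(n:ℝ) with hS
    set F : Ω → ℝ := fun ω => (∑ j, h j ω) / √(n:ℝ) with hF
    have hSS' : ∀ ω, S ω = S' ω + Y i ω / √n := hSS i
    have hFF' : ∀ ω, F ω = F' ω + h i ω / √n := hFF i
    have bF : ∀ ω, |F ω| ≤ Q := bsum _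
    have bF' : ∀ ω, |F' ω| ≤ Q := bsum _
    have mS' : Measurable S' := S'm i
    have mF' : Measurable F' := F'm i
    have mS : Measurable S := Sm
    have mF : Measurable F := Fm
    have habsB : ∀ ω, (h i ω) ^ 2 ≤ B ^ 2 := fun ω =>
      sq_le_sq' (by linarith [(abs_le.mp (bh i ω)).1]) (abs_le.mp (bh i ω)).2
    -- (a)
    have d0 : ∫ ω, (h i ω) ^ 2 * g (S' ω) ∂P = V * ∫ ω, g (S' ω) ∂P := by
      have := decouple hm Ym hind i (fun z => z.1 ^ 2) (fun z => g (z.2 / √(n:ℝ)))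
        (measurable_fst.pow_const 2) (t.mg.comp (measurable_snd.div_const _))
      simp only [hS']
      rw [this, eV i]
    have j1 : Integrable (fun ω => (h i ω) ^ 2 * g (S ω)) P := by
      refine intg_bdd (((hm i).pow_const 2).mul (t.mg.comp mS)) (B ^ 2 * G) fun ω => ?_
      rw [abs_mul, abs_pow, sq_abs]
      exact mul_le_mul (habsB ω) (t.bg _) (abs_nonneg _) (sq_nonneg _)
    have j2 : Integrable (fun ω => (h i ω) ^ 2 * g (S' ω)) P := by
      refine intg_bdd (((hm i).pow_const 2).mul (t.mg.comp mS')) (B ^ 2 * G) fun ω => ?_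
      rw [abs_mul, abs_pow, sq_abs]
      exact mul_le_mul (habsB ω) (t.bg _) (abs_nonneg _) (sq_nonneg _)
    have ylt : ∀ ω, |Y i ω / √n| ≤ B / √n := fun ω => by
      rw [abs_div, abs_of_pos hs]
      exact div_le_div_of_nonneg_right (bY i ω) hs.le
    have gdiff : ∀ ω, |g (S ω) - g (S' ω)| ≤ G * (B / √n) := fun ω => by
      rw [hSS' ω]
      exact (t.lg _ _).trans (mul_le_mul_of_nonneg_left (ylt ω) hG)
    have gdiff' : ∀ ω, |g' (S ω) - g' (S' ω)| ≤ G * (B / √n) := fun ω => by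
      rw [hSS' ω]
      exact (t.lg' _ _).trans (mul_le_mul_of_nonneg_left (ylt ω) hG)
    have a1 := int_close j1 j2 (B ^ 2 * (G * (B / √n))) (fun ω => by
      rw [← mul_sub, abs_mul, abs_pow, sq_abs]
      exact mul_le_mul (habsB ω) (gdiff ω) (abs_nonneg _) (sq_nonneg _))
    have a2 := int_close (P := P) (f := fun ω => g (S ω)) (g := fun ω => g (S' ω))
      (intg_bdd (t.mg.comp mS) G fun ω => t.bg _)
      (intg_bdd (t.mg.comp mS') G fun ω => t.bg _) (G * (B / √n)) gdiff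
    have A : |∫ ω, (h i ω) ^ 2 * g (S ω) ∂P - V * ∫ ω, g (S ω) ∂P|
        ≤ 2 * (B ^ 2 * (G * (B / √n))) := by
      rw [d0] at a1
      have : ∫ ω, (h i ω) ^ 2 * g (S ω) ∂P - V * ∫ ω, g (S ω) ∂P
          = (∫ ω, (h i ω) ^ 2 * g (S ω) ∂P - V * ∫ ω, g (S' ω) ∂P)
            - V * (∫ ω, g (S ω) ∂P - ∫ ω, g (S' ω) ∂P) := by ring
      rw [this]
      refine (abs_sub _ _).trans ?_
      rw [abs_mul]
      have := mul_le_mul absV a2 (abs_nonneg _) (sq_nonneg _)
      linarith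
    -- (b)
    have d1 : ∫ ω, h i ω * F' ω * g (S' ω) ∂P = 0 := by
      have := decouple hm Ym hind i (fun z => z.1) (fun z => (z.1 / √(n:ℝ)) * g (z.2 / √(n:ℝ)))
        measurable_fst
        ((measurable_fst.div_const _).mul (t.mg.comp (measurable_snd.div_const _)))
      simp only [hS', hF', mul_assoc]
      rw [this, eh i, zero_mul]
    have d2 : ∫ ω, h i ω * Y i ω * (F' ω * g' (S' ω)) ∂P = c * ∫ ω, F' ω * g' (S' ω) ∂P := by
      have := decouple hm Ym hind i (fun z => z.1 * z.2)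
        (fun z => (z.1 / √(n:ℝ)) * g' (z.2 / √(n:ℝ)))
        (measurable_fst.mul measurable_snd)
        ((measurable_fst.div_const _).mul (t.mg'.comp (measurable_snd.div_const _)))
      simp only [hS', hF']
      rw [this, ec i]
    have i0 : Integrable (fun ω => h i ω * F' ω * g (S ω)) P := by
      refine intg_bdd (((hm i).mul mF').mul (t.mg.comp mS)) (B * Q * G) fun ω => ?_
      rw [abs_mul, abs_mul]
      exact mul_le_mul (mul_le_mul (bh i ω) (bF' ω) (abs_nonneg _) hB) (t.bg _) (abs_nonneg _)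
        (mul_nonneg hB hQ0)
    have i1 : Integrable (fun ω => h i ω * F' ω * g (S' ω)) P := by
      refine intg_bdd (((hm i).mul mF').mul (t.mg.comp mS')) (B * Q * G) fun ω => ?_
      rw [abs_mul, abs_mul]
      exact mul_le_mul (mul_le_mul (bh i ω) (bF' ω) (abs_nonneg _) hB) (t.bg _) (abs_nonneg _)
        (mul_nonneg hB hQ0)
    have i2 : Integrable (fun ω => h i ω * Y i ω * (F' ω * g' (S' ω))) P := by
      refine intg_bdd (((hm i).mul (Ym i)).mul (mF'.mul (t.mg'.comp mS'))) (B * B * (Q * G))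
        fun ω => ?_
      rw [abs_mul, abs_mul, abs_mul]
      exact mul_le_mul (mul_le_mul (bh i ω) (bY i ω) (abs_nonneg _) hB)
        (mul_le_mul (bF' ω) (t.bg' _) (abs_nonneg _) hQ0) (by positivity) (mul_nonneg hB hB)
    have iF' : Integrable (fun ω => |F' ω|) P := (intg_bdd mF' Q bF').abs
    have b1 := int_close' i0 (i1.add (i2.div_const (√(n:ℝ)))) (iF'.const_mul (G * B ^ 3 / n))
      (fun ω => by
        simp only [Pi.add_apply]
        have h1 := t.tg (S' ω) (Y i ω / √n)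
        rw [hSS' ω]
        have h2 : h i ω * F' ω * g (S' ω + Y i ω / √n)
            - (h i ω * F' ω * g (S' ω) + h i ω * Y i ω * (F' ω * g' (S' ω)) / √n)
            = h i ω * F' ω
              * (g (S' ω + Y i ω / √n) - g (S' ω) - g' (S' ω) * (Y i ω / √n)) := by ring
        rw [h2, abs_mul, abs_mul]
        have h3 : G * (Y i ω / √n) ^ 2 ≤ G * B ^ 2 / n := by
          rw [div_pow, Real.sq_sqrt hn0.le, mul_div_assoc]
          have : (Y i ω) ^ 2 ≤ B ^ 2 := sq_le_sq' (by linarith [(abs_le.mp (bY i ω)).1])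
            (abs_le.mp (bY i ω)).2
          gcongr
        calc |h i ω| * |F' ω| * |g (S' ω + Y i ω / √n) - g (S' ω) - g' (S' ω) * (Y i ω / √n)|
            ≤ B * |F' ω| * (G * B ^ 2 / n) := by
              refine mul_le_mul (mul_le_mul_of_nonneg_right (bh i ω) (abs_nonneg _)) (h1.trans h3)
                (abs_nonneg _) (by positivity)
          _ = G * B ^ 3 / n * |F' ω| := by ring)
    rw [integral_add' i1 (i2.div_const _), integral_div, d1, d2, zero_add, integral_const_mul] at b1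
    have b2 : |∫ ω, h i ω * F' ω * g (S ω) ∂P - c * (∫ ω, F' ω * g' (S' ω) ∂P) / √n|
        ≤ G * B ^ 3 / n * (1 + B ^ 2) :=
      b1.trans (mul_le_mul_of_nonneg_left (EF' i) (by positivity))
    -- (c)
    have k1 : Integrable (fun ω => F ω * g' (S ω)) P := by
      refine intg_bdd (mF.mul (t.mg'.comp mS)) (Q * G) fun ω => ?_
      rw [abs_mul]
      exact mul_le_mul (bF ω) (t.bg' _) (abs_nonneg _) hQ0
    have k2 : Integrable (fun ω => F' ω * g' (S' ω)) P := by
      refine intg_bdd (mF'.mul (t.mg'.comp mS')) (Q * G) fun ω => ?_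
      rw [abs_mul]
      exact mul_le_mul (bF' ω) (t.bg' _) (abs_nonneg _) hQ0
    have c1 := int_close' k2 k1 ((integrable_const (μ := P) (B / √n * G)).add
      (iF'.mul_const (G * (B / √n)))) (fun ω => by
        simp only [Pi.add_apply]
        have : F' ω * g' (S' ω) - F ω * g' (S ω)
            = -(h i ω / √n * g' (S ω)) - F' ω * (g' (S ω) - g' (S' ω)) := by
          rw [hFF' ω]; ring
        rw [this]
        refine (abs_sub _ _).trans ?_
        rw [abs_neg, abs_mul, abs_mul, abs_div, abs_of_pos hs]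
        refine add_le_add ?_ (mul_le_mul_of_nonneg_left (gdiff' ω) (abs_nonneg _))
        exact mul_le_mul (div_le_div_of_nonneg_right (bh i ω) hs.le) (t.bg' _) (abs_nonneg _)
          (by positivity))
    have e3 : ∫ ω, |F' ω| * (G * (B / √(n:ℝ))) ∂P = (∫ ω, |F' ω| ∂P) * (G * (B / √(n:ℝ))) :=
      integral_mul_const _ _
    rw [integral_add' (integrable_const _) (iF'.mul_const _), e3] at c1
    have c2 : |∫ ω, F' ω * g' (S' ω) ∂P - ∫ ω, F ω * g' (S ω) ∂P|
        ≤ G * B / √n * (2 + B ^ 2) := by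
      refine c1.trans ?_
      have := mul_le_mul_of_nonneg_right (EF' i) (by positivity : 0 ≤ G * (B / √(n:ℝ)))
      have e : ∫ _ω : Ω, B / √(n:ℝ) * G ∂P = B / √(n:ℝ) * G := by simp
      rw [e]
      calc B / √(n:ℝ) * G + (∫ ω, |F' ω| ∂P) * (G * (B / √n))
          ≤ B / √(n:ℝ) * G + (1 + B ^ 2) * (G * (B / √n)) := by linarith
        _ = G * B / √n * (2 + B ^ 2) := by ring
    have c3 : |c * (∫ ω, F' ω * g' (S' ω) ∂P) / √n - c * (∫ ω, F ω * g' (S ω) ∂P) / √n|
        ≤ B ^ 2 * (G * B / √n * (2 + B ^ 2)) / √n := by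
      rw [← sub_div, ← mul_sub, abs_div, abs_mul, abs_of_pos hs]
      refine div_le_div_of_nonneg_right ?_ hs.le
      exact mul_le_mul absc c2 (abs_nonneg _) (sq_nonneg _)
    -- combine
    have e1 : ∫ ω, h i ω * F ω * g (S ω) ∂P
        = ∫ ω, h i ω * F' ω * g (S ω) ∂P + (∫ ω, (h i ω) ^ 2 * g (S ω) ∂P) / √n := by
      rw [← integral_div, ← integral_add i0 (j1.div_const _)]
      refine integral_congr_ae (ae_of_all _ fun ω => ?_)
      simp only
      rw [hFF' ω]; ring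
    rw [e1]
    have A' : |(∫ ω, (h i ω) ^ 2 * g (S ω) ∂P) / √n - (V * ∫ ω, g (S ω) ∂P) / √n|
        ≤ 2 * (B ^ 2 * (G * (B / √n))) / √n := by
      rw [← sub_div, abs_div, abs_of_pos hs]
      exact div_le_div_of_nonneg_right A hs.le
    have hinv : (1:ℝ) / √(n:ℝ) / √(n:ℝ) = 1 / n := by
      rw [div_div, hss]
    have e2 : 2 * (B ^ 2 * (G * (B / √(n:ℝ)))) / √n = 2 * G * B ^ 3 / n := by
      have : 2 * (B ^ 2 * (G * (B / √(n:ℝ)))) / √n = 2 * G * B ^ 3 * (1 / √(n:ℝ) / √(n:ℝ)) := by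
        ring
      rw [this, hinv]; ring
    have e3 : B ^ 2 * (G * B / √(n:ℝ) * (2 + B ^ 2)) / √n = G * B ^ 3 * (2 + B ^ 2) / n := by
      have : B ^ 2 * (G * B / √(n:ℝ) * (2 + B ^ 2)) / √n
          = G * B ^ 3 * (2 + B ^ 2) * (1 / √(n:ℝ) / √(n:ℝ)) := by ring
      rw [this, hinv]; ring
    rw [e2] at A'
    rw [e3] at c3
    have e4 : G * B ^ 3 * (5 + 2 * B ^ 2) / (n:ℝ) = 2 * G * B ^ 3 / n + G * B ^ 3 / n * (1 + B ^ 2)
        + G * B ^ 3 * (2 + B ^ 2) / n := by ring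
    rw [e4]
    rw [abs_le] at A' b2 c3 ⊢
    rw [add_div]
    constructor
    · linarith [A'.1, b2.1, c3.1]
    · linarith [A'.2, b2.2, c3.2]
  have i1 : ∀ i, Integrable (fun ω => h i ω * ((∑ j, h j ω) / √n) * g ((∑ j, Y j ω) / √n)) P := by
    intro i
    refine intg_bdd (((hm i).mul Fm).mul (t.mg.comp Sm)) (B * Q * G) fun ω => ?_
    rw [abs_mul, abs_mul]
    exact mul_le_mul (mul_le_mul (bh i ω) (bsum _ ω) (abs_nonneg _) hB) (t.bg _) (abs_nonneg _)
      (mul_nonneg hB hQ0)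
  have e1 : ∫ ω, ((∑ i, h i ω) / √n) ^ 2 * g ((∑ i, Y i ω) / √n) ∂P
      = (∑ i, ∫ ω, h i ω * ((∑ j, h j ω) / √n) * g ((∑ j, Y j ω) / √n) ∂P) / √n := by
    rw [← integral_finsetSum _ (fun i _ => i1 i), ← integral_div]
    refine integral_congr_ae (ae_of_all _ fun ω => ?_)
    simp only
    rw [← Finset.sum_mul, ← Finset.sum_mul]; ring
  set W := V * (∫ ω, g ((∑ i, Y i ω) / √n) ∂P)
      + c * ∫ ω, ((∑ i, h i ω) / √n) * g' ((∑ i, Y i ω) / √n) ∂P with hW
  have e2 : W = (∑ i : Fin n, W / √n) / √n := by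
    rw [Finset.sum_const, Finset.card_univ, Fintype.card_fin, nsmul_eq_mul]
    field_simp
    rw [Real.sq_sqrt hn0.le]
  rw [e1, e2, ← sub_div, ← Finset.sum_sub_distrib, abs_div, abs_of_pos hs]
  refine (div_le_div_of_nonneg_right (Finset.abs_sum_le_sum_abs _ _) hs.le).trans ?_
  refine (div_le_div_of_nonneg_right (Finset.sum_le_sum fun i _ => key i) hs.le).trans ?_
  rw [Finset.sum_const, Finset.card_univ, Fintype.card_fin, nsmul_eq_mul]
  rw [mul_div_cancel₀ _ hn0.ne']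

end Stein
end R985.ML
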