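import Pool.Agent.R985.MLC
set_option autoImplicit false

open MeasureTheory ProbabilityTheory

namespace R985.ML

noncomputable def w0 (s : ℝ) : ℝ := Real.exp (-500 * s ^ 2)
noncomputable def w1 (s : ℝ) : ℝ := -1000 * s * w0 s
noncomputable def w2 (s : ℝ) : ℝ := (1000000 * s ^ 2 - 1000) * w0 s
noncomputable def w3 (s : ℝ) : ℝ := (-1000000000 * s ^ 3 + 3000000 * s) * w0 s

lemma hd0 (s : ℝ) : HasDerivAt w0 (w1 s) s := by
  have h : HasDerivAt (fun s : ℝ => -500 * s ^ 2) (-500 * (2 * s)) s := by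
    simpa using (hasDerivAt_pow 2 s).const_mul (-500 : ℝ)
  have := h.exp
  unfold w1 w0
  convert this using 1
  ring

lemma hd1 (s : ℝ) : HasDerivAt w1 (w2 s) s := by
  have h : HasDerivAt (fun s : ℝ => -1000 * s) (-1000) s := by
    simpa using (hasDerivAt_id s).const_mul (-1000 : ℝ)
  have := h.mul (hd0 s)
  have e : (fun s : ℝ => -1000 * s) * w0 = w1 := by funext s; rfl
  rw [e] at this
  refine this.congr_deriv ?_
  simp only [w2, w1]; ring

lemma hd2 (s : ℝ) : HasDerivAt w2 (w3 s) s := by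
  have h : HasDerivAt (fun s : ℝ => 1000000 * s ^ 2 - 1000) (1000000 * (2 * s)) s := by
    have := ((hasDerivAt_pow 2 s).const_mul (1000000 : ℝ)).sub_const 1000
    simpa using this
  have := h.mul (hd0 s)
  have e : (fun s : ℝ => 1000000 * s ^ 2 - 1000) * w0 = w2 := by funext s; rfl
  rw [e] at this
  refine this.congr_deriv ?_
  simp only [w3, w1]; ring

lemma w0_pos (s : ℝ) : 0 < w0 s := Real.exp_pos _

lemma w0_le (s : ℝ) : w0 s ≤ 1 := by
  unfold w0
  rw [Real.exp_le_one_iff]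
  nlinarith [sq_nonneg s]

lemma s2w (s : ℝ) : s ^ 2 * w0 s ≤ 1 := by
  have h := Real.add_one_le_exp (500 * s ^ 2)
  have h0 : w0 s * Real.exp (500 * s ^ 2) = 1 := by
    unfold w0; rw [← Real.exp_add]; simp
  have hw := w0_pos s
  nlinarith [mul_le_mul_of_nonneg_left h hw.le, sq_nonneg s, mul_nonneg hw.le (sq_nonneg s)]

lemma s4w (s : ℝ) : s ^ 4 * w0 s ≤ 1 := by
  have h := Real.pow_div_factorial_le_exp (x := 500 * s ^ 2) (by positivity) 2
  have h0 : w0 s * Real.exp (500 * s ^ 2) = 1 := by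
    unfold w0; rw [← Real.exp_add]; simp
  have hw := w0_pos s
  have h2 := mul_le_mul_of_nonneg_left h hw.le
  rw [h0] at h2
  have e : w0 s * ((500 * s ^ 2) ^ 2 / (Nat.factorial 2 : ℕ)) = 125000 * (s ^ 4 * w0 s) := by
    simp [Nat.factorial]; ring
  rw [e] at h2
  have : 0 ≤ s ^ 4 * w0 s := by positivity
  linarith

lemma s1w (s : ℝ) : |s| * w0 s ≤ 2 := by
  have h1 : |s| ≤ 1 + s ^ 2 := by nlinarith [sq_abs s, sq_nonneg (|s| - 1), abs_nonneg s]
  have := mul_le_mul_of_nonneg_right h1 (w0_pos s).le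
  nlinarith [s2w s, w0_le s]

lemma s3w (s : ℝ) : |s| ^ 3 * w0 s ≤ 2 := by
  have h1 : |s| ^ 3 ≤ s ^ 2 + s ^ 4 := by
    have e2 : s ^ 2 = |s| ^ 2 := (sq_abs s).symm
    have e4 : s ^ 4 = |s| ^ 4 := by rw [show (4:ℕ) = 2 * 2 from rfl, pow_mul, pow_mul, sq_abs]
    rw [e2, e4]
    nlinarith [abs_nonneg s, sq_nonneg (|s| - 1), mul_nonneg (sq_nonneg |s|) (sq_nonneg (|s| - 1)),
      sq_nonneg (|s|)]
  have := mul_le_mul_of_nonneg_right h1 (w0_pos s).le
  nlinarith [s2w s, s4w s]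

lemma bw0 (s : ℝ) : |w0 s| ≤ 10 ^ 10 := by
  rw [abs_of_pos (w0_pos s)]; linarith [w0_le s]

lemma bw1 (s : ℝ) : |w1 s| ≤ 10 ^ 10 := by
  unfold w1
  rw [abs_mul, abs_mul, abs_of_pos (w0_pos s)]
  have := s1w s
  have e : |(-1000:ℝ)| * |s| * w0 s = 1000 * (|s| * w0 s) := by
    rw [show |(-1000:ℝ)| = 1000 by norm_num]; ring
  rw [e]; linarith

lemma bw2 (s : ℝ) : |w2 s| ≤ 10 ^ 10 := by
  have e : w2 s = 1000000 * (s ^ 2 * w0 s) - 1000 * w0 s := by unfold w2; ring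
  have h1 := s2w s
  have h2 : 0 ≤ s ^ 2 * w0 s := mul_nonneg (sq_nonneg _) (w0_pos s).le
  have h3 := w0_le s
  have h4 := w0_pos s
  rw [e, abs_le]
  constructor <;> linarith

lemma bw3 (s : ℝ) : |w3 s| ≤ 10 ^ 10 := by
  have e : w3 s = -1000000000 * (s ^ 3 * w0 s) + 3000000 * (s * w0 s) := by unfold w3; ring
  have h1 : |s ^ 3 * w0 s| ≤ 2 := by
    rw [abs_mul, abs_pow, abs_of_pos (w0_pos s)]; exact s3w s
  have h2 : |s * w0 s| ≤ 2 := by
    rw [abs_mul, abs_of_pos (w0_pos s)]; exact s1w s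
  rw [abs_le] at h1 h2
  rw [e, abs_le]
  constructor <;> linarith [h1.1, h1.2, h2.1, h2.2]

lemma tst_of_deriv {f f' f'' : ℝ → ℝ} {G : ℝ} (h1 : ∀ s, HasDerivAt f (f' s) s)
    (h2 : ∀ s, HasDerivAt f' (f'' s) s) (b0 : ∀ s, |f s| ≤ G) (b1 : ∀ s, |f' s| ≤ G)
    (b2 : ∀ s, |f'' s| ≤ G) : Tst f f' G := by
  have c1 : Continuous f := continuous_iff_continuousAt.mpr fun s => (h1 s).continuousAt
  have c2 : Continuous f' := continuous_iff_continuousAt.mpr fun s => (h2 s).continuousAt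
  have L : ∀ {g g' : ℝ → ℝ} (_ : ∀ s, HasDerivAt g (g' s) s) (_ : ∀ s, |g' s| ≤ G) (s δ : ℝ),
      |g (s + δ) - g s| ≤ G * |δ| := by
    intro g g' hg hb s δ
    have := Convex.norm_image_sub_le_of_norm_hasDerivWithin_le (f := g) (f' := g') (s := Set.univ)
      (x := s) (y := s + δ) (C := G) (fun x _ => (hg x).hasDerivWithinAt)
      (fun x _ => hb x) convex_univ (Set.mem_univ _) (Set.mem_univ _)
    simpa using this
  refine ⟨c1.measurable, c2.measurable, b0, b1, L h1 b1, L h2 b2, ?_⟩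
  intro s δ
  -- g(u) = f u - f' s * u on the segment [s, s+δ]
  have hG : 0 ≤ G := (abs_nonneg _).trans (b0 0)
  have := Convex.norm_image_sub_le_of_norm_hasDerivWithin_le
    (f := fun u => f u - f' s * u) (f' := fun u => f' u - f' s) (s := Set.uIcc s (s + δ))
    (x := s) (y := s + δ) (C := G * |δ|)
    (fun x _ => by
      have h3 : HasDerivAt (fun u => f u - f' s * u) (f' x - f' s) x :=
        ((h1 x).sub ((hasDerivAt_id x).const_mul (f' s))).congr_deriv (by simp)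
      exact h3.hasDerivWithinAt)
    (fun x hx => by
      have := L h2 b2 s (x - s)
      rw [add_sub_cancel] at this
      refine this.trans (mul_le_mul_of_nonneg_left ?_ hG)
      have hx' := Set.abs_sub_left_of_mem_uIcc hx
      simpa using hx')
    (convex_uIcc _ _) Set.left_mem_uIcc Set.right_mem_uIcc
  have e1 : (f (s + δ) - f' s * (s + δ)) - (f s - f' s * s) = f (s + δ) - f s - f' s * δ := by ring
  simp only [Real.norm_eq_abs, add_sub_cancel_left] at this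
  rw [e1] at this
  calc |f (s + δ) - f s - f' s * δ| ≤ G * |δ| * |δ| := this
    _ = G * δ ^ 2 := by rw [mul_assoc, abs_mul_abs_self, sq]

lemma tst0 : Tst w0 w1 (10 ^ 10) := tst_of_deriv hd0 hd1 bw0 bw1 bw2
lemma tst1 : Tst w1 w2 (10 ^ 10) := tst_of_deriv hd1 hd2 bw1 bw2 bw3

section Fourth
variable {Ω : Type*} [MeasurableSpace Ω] {P : Measure Ω} [IsProbabilityMeasure P]

/-- fourth moment bound -/
lemma fourth_moment {n : ℕ} (hn : 1 ≤ n) {t : Fin n → Ω → ℝ} (tm : ∀ i, Measurable (t i))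
    (hind : iIndepFun (fun i ω => (t i ω, t i ω)) P)
    {B : ℝ} (hB : 0 ≤ B) (bt : ∀ i ω, |t i ω| ≤ B) (et : ∀ i, ∫ ω, t i ω ∂P = 0) :
    ∫ ω, ((∑ i, t i ω) / √n) ^ 4 ∂P ≤ 4 * B ^ 4 := by
  have hn0 : (0:ℝ) < n := by exact_mod_cast hn
  have hs : (0:ℝ) < √n := Real.sqrt_pos.mpr hn0
  have hss : √(n:ℝ) * √n = n := Real.mul_self_sqrt hn0.le
  have Tm : Measurable fun ω => (∑ i, t i ω) := Finset.measurable_sum _ (fun i _ => tm i)
  have T'm : ∀ i, Measurable fun ω => (∑ j ∈ Finset.univ.erase i, t j ω) := fun i =>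
    Finset.measurable_sum _ (fun i _ => tm i)
  have bsum : ∀ (s : Finset (Fin n)) ω, |∑ j ∈ s, t j ω| ≤ n * B := by
    intro s ω
    refine (Finset.abs_sum_le_sum_abs _ _).trans ?_
    refine (Finset.sum_le_sum fun i _ => bt i ω).trans ?_
    rw [Finset.sum_const, nsmul_eq_mul]
    refine mul_le_mul_of_nonneg_right ?_ hB
    have := Finset.card_le_univ s
    rw [Fintype.card_fin] at this
    exact_mod_cast this
  have hnB : 0 ≤ n * B := by positivity
  have key : ∀ i, ∫ ω, t i ω * (∑ j, t j ω) ^ 3 ∂P ≤ 4 * n * B ^ 4 := by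
    intro i
    set U : Ω → ℝ := fun ω => ∑ j ∈ Finset.univ.erase i, t j ω with hU
    have hT : ∀ ω, ∑ j, t j ω = U ω + t i ω := fun ω => by
      rw [hU, Finset.sum_erase_add _ _ (Finset.mem_univ i)]
    have mU : Measurable U := T'm i
    have bU : ∀ ω, |U ω| ≤ n * B := bsum _
    have dec : ∀ (a b : ℕ), ∫ ω, (t i ω) ^ a * (U ω) ^ b ∂P
        = (∫ ω, (t i ω) ^ a ∂P) * ∫ ω, (U ω) ^ b ∂P := by
      intro a b
      exact decouple tm tm hind i (fun z => z.1 ^ a) (fun z => z.1 ^ b)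
        (measurable_fst.pow_const a) (measurable_fst.pow_const b)
    have ig : ∀ (a b : ℕ), Integrable (fun ω => (t i ω) ^ a * (U ω) ^ b) P := by
      intro a b
      refine intg_bdd (((tm i).pow_const a).mul (mU.pow_const b)) (B ^ a * (n * B) ^ b)
        fun ω => ?_
      rw [abs_mul, abs_pow, abs_pow]
      exact mul_le_mul (pow_le_pow_left₀ (abs_nonneg _) (bt i ω) a)
        (pow_le_pow_left₀ (abs_nonneg _) (bU ω) b) (by positivity) (by positivity)
    have eU1 : ∫ ω, (U ω) ^ 1 ∂P = 0 := by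
      simp only [pow_one, hU]
      rw [integral_finsetSum _ (fun j _ => intg_bdd (tm j) B (bt j))]
      exact Finset.sum_eq_zero fun j _ => et j
    have e1 : ∫ ω, (t i ω) ^ 1 ∂P = 0 := by simpa using et i
    have expand : ∫ ω, t i ω * (∑ j, t j ω) ^ 3 ∂P
        = ∫ ω, (t i ω) ^ 1 * (U ω) ^ 3 ∂P + 3 * ∫ ω, (t i ω) ^ 2 * (U ω) ^ 2 ∂P
          + 3 * ∫ ω, (t i ω) ^ 3 * (U ω) ^ 1 ∂P + ∫ ω, (t i ω) ^ 4 * (U ω) ^ 0 ∂P := by
      have q2 : Integrable (fun ω => 3 * ((t i ω) ^ 2 * (U ω) ^ 2)) P := (ig 2 2).const_mul 3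
      have q3 : Integrable (fun ω => 3 * ((t i ω) ^ 3 * (U ω) ^ 1)) P := (ig 3 1).const_mul 3
      have q12 : Integrable (fun ω => (t i ω) ^ 1 * (U ω) ^ 3
        + 3 * ((t i ω) ^ 2 * (U ω) ^ 2)) P := (ig 1 3).add q2
      have q123 : Integrable (fun ω => (t i ω) ^ 1 * (U ω) ^ 3
        + 3 * ((t i ω) ^ 2 * (U ω) ^ 2) + 3 * ((t i ω) ^ 3 * (U ω) ^ 1)) P := q12.add q3
      rw [← integral_const_mul, ← integral_const_mul,
        ← integral_add (ig 1 3) q2, ← integral_add q12 q3, ← integral_add q123 (ig 4 0)]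
      refine integral_congr_ae (ae_of_all _ fun ω => ?_)
      simp only
      rw [hT ω]; ring
    rw [expand, dec 1 3, dec 3 1, eU1, e1, dec 2 2]
    have m2 : ∫ ω, (t i ω) ^ 2 ∂P ≤ B ^ 2 := by
      calc ∫ ω, (t i ω) ^ 2 ∂P ≤ ∫ _ω, B ^ 2 ∂P := by
            refine integral_mono (intg_bdd ((tm i).pow_const 2) (B ^ 2) fun ω => ?_)
              (integrable_const _) fun ω => ?_
            · rw [abs_pow]; exact pow_le_pow_left₀ (abs_nonneg _) (bt i ω) 2
            · exact sq_le_sq' (by linarith [(abs_le.mp (bt i ω)).1]) (abs_le.mp (bt i ω)).2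
        _ = B ^ 2 := by simp
    have m2' : 0 ≤ ∫ ω, (t i ω) ^ 2 ∂P := integral_nonneg fun ω => sq_nonneg _
    have u2 : ∫ ω, (U ω) ^ 2 ∂P ≤ n * B ^ 2 := by
      have h2 := second_moment tm hind hB bt et (Finset.univ.erase i)
      have h3 : ((Finset.univ.erase i).card : ℝ) ≤ n := by
        have := Finset.card_le_univ (Finset.univ.erase i)
        rw [Fintype.card_fin] at this
        exact_mod_cast this
      exact h2.trans (mul_le_mul_of_nonneg_right h3 (sq_nonneg _))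
    have u2' : 0 ≤ ∫ ω, (U ω) ^ 2 ∂P := integral_nonneg fun ω => sq_nonneg _
    have m4 : ∫ ω, (t i ω) ^ 4 * (U ω) ^ 0 ∂P ≤ B ^ 4 := by
      calc ∫ ω, (t i ω) ^ 4 * (U ω) ^ 0 ∂P ≤ ∫ _ω, B ^ 4 ∂P := by
            refine integral_mono (ig 4 0) (integrable_const _) fun ω => ?_
            simp only [pow_zero, mul_one]
            have : (t i ω) ^ 4 = |t i ω| ^ 4 := by
              rw [show (4:ℕ) = 2 * 2 from rfl, pow_mul, pow_mul, sq_abs]
            rw [this]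
            exact pow_le_pow_left₀ (abs_nonneg _) (bt i ω) 4
        _ = B ^ 4 := by simp
    have h5 : (∫ ω, (t i ω) ^ 2 ∂P) * ∫ ω, (U ω) ^ 2 ∂P ≤ B ^ 2 * (n * B ^ 2) :=
      mul_le_mul m2 u2 u2' (sq_nonneg _)
    have h6 : B ^ 4 ≤ n * B ^ 4 := by
      have : (1:ℝ) ≤ n := by exact_mod_cast hn
      nlinarith [pow_nonneg hB 4]
    nlinarith
  have i1 : ∀ i, Integrable (fun ω => t i ω * (∑ j, t j ω) ^ 3) P := by
    intro i
    refine intg_bdd ((tm i).mul (Tm.pow_const 3)) (B * (n * B) ^ 3) fun ω => ?_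
    rw [abs_mul, abs_pow]
    exact mul_le_mul (bt i ω) (pow_le_pow_left₀ (abs_nonneg _) (bsum _ ω) 3) (by positivity) hB
  have e1 : ∫ ω, ((∑ i, t i ω) / √n) ^ 4 ∂P
      = (∑ i, ∫ ω, t i ω * (∑ j, t j ω) ^ 3 ∂P) / (n * n) := by
    rw [← integral_finsetSum _ (fun i _ => i1 i), ← integral_div]
    refine integral_congr_ae (ae_of_all _ fun ω => ?_)
    simp only
    rw [← Finset.sum_mul, div_pow]
    have : √(n:ℝ) ^ 4 = n * n := by
      calc √(n:ℝ) ^ 4 = (√(n:ℝ) * √n) * (√(n:ℝ) * √n) := by ring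
        _ = n * n := by rw [hss]
    rw [this]; ring
  rw [e1, div_le_iff₀ (by positivity)]
  refine (Finset.sum_le_sum fun i _ => key i).trans ?_
  rw [Finset.sum_const, Finset.card_univ, Fintype.card_fin, nsmul_eq_mul]
  apply le_of_eq; ring

end Fourth
end R985.ML
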