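import Pool.Agent.R985.MLDefs
import Pool.Agent.R985.MLD1
set_option autoImplicit false

open MeasureTheory ProbabilityTheory Set

namespace R985.ML

/-- integrals against `nu` of functions of `|x|` -/
lemma nu_integral (f : ℝ → ℝ) : ∫ x, f |x| ∂nu = 2 * ∫ t in (0:ℝ)..1, f t * ((4 - t) / 7) := by
  unfold nu
  have hm : Measurable ((Icc (-1 : ℝ) 1).indicator fun x : ℝ => ENNReal.ofReal ((4 - |x|) / 7)) := by
    refine Measurable.indicator ?_ measurableSet_Icc
    fun_prop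
  rw [integral_withDensity_eq_integral_toReal_smul hm (by
    refine ae_of_all _ fun x => ?_
    by_cases h : x ∈ Icc (-1:ℝ) 1
    · rw [indicator_of_mem h]; exact ENNReal.ofReal_lt_top
    · rw [indicator_of_notMem h]; exact ENNReal.zero_lt_top)]
  have e : ∀ x : ℝ, ((Icc (-1 : ℝ) 1).indicator (fun x : ℝ => ENNReal.ofReal ((4 - |x|) / 7)) x).toReal
      • f |x| = (fun t : ℝ => (Iic (1:ℝ)).indicator (fun t => f t * ((4 - t) / 7)) t) |x| := by
    intro x
    by_cases h : x ∈ Icc (-1:ℝ) 1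
    · have h' : |x| ≤ 1 := abs_le.mpr h
      rw [indicator_of_mem h]
      simp only
      rw [indicator_of_mem (by exact h' : |x| ∈ Iic (1:ℝ)), ENNReal.toReal_ofReal (by
        have := abs_nonneg x; linarith), smul_eq_mul, mul_comm]
    · have h' : ¬ |x| ≤ 1 := fun h2 => h (abs_le.mp h2)
      rw [indicator_of_notMem h]
      simp only
      rw [indicator_of_notMem (by exact h' : |x| ∉ Iic (1:ℝ))]
      simp
  simp_rw [e]
  rw [integral_comp_abs (f := fun t : ℝ => (Iic (1:ℝ)).indicator (fun t => f t * ((4 - t) / 7)) t)]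
  congr 1
  rw [intervalIntegral.integral_of_le zero_le_one, setIntegral_indicator measurableSet_Iic]
  congr 1

lemma poly_int (c : ℕ → ℝ) (N : ℕ) :
    ∫ t in (0:ℝ)..1, ∑ k ∈ Finset.range N, c k * t ^ k = ∑ k ∈ Finset.range N, c k / (k + 1) := by
  rw [intervalIntegral.integral_finsetSum]
  · refine Finset.sum_congr rfl fun k _ => ?_
    rw [intervalIntegral.integral_const_mul, integral_pow]
    simp [div_eq_mul_inv]
  · intro k _
    exact (continuous_const.mul (continuous_pow k)).intervalIntegrable _ _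

instance : IsProbabilityMeasure nu := by
  have h : ∫ _x : ℝ, (1:ℝ) ∂nu = 1 := by
    have h1 := nu_integral (fun _ => 1)
    have h2 : ∀ t : ℝ, (1:ℝ) * ((4 - t) / 7)
        = ∑ k ∈ Finset.range 2, ([4/7, -1/7].getD k 0) * t ^ k := by
      intro t; simp [Finset.sum_range_succ]; ring
    simp_rw [h2] at h1
    rw [poly_int] at h1
    rw [h1]; simp [Finset.sum_range_succ]; norm_num
  rw [integral_const, smul_eq_mul, mul_one, Measure.real] at h
  exact ⟨(ENNReal.toReal_eq_one_iff _).mp h⟩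

instance (n : ℕ) : IsProbabilityMeasure (P n) := by unfold P; infer_instance

lemma nu_ae : ∀ᵐ x ∂nu, |x| ≤ 1 := by
  unfold nu
  have hm : Measurable ((Icc (-1 : ℝ) 1).indicator fun x : ℝ => ENNReal.ofReal ((4 - |x|) / 7)) := by
    refine Measurable.indicator ?_ measurableSet_Icc
    fun_prop
  rw [ae_withDensity_iff hm]
  refine ae_of_all _ fun x hx => ?_
  by_contra h
  apply hx
  rw [indicator_of_notMem]
  intro h2
  exact h (abs_le.mpr h2)

lemma P_ae (n : ℕ) : ∀ᵐ x ∂(P n), ∀ i, |x i| ≤ 1 := by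
  rw [ae_all_iff]
  intro i
  have h := (measurePreserving_eval (fun _ : Fin n => nu) i).quasiMeasurePreserving.ae nu_ae
  exact h

lemma P_int (n : ℕ) (i : Fin n) (φ : ℝ → ℝ) (hφ : Measurable φ) :
    ∫ x, φ (x i) ∂(P n) = ∫ x, φ x ∂nu := by
  have h := measurePreserving_eval (fun _ : Fin n => nu) i
  conv_rhs => rw [← h.map_eq]
  rw [integral_map (by exact h.measurable.aemeasurable) hφ.aestronglyMeasurable]
  rfl

noncomputable def cl (x : ℝ) : ℝ := min |x| 1
noncomputable def hq (x : ℝ) : ℝ := (cl x) ^ 4 - (76 / 65) * (cl x) ^ 2 + 19 / 105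
noncomputable def yq (x : ℝ) : ℝ := cl x - 10 / 21
noncomputable def tq (x : ℝ) : ℝ := (cl x) ^ 2 - 13 / 42

lemma cl_meas : Measurable cl := by unfold cl; fun_prop
lemma hq_meas : Measurable hq := by
  unfold hq; exact ((cl_meas.pow_const 4).sub ((cl_meas.pow_const 2).const_mul _)).add_const _
lemma yq_meas : Measurable yq := by unfold yq; exact cl_meas.sub_const _
lemma tq_meas : Measurable tq := by unfold tq; exact (cl_meas.pow_const 2).sub_const _

lemma cl_mem (x : ℝ) : 0 ≤ cl x ∧ cl x ≤ 1 := ⟨le_min (abs_nonneg _) zero_le_one, min_le_right _ _⟩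
lemma cl_eq {x : ℝ} (h : |x| ≤ 1) : cl x = |x| := min_eq_left h

lemma hq_bd (x : ℝ) : |hq x| ≤ 2 := by
  obtain ⟨h0, h1⟩ := cl_mem x
  unfold hq
  have h2 : (cl x) ^ 2 ≤ 1 := pow_le_one₀ h0 h1
  have h4 : (cl x) ^ 4 ≤ 1 := pow_le_one₀ h0 h1
  have h2' : 0 ≤ (cl x) ^ 2 := by positivity
  have h4' : 0 ≤ (cl x) ^ 4 := by positivity
  rw [abs_le]; constructor <;> linarith
lemma yq_bd (x : ℝ) : |yq x| ≤ 2 := by
  obtain ⟨h0, h1⟩ := cl_mem x
  unfold yq
  rw [abs_le]; constructor <;> linarith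
lemma tq_bd (x : ℝ) : |tq x| ≤ 2 := by
  obtain ⟨h0, h1⟩ := cl_mem x
  unfold tq
  have h2 : (cl x) ^ 2 ≤ 1 := pow_le_one₀ h0 h1
  have h2' : 0 ≤ (cl x) ^ 2 := by positivity
  rw [abs_le]; constructor <;> linarith

lemma nu_cl (f : ℝ → ℝ) : ∫ x, f (cl x) ∂nu = 2 * ∫ t in (0:ℝ)..1, f t * ((4 - t) / 7) := by
  rw [← nu_integral]
  refine integral_congr_ae ?_
  filter_upwards [nu_ae] with x hx
  rw [cl_eq hx]

lemma nu_h : ∫ x, hq x ∂nu = 0 := by
  have h1 := nu_cl (fun t => t ^ 4 - (76 / 65) * t ^ 2 + 19 / 105)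
  have h2 : ∀ t : ℝ, (t ^ 4 - (76 / 65) * t ^ 2 + 19 / 105) * ((4 - t) / 7)
      = ∑ k ∈ Finset.range 6, ([(19/105)*(4/7), (19/105)*(-1/7), (-76/65)*(4/7), (76/65)*(1/7), 4/7, -1/7].getD k 0) * t ^ k := by
    intro t; simp [Finset.sum_range_succ]; ring
  simp_rw [h2] at h1
  rw [poly_int] at h1
  unfold hq
  rw [h1]; simp [Finset.sum_range_succ]; norm_num

lemma nu_y : ∫ x, yq x ∂nu = 0 := by
  have h1 := nu_cl (fun t => t - 10 / 21)
  have h2 : ∀ t : ℝ, (t - 10 / 21) * ((4 - t) / 7)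
      = ∑ k ∈ Finset.range 3, ([-(10/21)*(4/7), 4/7 + (10/21)*(1/7), -1/7].getD k 0) * t ^ k := by
    intro t; simp [Finset.sum_range_succ]; ring
  simp_rw [h2] at h1
  rw [poly_int] at h1
  unfold yq
  rw [h1]; simp [Finset.sum_range_succ]; norm_num

lemma nu_t : ∫ x, tq x ∂nu = 0 := by
  have h1 := nu_cl (fun t => t ^ 2 - 13 / 42)
  have h2 : ∀ t : ℝ, (t ^ 2 - 13 / 42) * ((4 - t) / 7)
      = ∑ k ∈ Finset.range 4, ([-(13/42)*(4/7), (13/42)*(1/7), 4/7, -1/7].getD k 0) * t ^ k := by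
    intro t; simp [Finset.sum_range_succ]; ring
  simp_rw [h2] at h1
  rw [poly_int] at h1
  unfold tq
  rw [h1]; simp [Finset.sum_range_succ]; norm_num

lemma nu_hh : ∫ x, hq x ^ 2 ∂nu = 137654/9316125 := by
  have h1 := nu_cl (fun t => (t ^ 4 - (76 / 65) * t ^ 2 + 19 / 105) ^ 2)
  have h2 : ∀ t : ℝ, ((t ^ 4 - (76 / 65) * t ^ 2 + 19 / 105) ^ 2) * ((4 - t) / 7)
      = ∑ k ∈ Finset.range 10, ([1444/77175, -361/77175, -11552/47775, 2888/47775, 613624/621075, -153406/621075, -608/455, 152/455, 4/7, -1/7].getD k 0) * t ^ k := by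
    intro t; simp [Finset.sum_range_succ]; ring
  simp_rw [h2] at h1
  rw [poly_int] at h1
  unfold hq
  rw [h1]; simp [Finset.sum_range_succ]; norm_num

lemma nu_hy : ∫ x, hq x * yq x ∂nu = -4504/143325 := by
  have h1 := nu_cl (fun t => (t ^ 4 - (76 / 65) * t ^ 2 + 19 / 105) * (t - 10 / 21))
  have h2 : ∀ t : ℝ, ((t ^ 4 - (76 / 65) * t ^ 2 + 19 / 105) * (t - 10 / 21)) * ((4 - t) / 7)
      = ∑ k ∈ Finset.range 7, ([-152/3087, 1786/15435, 19/65, -7144/9555, -1004/9555, 94/147, -1/7].getD k 0) * t ^ k := by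
    intro t; simp [Finset.sum_range_succ]; ring
  simp_rw [h2] at h1
  rw [poly_int] at h1
  unfold hq yq
  rw [h1]; simp [Finset.sum_range_succ]; norm_num

lemma nu_yy : ∫ x, yq x ^ 2 ∂nu = 73/882 := by
  have h1 := nu_cl (fun t => (t - 10 / 21) ^ 2)
  have h2 : ∀ t : ℝ, ((t - 10 / 21) ^ 2) * ((4 - t) / 7)
      = ∑ k ∈ Finset.range 4, ([400/3087, -1780/3087, 104/147, -1/7].getD k 0) * t ^ k := by
    intro t; simp [Finset.sum_range_succ]; ring
  simp_rw [h2] at h1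
  rw [poly_int] at h1
  unfold yq
  rw [h1]; simp [Finset.sum_range_succ]; norm_num

end R985.ML
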