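import Pool.Agent.R985.MLD2
set_option autoImplicit false

open MeasureTheory ProbabilityTheory Set

namespace R985.ML

noncomputable def Fn (n : ℕ) (x : Fin n → ℝ) : ℝ := (∑ i, hq (x i)) / √n
noncomputable def Sn (n : ℕ) (x : Fin n → ℝ) : ℝ := (∑ i, yq (x i)) / √n
noncomputable def Tn (n : ℕ) (x : Fin n → ℝ) : ℝ := (∑ i, tq (x i)) / √n

lemma meas_sum {n : ℕ} {φ : ℝ → ℝ} (h : Measurable φ) :
    Measurable fun x : Fin n → ℝ => (∑ i, φ (x i)) / √n :=
  (Finset.measurable_sum _ (fun i _ => h.comp (measurable_pi_apply i))).div_const _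

lemma Fn_meas (n : ℕ) : Measurable (Fn n) := meas_sum hq_meas
lemma Sn_meas (n : ℕ) : Measurable (Sn n) := meas_sum yq_meas
lemma Tn_meas (n : ℕ) : Measurable (Tn n) := meas_sum tq_meas

lemma indep_pair (n : ℕ) {φ ψ : ℝ → ℝ} (h1 : Measurable φ) (h2 : Measurable ψ) :
    iIndepFun (fun (i : Fin n) (x : Fin n → ℝ) => (φ (x i), ψ (x i))) (P n) := by
  unfold P
  exact iIndepFun_pi (μ := fun _ : Fin n => nu) (X := fun _ x => (φ x, ψ x))
    (fun i => (h1.prodMk h2).aemeasurable)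

lemma w0_meas : Measurable w0 := tst0.mg
lemma w1_meas : Measurable w1 := tst1.mg
lemma w2_meas : Measurable w2 := tst1.mg'

/-- `a_n` -/
noncomputable def an (n : ℕ) : ℝ := ∫ x, w0 (Sn n x) ∂(P n)

lemma bdsum {n : ℕ} (hn : 1 ≤ n) {φ : ℝ → ℝ} (h : ∀ x, |φ x| ≤ 2) (x : Fin n → ℝ) :
    |(∑ i, φ (x i)) / √n| ≤ 2 * √n := by
  have hn0 : (0:ℝ) < n := by exact_mod_cast hn
  have hs : (0:ℝ) < √n := Real.sqrt_pos.mpr hn0
  rw [abs_div, abs_of_pos hs, div_le_iff₀ hs, mul_assoc, Real.mul_self_sqrt hn0.le]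
  refine (Finset.abs_sum_le_sum_abs _ _).trans ?_
  refine (Finset.sum_le_sum fun i _ => h (x i)).trans ?_
  simp [mul_comm]

lemma second_sum {n : ℕ} (hn : 1 ≤ n) {φ : ℝ → ℝ} (hm : Measurable φ) (h : ∀ x, |φ x| ≤ 2)
    (h0 : ∫ x, φ x ∂nu = 0) :
    ∫ x, ((∑ i, φ (x i)) / √n) ^ 2 ∂(P n) ≤ 4 := by
  have hn0 : (0:ℝ) < n := by exact_mod_cast hn
  have := second_moment (P := P n) (h := fun i x => φ (x i)) (Y := fun i x => φ (x i))
    (fun i => hm.comp (measurable_pi_apply i)) (indep_pair n hm hm) (B := 2) (by norm_num)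
    (fun i x => h _) (fun i => by rw [P_int n i φ hm, h0]) Finset.univ
  have e : ∀ x : Fin n → ℝ, ((∑ i, φ (x i)) / √n) ^ 2 = (∑ i, φ (x i)) ^ 2 / n := by
    intro x; rw [div_pow, Real.sq_sqrt hn0.le]
  simp_rw [e]
  rw [integral_div, div_le_iff₀ hn0]
  simp only [Finset.card_univ, Fintype.card_fin] at this
  linarith

lemma an_ge {n : ℕ} (hn : 1 ≤ n) : Real.exp (-2000) ≤ an n := by
  have h1 : ∀ s : ℝ, Real.exp (-2000) * (2001 - 500 * s ^ 2) ≤ w0 s := by
    intro s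
    have h := Real.add_one_le_exp (-500 * s ^ 2 + 2000)
    have e : w0 s = Real.exp (-2000) * Real.exp (-500 * s ^ 2 + 2000) := by
      unfold w0; rw [← Real.exp_add]; congr 1; ring
    rw [e]
    refine mul_le_mul_of_nonneg_left ?_ (Real.exp_pos _).le
    linarith
  have hI : Integrable (fun x => (Sn n x) ^ 2) (P n) := by
    refine intg_bdd ((Sn_meas n).pow_const 2) ((2 * √n) ^ 2) fun x => ?_
    rw [abs_pow]
    exact pow_le_pow_left₀ (abs_nonneg _) (bdsum hn yq_bd x) 2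
  have h2 := second_sum hn yq_meas yq_bd nu_y
  calc Real.exp (-2000) = Real.exp (-2000) * (2001 - 500 * 4) := by norm_num
    _ ≤ Real.exp (-2000) * (2001 - 500 * ∫ x, (Sn n x) ^ 2 ∂(P n)) := by
        refine mul_le_mul_of_nonneg_left ?_ (Real.exp_pos _).le
        have : ∫ x, (Sn n x) ^ 2 ∂(P n) ≤ 4 := h2
        linarith
    _ = ∫ x, Real.exp (-2000) * (2001 - 500 * (Sn n x) ^ 2) ∂(P n) := by
        rw [integral_const_mul, integral_sub (integrable_const _) (hI.const_mul 500),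
          integral_const_mul]
        simp
    _ ≤ an n := by
        refine integral_mono (((integrable_const _).sub (hI.const_mul 500)).const_mul _)
          (intg_bdd (w0_meas.comp (Sn_meas n)) 1 fun x => ?_) fun x => h1 _
        rw [abs_of_pos (w0_pos _)]; exact w0_le _

lemma main_bound : ∃ K : ℝ, 0 ≤ K ∧ ∀ n : ℕ, 1 ≤ n →
    ∫ x, (Fn n x) ^ 2 * w0 (Sn n x) ∂(P n) ≤ 1027873214 / 344146973625 * an n + K / √n := by
  refine ⟨10 ^ 13, by norm_num, fun n hn => ?_⟩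
  have hn0 : (0:ℝ) < n := by exact_mod_cast hn
  have hs : (0:ℝ) < √n := Real.sqrt_pos.mpr hn0
  have mh : ∀ i : Fin n, Measurable fun x : Fin n → ℝ => hq (x i) := fun i =>
    hq_meas.comp (measurable_pi_apply i)
  have my : ∀ i : Fin n, Measurable fun x : Fin n → ℝ => yq (x i) := fun i =>
    yq_meas.comp (measurable_pi_apply i)
  have eh : ∀ i : Fin n, ∫ x, hq (x i) ∂(P n) = 0 := fun i => by rw [P_int n i hq hq_meas, nu_h]
  have ey : ∀ i : Fin n, ∫ x, yq (x i) ∂(P n) = 0 := fun i => by rw [P_int n i yq yq_meas, nu_y]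
  have ehh : ∀ i : Fin n, ∫ x, (hq (x i)) ^ 2 ∂(P n) = 137654/9316125 := fun i => by
    rw [P_int n i (fun x => hq x ^ 2) (hq_meas.pow_const 2), nu_hh]
  have ehy : ∀ i : Fin n, ∫ x, hq (x i) * yq (x i) ∂(P n) = -4504/143325 := fun i => by
    rw [P_int n i (fun x => hq x * yq x) (hq_meas.mul yq_meas), nu_hy]
  have eyy : ∀ i : Fin n, ∫ x, yq (x i) * yq (x i) ∂(P n) = 73/882 := fun i => by
    rw [P_int n i (fun x => yq x * yq x) (yq_meas.mul yq_meas), ← nu_yy]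
    congr 1; funext x; ring
  have s2 := stein_two (P := P n) hn mh my (indep_pair n hq_meas yq_meas) (B := 2) (by norm_num)
    (fun i x => hq_bd _) (fun i x => yq_bd _) eh ehy ehh tst0
  have s1 := stein_one (P := P n) hn mh my (indep_pair n hq_meas yq_meas) (B := 2) (by norm_num)
    (fun i x => hq_bd _) (fun i x => yq_bd _) eh ehy tst1
  have s0 := stein_one (P := P n) hn my my (indep_pair n yq_meas yq_meas) (B := 2) (by norm_num)
    (fun i x => yq_bd _) (fun i x => yq_bd _) ey eyy tst1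
  have hI : Integrable (fun x => (Sn n x) ^ 2 * w0 (Sn n x)) (P n) := by
    refine intg_bdd (((Sn_meas n).pow_const 2).mul (w0_meas.comp (Sn_meas n))) 1 fun x => ?_
    rw [abs_of_nonneg (mul_nonneg (sq_nonneg _) (w0_pos _).le)]
    exact s2w _
  have hI0 : Integrable (fun x => w0 (Sn n x)) (P n) := by
    refine intg_bdd (w0_meas.comp (Sn_meas n)) 1 fun x => ?_
    rw [abs_of_pos (w0_pos _)]; exact w0_le _
  set r : ℝ := ∫ x, (Sn n x) ^ 2 * w0 (Sn n x) ∂(P n) with hr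
  have e1 : ∫ x, (∑ i, yq (x i)) / √n * w1 ((∑ i, yq (x i)) / √n) ∂(P n) = -1000 * r := by
    rw [hr, ← integral_const_mul]
    refine integral_congr_ae (ae_of_all _ fun x => ?_)
    simp only [w1, Sn]; ring
  have e2 : ∫ x, w2 ((∑ i, yq (x i)) / √n) ∂(P n) = 1000000 * r - 1000 * an n := by
    rw [hr, an, ← integral_const_mul, ← integral_const_mul,
      ← integral_sub (hI.const_mul _) (hI0.const_mul _)]
    refine integral_congr_ae (ae_of_all _ fun x => ?_)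
    simp only [w2, Sn]; ring
  rw [e1, e2] at s0
  rw [e2] at s1
  have e3 : ∫ x, ((∑ i, hq (x i)) / √n) ^ 2 * w0 ((∑ i, yq (x i)) / √n) ∂(P n)
      = ∫ x, (Fn n x) ^ 2 * w0 (Sn n x) ∂(P n) := rfl
  have e4 : ∫ x, w0 ((∑ i, yq (x i)) / √n) ∂(P n) = an n := rfl
  rw [e3, e4] at s2
  set X := ∫ x, (∑ i, hq (x i)) / √n * w1 ((∑ i, yq (x i)) / √n) ∂(P n) with hX
  set Z := ∫ x, (Fn n x) ^ 2 * w0 (Sn n x) ∂(P n) with hZ
  have he : ∀ c : ℝ, c / √(n:ℝ) = c * (1 / √n) := fun c => by ring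
  rw [he] at s0 s1 s2 ⊢
  set e : ℝ := 1 / √(n:ℝ) with hee
  have he0 : 0 < e := by positivity
  rw [abs_le] at s0 s1 s2
  obtain ⟨a1, a2⟩ := s0
  obtain ⟨b1, b2⟩ := s1
  obtain ⟨c1, c2⟩ := s2
  norm_num at a1 a2 b1 b2 c1 c2 ⊢
  nlinarith
  
end R985.ML
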