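import Pool.Agent.R985.MLD3
set_option autoImplicit false

open MeasureTheory ProbabilityTheory Set

namespace R985.ML

lemma S_eq {n : ℕ} {x : Fin n → ℝ} (h : ∀ i, |x i| ≤ 1) : S n x = Sn n x := by
  unfold S Sn yq
  congr 1
  exact Finset.sum_congr rfl fun i _ => by rw [cl_eq (h i)]

lemma S_meas (n : ℕ) : Measurable (S n) := by
  unfold S
  refine (Finset.measurable_sum _ fun i _ => ?_).div_const _
  exact (((measurable_pi_apply i).abs).sub_const _)

lemma Wt_meas (n : ℕ) : Measurable (Wt n) := by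
  unfold Wt
  have := S_meas n
  fun_prop

lemma Wt_pos (n : ℕ) (x : Fin n → ℝ) : 0 < Wt n x := Real.exp_pos _

lemma Wt_ge (n : ℕ) (x : Fin n → ℝ) : w0 (S n x) ≤ Wt n x := by
  unfold w0 Wt
  refine Real.exp_le_exp.mpr ?_
  nlinarith [sq_nonneg (min (S n x + √n / 4000) 0)]

lemma Wt_le (n : ℕ) (x : Fin n → ℝ) : Wt n x ≤ 1 := by
  unfold Wt
  rw [Real.exp_le_one_iff]
  have hs : 0 ≤ √(n:ℝ) := Real.sqrt_nonneg _
  rcases le_total 0 (S n x + √n / 4000) with h | h
  · rw [min_eq_right h]; nlinarith [sq_nonneg (S n x)]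
  · rw [min_eq_left h]
    nlinarith

lemma Wt_sub_le (n : ℕ) (x : Fin n → ℝ) : Wt n x - w0 (S n x) ≤ Real.exp (-(n / 32000)) := by
  have hs : 0 ≤ √(n:ℝ) := Real.sqrt_nonneg _
  have hss : √(n:ℝ) * √n = n := Real.mul_self_sqrt (Nat.cast_nonneg n)
  rcases le_total 0 (S n x + √n / 4000) with h | h
  · have : Wt n x = w0 (S n x) := by
      unfold Wt w0; rw [min_eq_right h]; congr 1; ring
    rw [this, sub_self]; exact (Real.exp_pos _).le
  · have h1 : Wt n x ≤ Real.exp (-(n / 32000)) := by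
      unfold Wt
      refine Real.exp_le_exp.mpr ?_
      rw [min_eq_left h]
      nlinarith
    linarith [w0_pos (S n x)]

lemma an_le_Zn {n : ℕ} : an n ≤ Zn n := by
  unfold an Zn
  refine integral_mono_ae ?_ ?_ ?_
  · exact intg_bdd (w0_meas.comp (Sn_meas n)) 1 fun x => by
      rw [abs_of_pos (w0_pos _)]; exact w0_le _
  · exact intg_bdd (Wt_meas n) 1 fun x => by
      rw [abs_of_pos (Wt_pos _ _)]; exact Wt_le _ _
  · filter_upwards [P_ae n] with x hx
    rw [← S_eq hx]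
    exact Wt_ge n x

/-- the (un-normalised) polynomial, as a function -/
noncomputable def pf (n : ℕ) (x : Fin n → ℝ) : ℝ :=
  ∑ i, (x i) ^ 4 - (1596 / 845) / n * (∑ i, (x i) ^ 2) ^ 2

lemma pf_eq {n : ℕ} (hn : 1 ≤ n) {x : Fin n → ℝ} (h : ∀ i, |x i| ≤ 1) :
    pf n x = √n * Fn n x - (1596 / 845) * (Tn n x) ^ 2 := by
  have hn0 : (0:ℝ) < n := by exact_mod_cast hn
  have hs : (0:ℝ) < √n := Real.sqrt_pos.mpr hn0
  have hss : √(n:ℝ) * √n = n := Real.mul_self_sqrt hn0.le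
  have e4 : ∀ i, (x i) ^ 4 = (cl (x i)) ^ 4 := fun i => by
    rw [cl_eq (h i)]
    rw [show (4:ℕ) = 2 * 2 from rfl, pow_mul, pow_mul, sq_abs]
  have e2 : ∀ i, (x i) ^ 2 = (cl (x i)) ^ 2 := fun i => by rw [cl_eq (h i), sq_abs]
  have hF : ∑ i, hq (x i) = √n * Fn n x := by unfold Fn; field_simp
  have hT : ∑ i, tq (x i) = √n * Tn n x := by unfold Tn; field_simp
  have h4 : ∑ i, (x i) ^ 4 = ∑ i, hq (x i) + (76 / 65) * ∑ i, (x i) ^ 2 - n * (19 / 105) := by
    rw [Finset.mul_sum, ← Finset.sum_add_distrib]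
    have : (n:ℝ) * (19 / 105) = ∑ _i : Fin n, (19 / 105 : ℝ) := by simp
    rw [this, ← Finset.sum_sub_distrib]
    refine Finset.sum_congr rfl fun i _ => ?_
    rw [e4 i, e2 i]; unfold hq; ring
  have h2 : ∑ i, (x i) ^ 2 = ∑ i, tq (x i) + n * (13 / 42) := by
    have : (n:ℝ) * (13 / 42) = ∑ _i : Fin n, (13 / 42 : ℝ) := by simp
    rw [this, ← Finset.sum_add_distrib]
    refine Finset.sum_congr rfl fun i _ => ?_
    rw [e2 i]; unfold tq; ring
  unfold pf
  rw [h4, h2, hF, hT]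
  have h5 : (1596 / 845 : ℝ) / n * (√n * Tn n x + n * (13 / 42)) ^ 2
      = (1596 / 845) * (Tn n x) ^ 2 + 2 * (1596 / 845) * (13 / 42) * (√n * Tn n x)
        + n * ((1596 / 845) * (13 / 42) ^ 2) := by
    have : (√n * Tn n x + n * (13 / 42)) ^ 2
        = n * ((Tn n x) ^ 2 + 2 * (13 / 42) * (√n * Tn n x) + n * (13 / 42) ^ 2) := by
      calc (√n * Tn n x + n * (13 / 42)) ^ 2
          = (√n * √n) * (Tn n x) ^ 2 + 2 * (13 / 42) * (√n * Tn n x) * n
            + n * n * (13 / 42) ^ 2 := by ring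
        _ = _ := by rw [hss]; ring
    rw [this]; field_simp
  rw [h5]; ring

lemma pf_meas (n : ℕ) : Measurable (pf n) := by
  unfold pf
  refine (Finset.measurable_sum _ fun i _ => (measurable_pi_apply i).pow_const 4).sub ?_
  exact ((Finset.measurable_sum _ fun i _ => (measurable_pi_apply i).pow_const 2).pow_const 2).const_mul _

lemma pf_sq_int : ∃ K : ℝ, 0 ≤ K ∧ ∀ n : ℕ, 1 ≤ n →
    (∫ x, (pf n x) ^ 2 * Wt n x ∂(P n)) / Zn n / n
      ≤ 1.1 * (1027873214 / 344146973625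
        + (K / √n + 4 * (n * Real.exp (-(n / 32000)))) / Real.exp (-2000))
        + 11 * (1596 / 845) ^ 2 * 64 / (n * Real.exp (-2000)) := by
  obtain ⟨K, hK, hmain⟩ := main_bound
  refine ⟨K, hK, fun n hn => ?_⟩
  have hn0 : (0:ℝ) < n := by exact_mod_cast hn
  have hs : (0:ℝ) < √n := Real.sqrt_pos.mpr hn0
  have hss : √(n:ℝ) * √n = n := Real.mul_self_sqrt hn0.le
  have ha := an_ge hn
  have hE : 0 < Real.exp (-2000) := Real.exp_pos _
  have hZ : an n ≤ Zn n := an_le_Zn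
  have hZ0 : 0 < Zn n := by linarith
  have bF : ∀ x, |Fn n x| ≤ 2 * √n := bdsum hn hq_bd
  have bT : ∀ x, |Tn n x| ≤ 2 * √n := bdsum hn tq_bd
  have iFW : Integrable (fun x => (Fn n x) ^ 2 * Wt n x) (P n) := by
    refine intg_bdd (((Fn_meas n).pow_const 2).mul (Wt_meas n)) ((2 * √n) ^ 2 * 1) fun x => ?_
    rw [abs_mul, abs_pow, abs_of_pos (Wt_pos _ _)]
    exact mul_le_mul (pow_le_pow_left₀ (abs_nonneg _) (bF x) 2) (Wt_le _ _) (Wt_pos _ _).le
      (by positivity)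
  have iFw : Integrable (fun x => (Fn n x) ^ 2 * w0 (Sn n x)) (P n) := by
    refine intg_bdd (((Fn_meas n).pow_const 2).mul (w0_meas.comp (Sn_meas n)))
      ((2 * √n) ^ 2 * 1) fun x => ?_
    rw [abs_mul, abs_pow, abs_of_pos (w0_pos _)]
    exact mul_le_mul (pow_le_pow_left₀ (abs_nonneg _) (bF x) 2) (w0_le _) (w0_pos _).le
      (by positivity)
  have iT : Integrable (fun x => (Tn n x) ^ 4) (P n) := by
    refine intg_bdd ((Tn_meas n).pow_const 4) ((2 * √n) ^ 4) fun x => ?_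
    rw [abs_pow]
    exact pow_le_pow_left₀ (abs_nonneg _) (bT x) 4
  -- step 1: F² W
  have st1 : ∫ x, (Fn n x) ^ 2 * Wt n x ∂(P n)
      ≤ ∫ x, (Fn n x) ^ 2 * w0 (Sn n x) ∂(P n) + 4 * (n * Real.exp (-(n / 32000))) := by
    have : ∫ x, (Fn n x) ^ 2 * Wt n x ∂(P n)
        ≤ ∫ x, ((Fn n x) ^ 2 * w0 (Sn n x) + 4 * (n * Real.exp (-(n / 32000)))) ∂(P n) := by
      refine integral_mono_ae iFW (iFw.add (integrable_const _)) ?_
      filter_upwards [P_ae n] with x hx
      have h1 := Wt_sub_le n x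
      rw [S_eq hx] at h1
      have h2 : (Fn n x) ^ 2 ≤ 4 * n := by
        have := pow_le_pow_left₀ (abs_nonneg _) (bF x) 2
        rw [sq_abs, mul_pow, Real.sq_sqrt hn0.le] at this
        linarith
      have h3 : 0 ≤ Real.exp (-((n:ℝ) / 32000)) := (Real.exp_pos _).le
      have h4 : (Fn n x) ^ 2 * (Wt n x - w0 (Sn n x))
          ≤ (4 * n) * Real.exp (-((n:ℝ) / 32000)) :=
        (mul_le_mul_of_nonneg_left h1 (sq_nonneg _)).trans
          (mul_le_mul_of_nonneg_right h2 h3)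
      linarith
    rw [integral_add iFw (integrable_const _)] at this
    simpa using this
  -- step 2: T⁴
  have st2 : ∫ x, (Tn n x) ^ 4 ∂(P n) ≤ 64 := by
    have := fourth_moment (P := P n) hn (t := fun i x => tq (x i))
      (fun i => tq_meas.comp (measurable_pi_apply i)) (indep_pair n tq_meas tq_meas) (B := 2)
      (by norm_num) (fun i x => tq_bd _) (fun i => by rw [P_int n i tq tq_meas, nu_t])
    norm_num at this
    exact this
  -- step 3
  have st3 : ∫ x, (pf n x) ^ 2 * Wt n x ∂(P n)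
      ≤ 1.1 * n * (∫ x, (Fn n x) ^ 2 * Wt n x ∂(P n))
        + 11 * (1596 / 845) ^ 2 * ∫ x, (Tn n x) ^ 4 ∂(P n) := by
    rw [← integral_const_mul, ← integral_const_mul,
      ← integral_add (iFW.const_mul _) (iT.const_mul _)]
    refine integral_mono_of_nonneg (ae_of_all _ fun x => by
      have := Wt_pos n x
      positivity) ((iFW.const_mul _).add (iT.const_mul _)) ?_
    filter_upwards [P_ae n] with x hx
    rw [pf_eq hn hx]
    set u := √(n:ℝ) * Fn n x with hu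
    set v := (1596 / 845 : ℝ) * (Tn n x) ^ 2 with hv
    have h1 : (u - v) ^ 2 ≤ 1.1 * u ^ 2 + 11 * v ^ 2 := by
      nlinarith [sq_nonneg (u + 10 * v)]
    have h2 : u ^ 2 = n * (Fn n x) ^ 2 := by rw [hu, mul_pow, Real.sq_sqrt hn0.le]
    have h3 : v ^ 2 = (1596 / 845) ^ 2 * (Tn n x) ^ 4 := by rw [hv]; ring
    have hW := Wt_pos n x
    have hW1 := Wt_le n x
    have h4 : 0 ≤ 11 * v ^ 2 := by positivity
    calc (u - v) ^ 2 * Wt n x ≤ (1.1 * u ^ 2 + 11 * v ^ 2) * Wt n x :=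
          mul_le_mul_of_nonneg_right h1 hW.le
      _ ≤ 1.1 * u ^ 2 * Wt n x + 11 * v ^ 2 := by nlinarith
      _ = 1.1 * n * ((Fn n x) ^ 2 * Wt n x) + 11 * (1596 / 845) ^ 2 * (Tn n x) ^ 4 := by
          rw [h2, h3]; ring
  have hm := hmain n hn
  set L : ℝ := 1027873214 / 344146973625 with hL
  have hL0 : 0 < L := by rw [hL]; norm_num
  set E1 := K / √n + 4 * (n * Real.exp (-((n:ℝ) / 32000))) with hE1
  have hE10 : 0 ≤ E1 := by rw [hE1]; positivity
  have st4 : ∫ x, (Fn n x) ^ 2 * Wt n x ∂(P n) ≤ L * an n + E1 := by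
    rw [hE1]; linarith
  have st5 : (∫ x, (Fn n x) ^ 2 * Wt n x ∂(P n)) / Zn n ≤ L + E1 / Real.exp (-2000) := by
    have hq1 : (L * an n + E1) / Zn n ≤ L + E1 / Real.exp (-2000) := by
      rw [add_div]
      refine add_le_add ?_ ?_
      · rw [div_le_iff₀ hZ0]; exact mul_le_mul_of_nonneg_left hZ hL0.le
      · exact div_le_div_of_nonneg_left hE10 hE (by linarith)
    exact (div_le_div_of_nonneg_right st4 hZ0.le).trans hq1
  have st6 : (∫ x, (pf n x) ^ 2 * Wt n x ∂(P n)) / Zn n / n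
      ≤ 1.1 * ((∫ x, (Fn n x) ^ 2 * Wt n x ∂(P n)) / Zn n)
        + 11 * (1596 / 845) ^ 2 * 64 / (n * Zn n) := by
    have h1 : ∫ x, (pf n x) ^ 2 * Wt n x ∂(P n)
      ≤ 1.1 * n * (∫ x, (Fn n x) ^ 2 * Wt n x ∂(P n)) + 11 * (1596 / 845) ^ 2 * 64 := by
      have : (0:ℝ) ≤ 11 * (1596 / 845) ^ 2 := by norm_num
      linarith [mul_le_mul_of_nonneg_left st2 this]
    rw [div_div, div_le_iff₀ (by positivity)]
    refine h1.trans (le_of_eq ?_)
    field_simp
  refine st6.trans (add_le_add (mul_le_mul_of_nonneg_left st5 (by norm_num)) ?_)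
  refine div_le_div_of_nonneg_left (by norm_num) (by positivity) ?_
  exact mul_le_mul_of_nonneg_left (by linarith) hn0.le

lemma An_bound {n : ℕ} (hn : 1 ≤ n) : |An n - 13 / 42| ≤ 5 / Real.exp (-2000) / √n := by
  have hn0 : (0:ℝ) < n := by exact_mod_cast hn
  have hs : (0:ℝ) < √n := Real.sqrt_pos.mpr hn0
  have hss : √(n:ℝ) * √n = n := Real.mul_self_sqrt hn0.le
  have ha := an_ge hn
  have hE : 0 < Real.exp (-2000) := Real.exp_pos _
  have hZ : an n ≤ Zn n := an_le_Zn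
  have hZ0 : 0 < Zn n := by linarith
  have bT : ∀ x, |Tn n x| ≤ 2 * √n := bdsum hn tq_bd
  have iW : Integrable (Wt n) (P n) := intg_bdd (Wt_meas n) 1 fun x => by
      rw [abs_of_pos (Wt_pos _ _)]; exact Wt_le _ _
  have iTW : Integrable (fun x => Tn n x * Wt n x) (P n) := by
    refine intg_bdd ((Tn_meas n).mul (Wt_meas n)) ((2 * √n) * 1) fun x => ?_
    rw [abs_mul, abs_of_pos (Wt_pos _ _)]
    exact mul_le_mul (bT x) (Wt_le _ _) (Wt_pos _ _).le (by positivity)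
  have e1 : ∫ x, (∑ i, (x i) ^ 2) / n * Wt n x ∂(P n)
      = (∫ x, Tn n x * Wt n x ∂(P n)) / √n + 13 / 42 * Zn n := by
    unfold Zn
    rw [← integral_div, ← integral_const_mul, ← integral_add (iTW.div_const _) (iW.const_mul _)]
    refine integral_congr_ae ?_
    filter_upwards [P_ae n] with x hx
    have e2 : ∀ i, (x i) ^ 2 = (cl (x i)) ^ 2 := fun i => by rw [cl_eq (hx i), sq_abs]
    have hT : ∑ i, tq (x i) = √n * Tn n x := by unfold Tn; field_simp
    have h2 : ∑ i, (x i) ^ 2 = ∑ i, tq (x i) + n * (13 / 42) := by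
      have : (n:ℝ) * (13 / 42) = ∑ _i : Fin n, (13 / 42 : ℝ) := by simp
      rw [this, ← Finset.sum_add_distrib]
      refine Finset.sum_congr rfl fun i _ => ?_
      rw [e2 i]; unfold tq; ring
    rw [h2, hT]
    have : (√n * Tn n x + n * (13 / 42)) / n = Tn n x / √n + 13 / 42 := by
      have h3 : √(n:ℝ) / n = 1 / √n := by
        rw [div_eq_div_iff hn0.ne' hs.ne', hss, one_mul]
      calc (√n * Tn n x + n * (13 / 42)) / n = (√(n:ℝ) / n) * Tn n x + (n / n) * (13 / 42) := by ring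
        _ = _ := by rw [h3, div_self hn0.ne']; ring
    rw [this]; ring
  have e3 : An n - 13 / 42 = (∫ x, Tn n x * Wt n x ∂(P n)) / √n / Zn n := by
    unfold An
    rw [e1, add_div, mul_div_assoc, div_self hZ0.ne']; ring
  have h5 : |∫ x, Tn n x * Wt n x ∂(P n)| ≤ 5 := by
    have iT2 : Integrable (fun x => (Tn n x) ^ 2) (P n) := by
      refine intg_bdd ((Tn_meas n).pow_const 2) ((2 * √n) ^ 2) fun x => ?_
      rw [abs_pow]
      exact pow_le_pow_left₀ (abs_nonneg _) (bT x) 2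
    calc |∫ x, Tn n x * Wt n x ∂(P n)| ≤ ∫ x, |Tn n x * Wt n x| ∂(P n) :=
          abs_integral_le_integral_abs
      _ ≤ ∫ x, (1 + (Tn n x) ^ 2) ∂(P n) := by
          refine integral_mono iTW.abs ((integrable_const _).add iT2) fun x => ?_
          simp only
          rw [abs_mul, abs_of_pos (Wt_pos _ _)]
          have h1 : |Tn n x| ≤ 1 + (Tn n x) ^ 2 := by
            nlinarith [sq_abs (Tn n x), sq_nonneg (|Tn n x| - 1), abs_nonneg (Tn n x)]
          calc |Tn n x| * Wt n x ≤ |Tn n x| * 1 :=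
                mul_le_mul_of_nonneg_left (Wt_le _ _) (abs_nonneg _)
            _ ≤ _ := by rw [mul_one]; exact h1
      _ = 1 + ∫ x, (Tn n x) ^ 2 ∂(P n) := by
          rw [integral_add (integrable_const _) iT2]; simp
      _ ≤ 5 := by
          have : ∫ x, (Tn n x) ^ 2 ∂(P n) ≤ 4 := second_sum hn tq_meas tq_bd nu_t
          linarith
  rw [e3, abs_div, abs_div, abs_of_pos hs, abs_of_pos hZ0, div_div, div_div]
  refine div_le_div₀ (by norm_num) h5 (by positivity) ?_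
  rw [mul_comm]
  exact mul_le_mul_of_nonneg_left (by linarith) hs.le

end R985.ML
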