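import Pool.Agent.R985.MLD4
set_option autoImplicit false

open MeasureTheory ProbabilityTheory Set Filter Topology

namespace R985.ML

lemma coeffNorm_eq {n : ℕ} (f : MvPolynomial (Fin n) ℝ) (s : Finset (Fin n →₀ ℕ))
    (h : f.support ⊆ s) : coeffNorm f = Real.sqrt (∑ I ∈ s, (f.coeff I) ^ 2) := by
  unfold coeffNorm
  congr 1
  refine Finset.sum_subset h fun I _ hI => ?_
  rw [MvPolynomial.notMem_support_iff.mp hI]; simp

lemma coeffNorm_smul {n : ℕ} (a : ℝ) (f : MvPolynomial (Fin n) ℝ) :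
    coeffNorm (a • f) = |a| * coeffNorm f := by
  rw [coeffNorm_eq (a • f) f.support MvPolynomial.support_smul]
  unfold coeffNorm
  simp only [MvPolynomial.coeff_smul, smul_eq_mul, mul_pow]
  rw [← Finset.mul_sum, Real.sqrt_mul (sq_nonneg a), Real.sqrt_sq_eq_abs]

noncomputable def pp (n : ℕ) : MvPolynomial (Fin n) ℝ :=
  ∑ i, MvPolynomial.X i ^ 4
    - MvPolynomial.C ((1596 / 845) / (n:ℝ)) * (∑ i, MvPolynomial.X i ^ 2) ^ 2

lemma eval_pp (n : ℕ) (x : Fin n → ℝ) : MvPolynomial.eval x (pp n) = pf n x := by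
  unfold pp pf
  simp

lemma pp_hom (n : ℕ) : (pp n).IsHomogeneous 4 := by
  unfold pp
  refine MvPolynomial.IsHomogeneous.sub ?_ ?_
  · exact MvPolynomial.IsHomogeneous.sum _ _ _ fun i _ => MvPolynomial.isHomogeneous_X_pow _ _
  · have h : (∑ i : Fin n, (MvPolynomial.X i : MvPolynomial (Fin n) ℝ) ^ 2).IsHomogeneous 2 :=
      MvPolynomial.IsHomogeneous.sum _ _ _ fun i _ => MvPolynomial.isHomogeneous_X_pow _ _
    exact (h.pow 2).C_mul _

lemma coeff_pp (n : ℕ) (i : Fin n) :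
    (pp n).coeff (Finsupp.single i 4) = 1 - (1596 / 845) / n := by
  unfold pp
  rw [MvPolynomial.coeff_sub, MvPolynomial.coeff_C_mul, MvPolynomial.coeff_sum]
  have h1 : ∑ j : Fin n, MvPolynomial.coeff (Finsupp.single i 4)
      ((MvPolynomial.X j : MvPolynomial (Fin n) ℝ) ^ 4) = 1 := by
    rw [Finset.sum_eq_single i]
    · rw [MvPolynomial.coeff_X_pow, if_pos rfl]
    · intro j _ hj
      rw [MvPolynomial.coeff_X_pow, if_neg]
      intro h
      have := DFunLike.congr_fun h j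
      rw [Finsupp.single_eq_same, Finsupp.single_apply, if_neg (Ne.symm hj)] at this
      omega
    · intro h; exact absurd (Finset.mem_univ _) h
  have h2 : MvPolynomial.coeff (Finsupp.single i 4)
      ((∑ j : Fin n, (MvPolynomial.X j : MvPolynomial (Fin n) ℝ) ^ 2) ^ 2) = 1 := by
    rw [sq, Finset.sum_mul_sum, MvPolynomial.coeff_sum]
    have e : ∀ j k : Fin n, MvPolynomial.coeff (Finsupp.single i 4)
        ((MvPolynomial.X j : MvPolynomial (Fin n) ℝ) ^ 2 * MvPolynomial.X k ^ 2)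
        = if j = i ∧ k = i then 1 else 0 := by
      intro j k
      rw [MvPolynomial.X_pow_eq_monomial, MvPolynomial.X_pow_eq_monomial,
        MvPolynomial.monomial_mul, MvPolynomial.coeff_monomial, mul_one]
      refine if_congr ?_ rfl rfl
      constructor
      · intro h
        by_cases hji : j = i
        · refine ⟨hji, ?_⟩
          by_contra hki
          have := DFunLike.congr_fun h k
          rw [Finsupp.add_apply, Finsupp.single_eq_same, Finsupp.single_apply,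
            Finsupp.single_apply, if_neg (Ne.symm hki)] at this
          omega
        · exfalso
          have := DFunLike.congr_fun h j
          rw [Finsupp.add_apply, Finsupp.single_eq_same, Finsupp.single_apply,
            Finsupp.single_apply, if_neg (Ne.symm hji)] at this
          omega
      · rintro ⟨rfl, rfl⟩
        rw [← Finsupp.single_add]
    rw [Finset.sum_eq_single i]
    · rw [MvPolynomial.coeff_sum, Finset.sum_eq_single i]
      · rw [e, if_pos ⟨rfl, rfl⟩]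
      · intro k _ hk
        rw [e, if_neg (fun h => hk h.2)]
      · intro h; exact absurd (Finset.mem_univ _) h
    · intro j _ hj
      rw [MvPolynomial.coeff_sum]
      refine Finset.sum_eq_zero fun k _ => ?_
      rw [e, if_neg (fun h => hj h.1)]
    · intro h; exact absurd (Finset.mem_univ _) h
  rw [h1, h2, mul_one]

lemma coeffNorm_pp (n : ℕ) : n * (1 - (1596 / 845) / (n:ℝ)) ^ 2 ≤ (coeffNorm (pp n)) ^ 2 := by
  classical
  set T : Finset (Fin n →₀ ℕ) := Finset.univ.image (fun i : Fin n => Finsupp.single i 4) with hT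
  rw [coeffNorm_eq (pp n) ((pp n).support ∪ T) Finset.subset_union_left,
    Real.sq_sqrt (Finset.sum_nonneg fun _ _ => sq_nonneg _)]
  have h1 : ∑ I ∈ T, ((pp n).coeff I) ^ 2 ≤ ∑ I ∈ (pp n).support ∪ T, ((pp n).coeff I) ^ 2 :=
    Finset.sum_le_sum_of_subset_of_nonneg Finset.subset_union_right fun _ _ _ => sq_nonneg _
  refine le_trans (le_of_eq ?_) h1
  rw [hT, Finset.sum_image]
  · simp_rw [coeff_pp]
    simp
  · intro i _ j _ h
    have := DFunLike.congr_fun h i
    simp only at this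
    rw [Finsupp.single_eq_same, Finsupp.single_apply] at this
    by_contra hij
    rw [if_neg (fun h => hij h.symm)] at this
    omega

/-- the gap, from the two external facts -/
theorem gap_of (hA : ∀ n : ℕ, 1 ≤ n → 9 / 20 ≤ mInf 4 n)
    (hB : ∀ n : ℕ, 1 ≤ n → ∃ μ : Measure (Fin n → ℝ), IsProbabilityMeasure μ ∧ IsLogConcave μ ∧
      IsIsotropic μ ∧ IsHnInvariant μ ∧
      ∀ f : MvPolynomial (Fin n) ℝ, f.IsHomogeneous 4 →
        ∫ x, (MvPolynomial.eval x f) ^ 2 ∂μ =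
          (∫ x, (MvPolynomial.eval x f) ^ 2 * Wt n x ∂(P n)) / Zn n / (An n) ^ 4) :
    ∀ᶠ n : ℕ in atTop, ∃ μ : Measure (Fin n → ℝ), IsProbabilityMeasure μ ∧ IsLogConcave μ ∧
      IsIsotropic μ ∧ IsHnInvariant μ ∧ ∃ f : MvPolynomial (Fin n) ℝ, f.IsHomogeneous 4 ∧
      coeffNorm f = 1 ∧ ∫ x, (MvPolynomial.eval x f) ^ 2 ∂μ ≤ mInf 4 n - 9 / 100 := by
  obtain ⟨K', hK', hpf⟩ := pf_sq_int
  set L : ℝ := 1027873214 / 344146973625 with hL
  set E : ℝ := Real.exp (-2000) with hE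
  have hE0 : 0 < E := Real.exp_pos _
  set U : ℕ → ℝ := fun n => (1.1 * (L + (K' / √n + 4 * (n * Real.exp (-(n / 32000)))) / E)
        + 11 * (1596 / 845) ^ 2 * 64 / (n * E)) / (1 - (1596 / 845) / (n:ℝ)) ^ 2 / (An n) ^ 4
    with hU
  have key : ∀ n : ℕ, 2 ≤ n → ∃ μ : Measure (Fin n → ℝ), IsProbabilityMeasure μ ∧
      IsLogConcave μ ∧ IsIsotropic μ ∧ IsHnInvariant μ ∧ ∃ f : MvPolynomial (Fin n) ℝ,
      f.IsHomogeneous 4 ∧ coeffNorm f = 1 ∧ ∫ x, (MvPolynomial.eval x f) ^ 2 ∂μ ≤ U n := by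
    intro n hn
    have hn1 : 1 ≤ n := by omega
    have hn0 : (0:ℝ) < n := by exact_mod_cast hn1
    have hn2 : (2:ℝ) ≤ n := by exact_mod_cast hn
    obtain ⟨μ, h1, h2, h3, h4, h5⟩ := hB n hn1
    have hc : 0 < 1 - (1596 / 845) / (n:ℝ) := by
      rw [sub_pos, div_lt_one hn0]; linarith
    have hN2 := coeffNorm_pp n
    set N := coeffNorm (pp n) with hN
    have hN2' : 0 < N ^ 2 := lt_of_lt_of_le (by positivity) hN2
    have hN00 : 0 ≤ N := Real.sqrt_nonneg _
    have hN0 : 0 < N := by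
      refine lt_of_le_of_ne hN00 fun h => ?_
      rw [← h] at hN2'
      norm_num at hN2'
    have hf1 : coeffNorm (N⁻¹ • pp n) = 1 := by
      rw [coeffNorm_smul, abs_of_pos (inv_pos.mpr hN0), ← hN, inv_mul_cancel₀ hN0.ne']
    have hf2 : (N⁻¹ • pp n).IsHomogeneous 4 := by
      rw [MvPolynomial.smul_eq_C_mul]; exact (pp_hom n).C_mul _
    refine ⟨μ, h1, h2, h3, h4, N⁻¹ • pp n, hf2, hf1, ?_⟩
    rw [h5 _ hf2]
    have h7 : ∫ x, (MvPolynomial.eval x (N⁻¹ • pp n)) ^ 2 * Wt n x ∂(P n)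
        = (N⁻¹) ^ 2 * ∫ x, (pf n x) ^ 2 * Wt n x ∂(P n) := by
      rw [← integral_const_mul]
      refine integral_congr_ae (ae_of_all _ fun x => ?_)
      simp only
      rw [MvPolynomial.smul_eval, eval_pp]; ring
    rw [h7]
    have hA4 : 0 ≤ (An n) ^ 4 := by positivity
    have h9 := hpf n hn1
    have hZ0 : 0 < Zn n := lt_of_lt_of_le (lt_of_lt_of_le hE0 (an_ge hn1)) an_le_Zn
    have hI0 : 0 ≤ ∫ x, (pf n x) ^ 2 * Wt n x ∂(P n) :=
      integral_nonneg fun x => mul_nonneg (sq_nonneg _) (Wt_pos _ _).le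
    have h10 : (N⁻¹) ^ 2 * (∫ x, (pf n x) ^ 2 * Wt n x ∂(P n)) / Zn n / (An n) ^ 4 ≤ U n := by
      rw [hU]
      refine div_le_div_of_nonneg_right ?_ hA4
      have e1 : (N⁻¹) ^ 2 * (∫ x, (pf n x) ^ 2 * Wt n x ∂(P n)) / Zn n
          = ((∫ x, (pf n x) ^ 2 * Wt n x ∂(P n)) / Zn n) / N ^ 2 := by
        rw [inv_pow]; field_simp
      rw [e1]
      calc ((∫ x, (pf n x) ^ 2 * Wt n x ∂(P n)) / Zn n) / N ^ 2
          ≤ ((∫ x, (pf n x) ^ 2 * Wt n x ∂(P n)) / Zn n)
              / (n * (1 - (1596 / 845) / (n:ℝ)) ^ 2) :=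
            div_le_div_of_nonneg_left (div_nonneg hI0 hZ0.le) (by positivity) hN2
        _ = ((∫ x, (pf n x) ^ 2 * Wt n x ∂(P n)) / Zn n / n)
              / (1 - (1596 / 845) / (n:ℝ)) ^ 2 := by
            rw [div_div _ (n:ℝ)]
        _ ≤ _ := div_le_div_of_nonneg_right h9 (by positivity)
    exact h10
  -- limits
  have tn : Tendsto (fun n : ℕ => (n:ℝ)) atTop atTop := tendsto_natCast_atTop_atTop
  have tsq : Tendsto (fun n : ℕ => √(n:ℝ)) atTop atTop := Real.tendsto_sqrt_atTop.comp tn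
  have t1 : Tendsto (fun n : ℕ => K' / √(n:ℝ)) atTop (𝓝 0) := tsq.const_div_atTop K'
  have t2 : Tendsto (fun n : ℕ => (n:ℝ) * Real.exp (-(n / 32000))) atTop (𝓝 0) := by
    have h := (Real.tendsto_pow_mul_exp_neg_atTop_nhds_zero 1).comp
      (tn.atTop_div_const (by norm_num : (0:ℝ) < 32000))
    have h' := h.const_mul 32000
    rw [mul_zero] at h'
    refine h'.congr fun n => ?_
    simp only [Function.comp, pow_one]
    ring
  have t3 : Tendsto (fun n : ℕ => 11 * (1596 / 845 : ℝ) ^ 2 * 64 / (n * E)) atTop (𝓝 0) :=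
    (tn.atTop_mul_const hE0).const_div_atTop _
  have t4 : Tendsto (fun n : ℕ => (1596 / 845 : ℝ) / n) atTop (𝓝 0) := tn.const_div_atTop _
  have t5 : Tendsto An atTop (𝓝 (13 / 42)) := by
    rw [tendsto_iff_norm_sub_tendsto_zero]
    refine squeeze_zero' (Eventually.of_forall fun n => norm_nonneg _) ?_
      (tsq.const_div_atTop (5 / Real.exp (-2000)))
    filter_upwards [eventually_ge_atTop 1] with n hn
    rw [Real.norm_eq_abs]
    exact An_bound hn
  have t6 : Tendsto U atTop (𝓝 ((1.1 * (L + (0 + 4 * 0) / E) + 0) / (1 - 0) ^ 2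
      / (13 / 42) ^ 4)) := by
    refine Tendsto.div (Tendsto.div ?_ ?_ (by norm_num)) (t5.pow 4) (by norm_num)
    · exact (((t1.add (t2.const_mul 4)).div_const E).const_add L |>.const_mul 1.1).add t3
    · exact (t4.const_sub 1).pow 2
  have hlim : (1.1 * (L + (0 + 4 * 0) / E) + 0) / (1 - 0) ^ 2 / (13 / 42) ^ 4 < (9/25 : ℝ) := by
    rw [hL]; norm_num
  filter_upwards [t6.eventually (gt_mem_nhds hlim), eventually_ge_atTop 2] with n h1 h2
  obtain ⟨μ, a1, a2, a3, a4, f, a5, a6, a7⟩ := key n h2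
  refine ⟨μ, a1, a2, a3, a4, f, a5, a6, a7.trans ?_⟩
  have := hA n (by omega)
  linarith

end R985.ML
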