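import Mathlib
open MvPolynomial

namespace Pool.Agent.R985.SEM

variable {σ τ : Type} [Fintype σ] [Fintype τ] [DecidableEq σ] [DecidableEq τ]

lemma totalDegree_pderiv_le' {σ : Type} (i : σ) (p : MvPolynomial σ ℝ) (n : ℕ)
    (h : p.totalDegree ≤ n + 1) : (pderiv i p).totalDegree ≤ n := by
  classical
  rw [totalDegree, Finset.sup_le_iff]
  intro m hm
  rw [mem_support_iff, coeff_pderiv] at hm
  have h1 : coeff (m + Finsupp.single i 1) p ≠ 0 := left_ne_zero_of_mul hm
  have h2 := le_totalDegree (mem_support_iff.mpr h1)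
  have h3 : ((m + Finsupp.single i 1).sum fun _ e => e) = (m.sum fun _ e => e) + 1 := by
    rw [Finsupp.sum_add_index' (by simp) (by simp), Finsupp.sum_single_index (by simp)]
  omega

lemma eq_C_of_pderiv_eq_zero {σ : Type} (p : MvPolynomial σ ℝ) (h : ∀ i, pderiv i p = 0) :
    p = C (coeff 0 p) := by
  classical
  ext m
  rw [coeff_C]
  split_ifs with hm
  · rw [← hm]
  · obtain ⟨i, hi⟩ : ∃ i, m i ≠ 0 := by
      by_contra hcon
      push Not at hcon
      exact hm (Finsupp.ext (by simpa using fun a => (hcon a).symm))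
    have hm' : m = (m - Finsupp.single i 1) + Finsupp.single i 1 := by
      ext j
      by_cases hj : j = i
      · subst hj; simp; omega
      · simp [Ne.symm hj]
    have h1 := coeff_pderiv (i := i) p (m - Finsupp.single i 1)
    rw [h i, ← hm'] at h1
    simp only [coeff_zero] at h1
    rcases mul_eq_zero.mp h1.symm with h2 | h2
    · exact h2
    · exfalso
      have h3 : (0 : ℝ) < (((m - Finsupp.single i 1 : σ →₀ ℕ) i : ℕ) : ℝ) + 1 := by positivity
      exact absurd h2 (by exact_mod_cast h3.ne')

/-- chain rule -/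
lemma pderiv_aeval (f : σ → MvPolynomial τ ℝ) (F : MvPolynomial σ ℝ) (b : τ) :
    pderiv b (aeval f F) = ∑ a, aeval f (pderiv a F) * pderiv b (f a) := by
  induction F using MvPolynomial.induction_on with
  | C c => simp [algebraMap_eq]
  | add p q hp hq => simp only [map_add, hp, hq, add_mul, Finset.sum_add_distrib]
  | mul_X p i hp =>
    simp only [map_mul, aeval_X, Derivation.leibniz, smul_eq_mul, hp, pderiv_X, map_add]
    simp only [add_mul, Finset.sum_add_distrib, Finset.mul_sum]
    congr 1
    · rw [Finset.sum_eq_single i]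
      · simp
      · intro a _ ha
        simp [Pi.single_apply, ha.symm]
      · simp
    · refine Finset.sum_congr rfl fun a _ => ?_
      ring

/-- Jacobian criterion. -/
lemma algIndep_of_jac (g : τ → MvPolynomial τ ℝ)
    (h : (Matrix.of fun a b => pderiv b (g a)).det ≠ 0) : AlgebraicIndependent ℝ g := by
  rw [algebraicIndependent_iff]
  have key : ∀ n : ℕ, ∀ G : MvPolynomial τ ℝ, G.totalDegree ≤ n → aeval g G = 0 → G = 0 := by
    intro n
    induction n with
    | zero =>
      intro G hG h0
      have h1 : G = C (coeff 0 G) := totalDegree_eq_zero_iff_eq_C.mp (by omega)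
      rw [h1] at h0 ⊢
      simpa [algebraMap_eq] using h0
    | succ n ih =>
      intro G hG h0
      have h1 : ∀ a, pderiv a G = 0 := by
        have h2 : Matrix.vecMul (fun a => aeval g (pderiv a G))
            (Matrix.of fun a b => pderiv b (g a)) = 0 := by
          funext b
          have := pderiv_aeval g G b
          rw [h0, map_zero] at this
          simpa [Matrix.vecMul, dotProduct] using this.symm
        have h3 := Matrix.eq_zero_of_vecMul_eq_zero h h2
        intro a
        exact ih _ (totalDegree_pderiv_le' a G n hG) (congrFun h3 a)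
      have h2 := eq_C_of_pderiv_eq_zero G h1
      rw [h2] at h0 ⊢
      simpa [algebraMap_eq] using h0
  intro G h0
  exact key _ G le_rfl h0

lemma isTB (g : τ → MvPolynomial τ ℝ)
    (h : (Matrix.of fun a b => pderiv b (g a)).det ≠ 0) : IsTranscendenceBasis ℝ g := by
  refine (algIndep_of_jac g h).isTranscendenceBasis_of_trdeg_le_of_finite ?_
  rw [MvPolynomial.trdeg_of_isDomain]
  simp

lemma exists_sep {S A : Type} [CommRing S] [CommRing A] [IsDomain A] [Algebra S A]
    [IsDomain S] [CharZero S] (hinj : Function.Injective (algebraMap S A)) (y : A)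
    (hy : IsAlgebraic S y) :
    ∃ q : Polynomial S, Polynomial.aeval y q = 0 ∧ Polynomial.aeval y q.derivative ≠ 0 := by
  obtain ⟨p, hp0, hp⟩ := hy
  have key : ∀ n : ℕ, ∀ p : Polynomial S, p.natDegree ≤ n → p ≠ 0 → Polynomial.aeval y p = 0 →
      ∃ q : Polynomial S, Polynomial.aeval y q = 0 ∧ Polynomial.aeval y q.derivative ≠ 0 := by
    intro n
    induction n with
    | zero =>
      intro p hn hp0 hp
      exfalso
      have h1 : p = Polynomial.C (p.coeff 0) :=
        Polynomial.eq_C_of_natDegree_le_zero hn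
      rw [h1] at hp hp0
      simp only [Polynomial.aeval_C] at hp
      exact hp0 (by rw [(map_eq_zero_iff _ hinj).mp hp]; simp)
    | succ n ih =>
      intro p hn hp0 hp
      by_cases h1 : Polynomial.aeval y p.derivative = 0
      · by_cases h2 : p.derivative = 0
        · exact ih p (by rw [Polynomial.derivative_eq_zero.mp h2]; omega) hp0 hp
        · exact ih p.derivative
            ((Polynomial.natDegree_derivative_le p).trans (by omega)) h2 h1
      · exact ⟨p, hp, h1⟩
  exact key _ p le_rfl hp0 hp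


section FactA

variable (f : σ → MvPolynomial τ ℝ) (M : Matrix σ τ ℝ)

/-- linear combinations of the coordinates. -/
noncomputable def yy (b : τ) : MvPolynomial σ ℝ := ∑ a, C (M a b) * X a

noncomputable def gg (b : τ) : MvPolynomial τ ℝ := aeval f (yy M b)

lemma pderiv_yy (a : σ) (b : τ) : pderiv a (yy M b) = C (M a b) := by
  unfold yy
  rw [map_sum, Finset.sum_eq_single a]
  · rw [pderiv_C_mul, pderiv_X_self, mul_one]
  · intro a' _ ha
    rw [pderiv_C_mul, pderiv_X_of_ne ha, mul_zero]
  · simp

lemma pderiv_gg (b b' : τ) : pderiv b' (gg f M b) = ∑ a, C (M a b) * pderiv b' (f a) := by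
  unfold gg
  rw [pderiv_aeval]
  refine Finset.sum_congr rfl fun a _ => ?_
  rw [pderiv_yy, aeval_C, algebraMap_eq]

lemma gg_eq (b : τ) : gg f M b = ∑ a, C (M a b) * f a := by
  unfold gg yy
  simp only [map_sum, map_mul, aeval_C, aeval_X, algebraMap_eq]

lemma aeval_aeval_yy (r : MvPolynomial τ ℝ) : aeval f (aeval (yy M) r) = aeval (gg f M) r := by
  induction r using MvPolynomial.induction_on with
  | C c => simp only [aeval_C, algebraMap_eq]
  | add p q hp hq => simp only [map_add, hp, hq]
  | mul_X p i hp => simp only [map_mul, hp, aeval_X]; rfl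

variable (hdet : (Matrix.of fun b b' => pderiv b' (gg f M b)).det ≠ 0)
include hdet

/-- Every nonzero polynomial in the parameters divides a nonzero polynomial in the coordinates. -/
lemma lemmaN (h : MvPolynomial τ ℝ) (h0 : h ≠ 0) :
    ∃ c : MvPolynomial σ ℝ, aeval f c ≠ 0 ∧ h ∣ aeval f c := by
  have hT := isTB _ hdet
  have := hT.isAlgebraic
  obtain ⟨r, hr0, hr⟩ := (this.isAlgebraic h).exists_nonzero_dvd (mem_nonZeroDivisors_of_ne_zero h0)
  have hr1 : (r : MvPolynomial τ ℝ) ∈ (aeval (R := ℝ) (gg f M)).range := by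
    rw [← Algebra.adjoin_range_eq_range_aeval]
    exact r.2
  obtain ⟨r', hr'⟩ := hr1
  refine ⟨aeval (yy M) r', ?_, ?_⟩
  · rw [aeval_aeval_yy]
    have : aeval (gg f M) r' = (r : MvPolynomial τ ℝ) := hr'
    rw [this]
    simpa using hr0
  · rw [aeval_aeval_yy]
    have : aeval (gg f M) r' = (r : MvPolynomial τ ℝ) := hr'
    rw [this]
    exact hr

lemma exists_rel (a : σ) : ∃ p : Polynomial (MvPolynomial τ ℝ),
    aeval f (Polynomial.eval₂ (aeval (yy M)).toRingHom (X a) p) = 0 ∧
    aeval f (Polynomial.eval₂ (aeval (yy M)).toRingHom (X a) p.derivative) ≠ 0 := by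
  have hT := isTB _ hdet
  have := hT.isAlgebraic
  have hinj : Function.Injective (algebraMap (Algebra.adjoin ℝ (Set.range (gg f M)))
    (MvPolynomial τ ℝ)) := Subtype.val_injective
  obtain ⟨q, hq1, hq2⟩ := exists_sep hinj (f a) (this.isAlgebraic (f a))
  -- lift
  let κ : MvPolynomial τ ℝ →ₐ[ℝ] Algebra.adjoin ℝ (Set.range (gg f M)) :=
    aeval (fun b => ⟨gg f M b, Algebra.subset_adjoin ⟨b, rfl⟩⟩)
  have hκ : ∀ r, ((κ r : Algebra.adjoin ℝ (Set.range (gg f M))) : MvPolynomial τ ℝ) =
      aeval (gg f M) r := by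
    intro r
    induction r using MvPolynomial.induction_on with
    | C c => simp only [κ, aeval_C]; rfl
    | add p q hp hq => simp only [map_add, ← hp, ← hq]; rfl
    | mul_X p i hp => simp only [map_mul, ← hp, aeval_X, κ]; rfl
  have hsurj : Function.Surjective κ := by
    intro s
    have hr1 : (s : MvPolynomial τ ℝ) ∈ (aeval (R := ℝ) (gg f M)).range := by
      rw [← Algebra.adjoin_range_eq_range_aeval]
      exact s.2
    obtain ⟨r', hr'⟩ := hr1
    exact ⟨r', Subtype.ext ((hκ r').trans hr')⟩
  obtain ⟨p, hp⟩ := Polynomial.map_surjective κ.toRingHom hsurj q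
  have hev : ∀ p' : Polynomial (MvPolynomial τ ℝ),
      aeval f (Polynomial.eval₂ (aeval (yy M)).toRingHom (X a) p') =
        Polynomial.aeval (f a) (p'.map κ.toRingHom) := by
    intro p'
    rw [Polynomial.aeval_def, Polynomial.eval₂_map]
    have : (aeval f) (Polynomial.eval₂ (aeval (yy M)).toRingHom (X a) p') =
      (aeval f).toRingHom (Polynomial.eval₂ (aeval (yy M)).toRingHom (X a) p') := rfl
    rw [this, Polynomial.hom_eval₂]
    congr 1
    · refine RingHom.ext fun r => ?_
      change (aeval f) ((aeval (yy M)) r) = _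
      rw [aeval_aeval_yy, ← hκ]
      rfl
    · exact aeval_X _ _
  refine ⟨p, ?_, ?_⟩
  · rw [hev, hp, hq1]
  · rw [hev, ← Polynomial.derivative_map, hp]
    exact hq2

omit hdet

/-- `H` is tangent at `K` to the Zariski closure of the image of `f`. -/
def Tang (K H : σ → ℝ) : Prop :=
  ∀ F : MvPolynomial σ ℝ, aeval f F = 0 → ∑ a, eval K (pderiv a F) * H a = 0

/-- The point with parameters `θ`. -/
noncomputable def pt (θ : τ → ℝ) : σ → ℝ := fun a => eval θ (f a)

lemma eval_pt (θ : τ → ℝ) (F : MvPolynomial σ ℝ) : eval (pt f θ) F = eval θ (aeval f F) := by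
  induction F using MvPolynomial.induction_on with
  | C c => simp only [aeval_C, algebraMap_eq, eval_C]
  | add p q hp hq => simp only [map_add, hp, hq]
  | mul_X p i hp => simp only [map_mul, hp, aeval_X, eval_X]; rfl

lemma tang_of_jac (θ v : τ → ℝ) :
    Tang f (pt f θ) (fun a => ∑ b, eval θ (pderiv b (f a)) * v b) := by
  intro F hF
  have h1 : ∀ b, ∑ a, eval (pt f θ) (pderiv a F) * eval θ (pderiv b (f a)) = 0 := by
    intro b
    have h2 := pderiv_aeval f F b
    rw [hF, map_zero] at h2
    have h3 := congrArg (eval θ) h2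
    simp only [map_zero, map_sum, map_mul] at h3
    rw [h3]
    exact Finset.sum_congr rfl fun a _ => by rw [eval_pt]
  calc ∑ a, eval (pt f θ) (pderiv a F) * ∑ b, eval θ (pderiv b (f a)) * v b
      = ∑ b, (∑ a, eval (pt f θ) (pderiv a F) * eval θ (pderiv b (f a))) * v b := by
        simp only [Finset.mul_sum, Finset.sum_mul]
        rw [Finset.sum_comm]
        refine Finset.sum_congr rfl fun b _ => Finset.sum_congr rfl fun a _ => ?_
        ring
    _ = 0 := by simp [h1]

/-- the directional derivative as a polynomial. -/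
noncomputable def DD (H : σ → ℝ) (F : MvPolynomial σ ℝ) : MvPolynomial σ ℝ :=
  ∑ a, C (H a) * pderiv a F

lemma DD_mul (H : σ → ℝ) (F G : MvPolynomial σ ℝ) : DD H (F * G) = F * DD H G + G * DD H F := by
  unfold DD
  rw [Finset.mul_sum, Finset.mul_sum, ← Finset.sum_add_distrib]
  refine Finset.sum_congr rfl fun a _ => ?_
  rw [Derivation.leibniz]
  simp only [smul_eq_mul]
  ring

lemma DD_add (H : σ → ℝ) (F G : MvPolynomial σ ℝ) : DD H (F + G) = DD H F + DD H G := by
  unfold DD
  rw [← Finset.sum_add_distrib]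
  refine Finset.sum_congr rfl fun a _ => ?_
  rw [map_add]; ring

lemma DD_X (H : σ → ℝ) (a : σ) : DD H (X a) = C (H a) := by
  unfold DD
  rw [Finset.sum_eq_single a]
  · simp
  · intro b _ hb
    rw [pderiv_X_of_ne hb.symm, mul_zero]
  · simp

lemma DD_C (H : σ → ℝ) (c : ℝ) : DD H (C c) = 0 := by
  unfold DD
  simp

lemma DD_yy (H : σ → ℝ) (hH : ∀ b, ∑ a, M a b * H a = 0) (b : τ) : DD H (yy M b) = 0 := by
  unfold DD
  simp only [pderiv_yy, ← C_mul]
  rw [← map_sum]
  have : ∑ a, H a * M a b = 0 := by
    rw [← hH b]; exact Finset.sum_congr rfl fun a _ => mul_comm _ _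
  rw [this, map_zero]

lemma DD_aeval_yy (H : σ → ℝ) (hH : ∀ b, ∑ a, M a b * H a = 0) (r : MvPolynomial τ ℝ) :
    DD H (aeval (yy M) r) = 0 := by
  induction r using MvPolynomial.induction_on with
  | C c => simp only [aeval_C, algebraMap_eq, DD_C]
  | add p q hp hq => simp only [map_add, DD_add, hp, hq, add_zero]
  | mul_X p i hp => simp only [map_mul, DD_mul, hp, aeval_X, DD_yy M H hH, mul_zero, add_zero]

lemma DD_pow (H : σ → ℝ) (a : σ) (n : ℕ) :
    DD H (X a ^ n) = (n : MvPolynomial σ ℝ) * X a ^ (n - 1) * C (H a) := by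
  induction n with
  | zero => 
    have : (X a : MvPolynomial σ ℝ) ^ 0 = C 1 := by simp
    rw [this, DD_C]; simp
  | succ n ih =>
    rw [pow_succ, DD_mul, ih, DD_X]
    rcases n with _ | n
    · simp
    · simp only [Nat.add_sub_cancel, Nat.cast_add, Nat.cast_one]
      ring

lemma DD_eval₂ (H : σ → ℝ) (hH : ∀ b, ∑ a, M a b * H a = 0) (a : σ)
    (p : Polynomial (MvPolynomial τ ℝ)) :
    DD H (Polynomial.eval₂ (aeval (yy M)).toRingHom (X a) p) =
      Polynomial.eval₂ (aeval (yy M)).toRingHom (X a) p.derivative * C (H a) := by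
  induction p using Polynomial.induction_on' with
  | add p q hp hq =>
    rw [Polynomial.eval₂_add, DD_add, hp, hq, Polynomial.derivative_add, Polynomial.eval₂_add]
    ring
  | monomial n r =>
    rw [Polynomial.eval₂_monomial, Polynomial.derivative_monomial, Polynomial.eval₂_monomial,
      DD_mul, DD_pow]
    have h1 : DD H ((aeval (yy M)).toRingHom r) = 0 := DD_aeval_yy M H hH r
    rw [h1, map_mul, map_natCast]
    ring

include hdet in
lemma factA : ∃ c : MvPolynomial σ ℝ, aeval f c ≠ 0 ∧ ∀ θ : τ → ℝ, eval θ (aeval f c) ≠ 0 →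
    ∀ H, Tang f (pt f θ) H → ∃ v : τ → ℝ, ∀ a, H a = ∑ b, eval θ (pderiv b (f a)) * v b := by
  classical
  choose p hp1 hp2 using exists_rel f M hdet
  obtain ⟨c₀, hc0, hc1⟩ := lemmaN f M hdet _ hdet
  refine ⟨c₀ * ∏ a, Polynomial.eval₂ (aeval (yy M)).toRingHom (X a) (p a).derivative, ?_, ?_⟩
  · rw [map_mul, map_prod]
    exact mul_ne_zero hc0 (Finset.prod_ne_zero_iff.mpr fun a _ => hp2 a)
  · intro θ hθ H hH
    rw [map_mul, map_prod, map_mul, map_prod] at hθ
    have hθ1 := left_ne_zero_of_mul hθ
    have hθ2 := fun a => Finset.prod_ne_zero_iff.mp (right_ne_zero_of_mul hθ) a (Finset.mem_univ a)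
    have hδ : eval θ (Matrix.of fun b b' => pderiv b' (gg f M b)).det ≠ 0 := by
      intro h0
      obtain ⟨e, he⟩ := hc1
      rw [he, map_mul, h0, zero_mul] at hθ1
      exact hθ1 rfl
    have hδ' : (Matrix.of fun b b' => eval θ (pderiv b' (gg f M b))).det ≠ 0 := by
      have h1 := RingHom.map_det (eval θ) (Matrix.of fun b b' => pderiv b' (gg f M b))
      rw [h1] at hδ
      exact hδ
    -- solve
    obtain ⟨v, hv⟩ : ∃ v : τ → ℝ, (Matrix.of fun b b' => eval θ (pderiv b' (gg f M b))).mulVec v =
        fun b => ∑ a, M a b * H a := by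
      refine ⟨(Matrix.of fun b b' => eval θ (pderiv b' (gg f M b)))⁻¹.mulVec
        (fun b => ∑ a, M a b * H a), ?_⟩
      rw [Matrix.mulVec_mulVec, Matrix.mul_nonsing_inv _ (isUnit_iff_ne_zero.mpr hδ'),
        Matrix.one_mulVec]
    refine ⟨v, ?_⟩
    set H' : σ → ℝ := fun a => H a - ∑ b, eval θ (pderiv b (f a)) * v b with hH'
    have hT : Tang f (pt f θ) H' := by
      intro F hF
      have h1 := hH F hF
      have h2 := tang_of_jac f θ v F hF
      simp only [hH', mul_sub, Finset.sum_sub_distrib]
      rw [h1, h2, sub_zero]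
    have hM : ∀ b, ∑ a, M a b * H' a = 0 := by
      intro b
      have h1 := congrFun hv b
      simp only [Matrix.mulVec, dotProduct, Matrix.of_apply, pderiv_gg, map_sum, map_mul,
        eval_C] at h1
      simp only [hH', mul_sub, Finset.sum_sub_distrib]
      rw [← h1]
      simp only [Finset.mul_sum, Finset.sum_mul]
      rw [Finset.sum_comm]
      rw [sub_eq_zero]
      refine Finset.sum_congr rfl fun a _ => Finset.sum_congr rfl fun a' _ => ?_
      ring
    intro a
    have h3 := hT _ (hp1 a)
    have h4 := DD_eval₂ M H' hM a (p a)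
    have h5 := congrArg (eval (pt f θ)) h4
    simp only [DD, map_sum, map_mul, eval_C] at h5
    have h6 : ∑ a_1, H' a_1 * eval (pt f θ) (pderiv a_1
        (Polynomial.eval₂ (aeval (yy M)).toRingHom (X a) (p a))) = 0 := by
      rw [← h3]; exact Finset.sum_congr rfl fun _ _ => mul_comm _ _
    rw [h6] at h5
    have h7 : H' a = 0 := by
      rcases mul_eq_zero.mp h5.symm with h | h
      · exfalso
        rw [eval_pt] at h
        exact hθ2 a h
      · exact h
    have h8 : H a - ∑ b, eval θ (pderiv b (f a)) * v b = 0 := h7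
    linarith

end FactA

end Pool.Agent.R985.SEM
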