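import Mathlib
import Pool.Agent.R985.SEM1
open MvPolynomial

namespace Pool.Agent.R985.SEM

/-! ### Krull dimension of quotients -/

lemma krull_lt {σ : Type} [Finite σ] (P J : Ideal (MvPolynomial σ ℝ)) [hP : P.IsPrime]
    (h : P < J) :
    ringKrullDim (MvPolynomial σ ℝ ⧸ J) < ringKrullDim (MvPolynomial σ ℝ ⧸ P) := by
  obtain ⟨r, hrJ, hrP⟩ := SetLike.exists_of_lt h
  have hr0 : Ideal.Quotient.mk P r ≠ 0 := fun h0 => hrP (Ideal.Quotient.eq_zero_iff_mem.mp h0)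
  have h1 : ringKrullDim (MvPolynomial σ ℝ ⧸ J) + 1 ≤ ringKrullDim (MvPolynomial σ ℝ ⧸ P) := by
    refine ringKrullDim_succ_le_of_surjective (Ideal.Quotient.factor h.le)
      (Ideal.Quotient.factor_surjective h.le)
      (r := Ideal.Quotient.mk P r) (mem_nonZeroDivisors_of_ne_zero hr0) ?_
    rw [Ideal.Quotient.factor_mk]
    exact Ideal.Quotient.eq_zero_iff_mem.mpr hrJ
  have h2 : ringKrullDim (MvPolynomial σ ℝ ⧸ P) ≤ Nat.card σ := by
    have h3 := ringKrullDim_quotient_le P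
    rwa [MvPolynomial.ringKrullDim_of_isNoetherianRing, ringKrullDim_eq_zero_of_field,
      zero_add] at h3
  have h3 : (0 : WithBot ℕ∞) ≤ ringKrullDim (MvPolynomial σ ℝ ⧸ P) := ringKrullDim_nonneg_of_nontrivial
  generalize ringKrullDim (MvPolynomial σ ℝ ⧸ J) = x at *
  generalize ringKrullDim (MvPolynomial σ ℝ ⧸ P) = y at *
  induction x with
  | bot => exact lt_of_lt_of_le (WithBot.bot_lt_coe _) h3
  | coe x =>
    induction y with
    | bot => simp at h3
    | coe y =>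
      norm_cast at *
      have hy : y ≠ ⊤ := ne_top_of_le_ne_top (ENat.natCast_ne_top _) h2
      lift y to ℕ using hy
      have hx : x ≠ ⊤ := by
        rintro rfl
        simp at h1
      lift x to ℕ using hx
      norm_cast at *

/-- If both ideals are prime, either the intersection has smaller dimension or all three
vanishing ideals agree. -/
lemma zdim_dichotomy {σ : Type} [Finite σ] (S₁ S₂ : Set (σ → ℝ))
    (h₁ : (vanishingIdeal ℝ S₁).IsPrime) (h₂ : (vanishingIdeal ℝ S₂).IsPrime) :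
    (ringKrullDim (MvPolynomial σ ℝ ⧸ vanishingIdeal ℝ (S₁ ∩ S₂)) <
      max (ringKrullDim (MvPolynomial σ ℝ ⧸ vanishingIdeal ℝ S₁))
        (ringKrullDim (MvPolynomial σ ℝ ⧸ vanishingIdeal ℝ S₂))) ∨
    (vanishingIdeal ℝ S₁ = vanishingIdeal ℝ (S₁ ∩ S₂) ∧
      vanishingIdeal ℝ S₂ = vanishingIdeal ℝ (S₁ ∩ S₂)) := by
  have k1 : vanishingIdeal ℝ S₁ ≤ vanishingIdeal ℝ (S₁ ∩ S₂) :=
    vanishingIdeal_anti_mono Set.inter_subset_left
  have k2 : vanishingIdeal ℝ S₂ ≤ vanishingIdeal ℝ (S₁ ∩ S₂) :=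
    vanishingIdeal_anti_mono Set.inter_subset_right
  rcases eq_or_lt_of_le k1 with e1 | l1
  · rcases eq_or_lt_of_le k2 with e2 | l2
    · exact Or.inr ⟨e1, e2⟩
    · exact Or.inl (lt_of_lt_of_le (krull_lt _ _ l2) (le_max_right _ _))
  · exact Or.inl (lt_of_lt_of_le (krull_lt _ _ l1) (le_max_left _ _))

/-! ### Gram polynomial -/

lemma gramPoly {σ' τ' τ : Type} [Fintype σ'] [Fintype τ'] [DecidableEq τ']
    (J : Matrix σ' τ' (MvPolynomial τ ℝ)) (θ₀ : τ → ℝ)
    (h0 : ∀ v, (J.map (eval θ₀)).mulVec v = 0 → v = 0) :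
    ∃ h : MvPolynomial τ ℝ, h ≠ 0 ∧ ∀ θ, eval θ h ≠ 0 →
      ∀ v, (J.map (eval θ)).mulVec v = 0 → v = 0 := by
  have hev : ∀ θ, eval θ (J.transpose * J).det =
      ((J.map (eval θ)).transpose * (J.map (eval θ))).det := by
    intro θ
    have h1 := RingHom.map_det (eval θ) (J.transpose * J)
    rw [h1, RingHom.mapMatrix_apply, Matrix.map_mul, Matrix.transpose_map]
  refine ⟨(J.transpose * J).det, ?_, ?_⟩
  · intro hz
    have h1 := hev θ₀
    rw [hz, map_zero] at h1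
    obtain ⟨v, hv0, hv⟩ := Matrix.exists_mulVec_eq_zero_iff.mpr h1.symm
    apply hv0
    apply h0
    rw [← Matrix.mulVec_mulVec] at hv
    have h2 : (J.map (eval θ₀)).mulVec v ⬝ᵥ (J.map (eval θ₀)).mulVec v = 0 := by
      rw [Matrix.dotProduct_mulVec, ← Matrix.mulVec_transpose, hv, zero_dotProduct]
    exact dotProduct_self_eq_zero.mp h2
  · intro θ hθ v hv
    rw [hev] at hθ
    apply Matrix.eq_zero_of_mulVec_eq_zero hθ
    rw [← Matrix.mulVec_mulVec, hv, Matrix.mulVec_zero]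

lemma exists_M {σ τ : Type} [Fintype σ] [Fintype τ] [DecidableEq σ] [DecidableEq τ]
    (f : σ → MvPolynomial τ ℝ) (θ₀ : τ → ℝ)
    (h0 : ∀ v : τ → ℝ, (∀ a, ∑ b, eval θ₀ (pderiv b (f a)) * v b = 0) → v = 0) :
    ∃ M : Matrix σ τ ℝ, (Matrix.of fun b b' => pderiv b' (gg f M b)).det ≠ 0 := by
  refine ⟨fun a b => eval θ₀ (pderiv b (f a)), ?_⟩
  intro hz
  have h1 := RingHom.map_det (eval θ₀) (Matrix.of fun b b' =>
    pderiv b' (gg f (fun a b => eval θ₀ (pderiv b (f a))) b))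
  rw [hz, map_zero] at h1
  set A : Matrix σ τ ℝ := fun a b => eval θ₀ (pderiv b (f a)) with hA
  have h2 : (eval θ₀).mapMatrix (Matrix.of fun b b' => pderiv b' (gg f A b)) =
      A.transpose * A := by
    ext b b'
    simp only [RingHom.mapMatrix_apply, Matrix.map_apply, Matrix.of_apply, pderiv_gg, map_sum,
      map_mul, eval_C, Matrix.mul_apply, Matrix.transpose_apply]
    rfl
  rw [h2] at h1
  obtain ⟨v, hv0, hv⟩ := Matrix.exists_mulVec_eq_zero_iff.mpr h1.symm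
  apply hv0
  apply h0
  rw [← Matrix.mulVec_mulVec] at hv
  have h3 : A.mulVec v ⬝ᵥ A.mulVec v = 0 := by
    rw [Matrix.dotProduct_mulVec, ← Matrix.mulVec_transpose, hv, zero_dotProduct]
  have h4 := dotProduct_self_eq_zero.mp h3
  intro a
  exact congrFun h4 a

/-! ### the final linear algebra step -/

lemma final_linalg {V : Type} [Fintype V] [DecidableEq V] (L₁ L₂ : Matrix V V ℝ) (t₁ t₂ : ℝ)
    (A₁ A₂ : V → V → Prop) (hA₁ : ∀ i, ¬ A₁ i i) (hA₂ : ∀ i, ¬ A₂ i i)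
    (ht₁ : 0 < t₁) (ht₂ : 0 < t₂) (hd : L₁.det ≠ 0)
    (hL₁ : ∀ i j, i ≠ j → ¬ A₁ i j → L₁ i j = 0) (hL₂ : ∀ i j, i ≠ j → ¬ A₂ i j → L₂ i j = 0)
    (hL₁' : ∀ i, L₁ i i = t₁) (hL₂' : ∀ i, L₂ i i = t₂)
    (hK : L₁ * L₁.transpose = L₂ * L₂.transpose)
    (hW : ∀ (i : V) (w : V → ℝ), (∃ u : V → ℝ, (∀ j, ¬ A₁ i j → u j = 0) ∧ w = L₁.mulVec u) ↔
      (∃ u : V → ℝ, (∀ j, ¬ A₂ i j → u j = 0) ∧ w = L₂.mulVec u)) :
    L₁ = L₂ := by
  classical
  have hu : IsUnit L₁.det := isUnit_iff_ne_zero.mpr hd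
  obtain ⟨O, h1⟩ : ∃ O : Matrix V V ℝ, L₁ * O = L₂ :=
    ⟨L₁⁻¹ * L₂, by rw [← Matrix.mul_assoc, Matrix.mul_nonsing_inv _ hu, one_mul]⟩
  have h2 : O * O.transpose = 1 := by
    have h3 : L₁ * (O * O.transpose) * L₁.transpose = L₁ * 1 * L₁.transpose := by
      rw [Matrix.mul_one, hK, ← h1, Matrix.transpose_mul]
      simp only [Matrix.mul_assoc]
    have hut : IsUnit L₁.transpose.det := by rwa [Matrix.det_transpose]
    have h4 := congrArg (fun X => L₁⁻¹ * (X * L₁.transpose⁻¹)) h3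
    simp only [Matrix.mul_assoc, Matrix.mul_nonsing_inv _ hut, Matrix.mul_one] at h4
    simp only [← Matrix.mul_assoc, Matrix.nonsing_inv_mul _ hu, Matrix.one_mul] at h4
    exact h4
  have h3 : O.transpose * O = 1 := mul_eq_one_comm.mp h2
  have hdot : ∀ x y : V → ℝ, O.mulVec x ⬝ᵥ O.mulVec y = x ⬝ᵥ y := by
    intro x y
    rw [Matrix.dotProduct_mulVec, ← Matrix.mulVec_transpose, Matrix.mulVec_mulVec, h3,
      Matrix.one_mulVec]
  have hinjL : ∀ x y : V → ℝ, L₁.mulVec x = L₁.mulVec y → x = y := by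
    intro x y hxy
    have := congrArg (fun z => L₁⁻¹.mulVec z) hxy
    simpa [Matrix.mulVec_mulVec, Matrix.nonsing_inv_mul _ hu] using this
  have hrow : ∀ i, O.mulVec (L₂ i) = L₁ i := by
    intro i
    have h4 : O * L₂.transpose = L₁.transpose := by
      rw [← h1, Matrix.transpose_mul, ← Matrix.mul_assoc, h2, Matrix.one_mul]
    funext a
    have := congrFun (congrFun h4 a) i
    simpa [Matrix.mul_apply, Matrix.mulVec, dotProduct] using this
  -- key
  have hcol : ∀ i, O.mulVec (Pi.single i 1) = Pi.single i 1 := by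
    intro i
    set u₁ : V → ℝ := fun j => if A₁ i j then L₁ i j else 0 with hu₁
    set u₂ : V → ℝ := fun j => if A₂ i j then L₂ i j else 0 with hu₂
    have e1 : L₁ i = t₁ • (Pi.single i 1 : V → ℝ) + u₁ := by
      funext j
      by_cases hj : i = j
      · subst hj
        simp [hu₁, hA₁, hL₁']
      · by_cases hA : A₁ i j
        · simp [hu₁, hA, Pi.single_apply, Ne.symm hj]
        · simp [hu₁, hA, Pi.single_apply, Ne.symm hj, hL₁ i j hj hA]
    have e2 : L₂ i = t₂ • (Pi.single i 1 : V → ℝ) + u₂ := by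
      funext j
      by_cases hj : i = j
      · subst hj
        simp [hu₂, hA₂, hL₂']
      · by_cases hA : A₂ i j
        · simp [hu₂, hA, Pi.single_apply, Ne.symm hj]
        · simp [hu₂, hA, Pi.single_apply, Ne.symm hj, hL₂ i j hj hA]
    have e3 : O.mulVec u₂ - u₁ =
        t₁ • (Pi.single i 1 : V → ℝ) - t₂ • O.mulVec (Pi.single i 1) := by
      have := hrow i
      rw [e1, e2, Matrix.mulVec_add, Matrix.mulVec_smul] at this
      rw [sub_eq_sub_iff_add_eq_add]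
      rw [add_comm, this]
    obtain ⟨u, hu1, hu2⟩ := (hW i (L₂.mulVec u₂)).mpr ⟨u₂, fun j hj => by simp [hu₂, hj], rfl⟩
    have e4 : O.mulVec u₂ = u := by
      apply hinjL
      rw [← hu2, Matrix.mulVec_mulVec, h1]
    have hz1 : ∀ j, ¬ A₁ i j → (O.mulVec u₂ - u₁) j = 0 := by
      intro j hj
      simp [e4, hu1 j hj, hu₁, hj]
    obtain ⟨u', hu'1, hu'2⟩ := (hW i (L₁.mulVec (O.mulVec u₂ - u₁))).mp ⟨_, hz1, rfl⟩
    have e5 : O.mulVec u₂ - u₁ = O.mulVec u' := by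
      apply hinjL
      rw [hu'2, Matrix.mulVec_mulVec, h1]
    have hzz : (O.mulVec u₂ - u₁) ⬝ᵥ (O.mulVec u₂ - u₁) = 0 := by
      conv_lhs => arg 2; rw [e3]
      rw [dotProduct_sub, dotProduct_smul, dotProduct_smul]
      conv_lhs => arg 2; rw [e5, hdot]
      rw [dotProduct_single, dotProduct_single, hz1 i (hA₁ i), hu'1 i (hA₂ i)]
      simp
    have hz0 : O.mulVec u₂ - u₁ = 0 := dotProduct_self_eq_zero.mp hzz
    rw [e3] at hz0
    have e6 : t₁ • (Pi.single i 1 : V → ℝ) = t₂ • O.mulVec (Pi.single i 1) := sub_eq_zero.mp hz0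
    have e7 : t₁ * t₁ = t₂ * t₂ := by
      have h5 : (t₁ • (Pi.single i 1 : V → ℝ)) ⬝ᵥ (t₁ • (Pi.single i 1 : V → ℝ)) =
        (t₂ • O.mulVec (Pi.single i 1)) ⬝ᵥ (t₂ • O.mulVec (Pi.single i 1)) := by rw [e6]
      rw [dotProduct_smul, smul_dotProduct, dotProduct_smul, smul_dotProduct, hdot,
        dotProduct_single] at h5
      simpa using h5
    have e8 : t₁ = t₂ := by nlinarith
    rw [e8] at e6
    have e9 := congrArg (fun x : V → ℝ => t₂⁻¹ • x) e6
    simp only [smul_smul, inv_mul_cancel₀ ht₂.ne', one_smul] at e9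
    exact e9.symm
  have hO1 : O = 1 := by
    ext a b
    have := congrFun (hcol b) a
    simpa [Matrix.mulVec_single, Matrix.one_apply, Pi.single_apply] using this
  rw [← h1, hO1, Matrix.mul_one]

end Pool.Agent.R985.SEM
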